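import Pool.Agent.N976.EQ.Stm

/-!
From covers to the local energy equality (theorem `t_EC`), project EQ (helper976), by helper56.
-/

set_option autoImplicit false

open MeasureTheory Set Metric Filter Topology
open scoped ContDiff ENNReal Manifold

namespace Pool.Agent.N976.EQ

namespace EC

open H459R3.NS W221.NS Pool.Agent.Y8 Pool.Agent.N977.H Pool.Agent.N976.TL

/-- A smooth function between a compact set and an open set. -/
theorem bump (K U : Set (ℝ × V)) (hK : IsClosed K) (hU : IsOpen U) (hKU : K ⊆ U) :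
    ∃ χ : ℝ × V → ℝ, ContDiff ℝ ∞ χ ∧ (∀ z, 0 ≤ χ z) ∧ (∀ z, χ z ≤ 1) ∧ tsupport χ ⊆ U ∧
      ∀ᶠ z in 𝓝ˢ K, χ z = 1 := by
  obtain ⟨f, hf0, hf1, hf⟩ := exists_contMDiffMap_zero_one_nhds_of_isClosed (n := (⊤ : ℕ∞))
    𝓘(ℝ, ℝ × V) (s := Uᶜ) (t := K) hU.isClosed_compl hK
    (disjoint_compl_left_iff_subset.mpr hKU)
  refine ⟨f, f.contMDiff.contDiff, fun z => (hf z).1, fun z => (hf z).2, ?_, hf1⟩
  intro z hz
  by_contra hzU
  have h := (eventually_nhdsSet_iff_forall.mp hf0) z hzU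
  exact (notMem_tsupport_iff_eventuallyEq.mpr h) hz

/-- The set of the singular points is closed. -/
theorem sing_closed (G : Set ℝ) (u : ℝ → V → V) : IsClosed {z : ℝ × V | SingPt G u z.1 z.2} := by
  rw [← isOpen_compl_iff, Metric.isOpen_iff]
  intro z hz
  simp only [mem_compl_iff, mem_ofPred_eq, SingPt, not_forall] at hz
  obtain ⟨δ, hδ, B, hB⟩ := hz
  refine ⟨δ / 2, by linarith, fun w hw => ?_⟩
  simp only [mem_compl_iff, mem_ofPred_eq]
  intro hs
  obtain ⟨s, hsG, hst, y, hy, hBy⟩ := hs (δ / 2) (by linarith) B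
  apply hB
  rw [mem_ball, Prod.dist_eq, max_lt_iff] at hw
  refine ⟨s, hsG, ?_, y, ?_, hBy⟩
  · have h1 : |w.1 - z.1| < δ / 2 := by rw [← Real.dist_eq]; exact hw.1
    have h2 := abs_sub_le s w.1 z.1
    linarith
  · rw [mem_ball] at hy ⊢
    have := dist_triangle y w.2 z.2
    linarith [hw.2]

/-- The product of a test function and a smooth function. -/
theorem test_mul {T : ℝ} {φ : ℝ → V → ℝ} (hφ : Test T φ) {χ : ℝ × V → ℝ}
    (hχ : ContDiff ℝ ∞ χ) : Test T (fun t x => φ t x * χ (t, x)) := by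
  have h : tsupport (fun z : ℝ × V => φ z.1 z.2 * χ (z.1, z.2))
      ⊆ tsupport (fun z : ℝ × V => φ z.1 z.2) := tsupport_mul_subset_left
  exact ⟨hφ.smooth.mul hχ, hφ.cpt.mono' (subset_trans (subset_tsupport _) h),
    subset_trans h hφ.supp⟩

/-- The induction. -/
theorem ind (h0 : S_L0) (h3 : S_E3) {T E D : ℝ} {G : Set ℝ} {u : ℝ → V → V} {p : ℝ → V → ℝ}
    (hN : Turb 1 T E D G u p) {ι : Type} (U : ι → Set (ℝ × V)) (c : ι → ℝ)
    (hU : ∀ i, IsOpen (U i))
    (hc : ∀ i, ∀ ψ : ℝ → V → ℝ, Test T ψ → (∀ t x, 0 ≤ ψ t x) → (∀ t x, ψ t x ≤ 1) →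
      tsupport (fun z : ℝ × V => ψ z.1 z.2) ⊆ U i → LL G u p ψ ≤ c i) (t : Finset ι) :
    ∀ ψ : ℝ → V → ℝ, Test T ψ → (∀ t x, 0 ≤ ψ t x) → (∀ t x, ψ t x ≤ 1) →
      (∀ z ∈ tsupport (fun z : ℝ × V => ψ z.1 z.2), SingPt G u z.1 z.2 → ∃ i ∈ t, z ∈ U i) →
      LL G u p ψ ≤ ∑ i ∈ t, c i := by
  classical
  induction t using Finset.induction_on with
  | empty =>
    intro ψ hψ _ _ hs
    rw [Finset.sum_empty, h3 T E D G u p hN ψ hψ]
    intro z hz hzs
    obtain ⟨i, hi, _⟩ := hs z hz hzs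
    simp at hi
  | insert i t hit ih =>
    intro ψ hψ hψ0 hψ1 hs
    set K : Set (ℝ × V) := (tsupport (fun z : ℝ × V => ψ z.1 z.2) ∩
      {z : ℝ × V | SingPt G u z.1 z.2}) \ ⋃ j ∈ t, U j with hKdef
    have hKc : IsClosed K := by
      rw [hKdef, sdiff_eq]
      exact ((isClosed_tsupport _).inter (sing_closed G u)).inter
        (isOpen_biUnion fun j _ => hU j).isClosed_compl
    have hKU : K ⊆ U i := by
      intro z hz
      obtain ⟨⟨hz1, hz2⟩, hz3⟩ := hz
      obtain ⟨j, hj, hzj⟩ := hs z hz1 hz2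
      rcases Finset.mem_insert.mp hj with rfl | hj
      · exact hzj
      · exact absurd (mem_iUnion₂.mpr ⟨j, hj, hzj⟩) hz3
    obtain ⟨χ, hχs, hχ0, hχ1, hχU, hχK⟩ := bump K (U i) hKc (hU i) hKU
    have hT1 : Test T (fun t x => ψ t x * χ (t, x)) := test_mul hψ hχs
    have hχs' : ContDiff ℝ ∞ (fun z => 1 - χ z) := contDiff_const.sub hχs
    have hT2 : Test T (fun t x => ψ t x * (1 - χ (t, x))) := test_mul hψ hχs'
    have hsum := ((h0 T E D G u p hN _ hT1).2.2 _ hT2).2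
    have he : (fun t x => ψ t x * χ (t, x) + ψ t x * (1 - χ (t, x))) = ψ := by
      funext t x
      ring
    rw [he] at hsum
    rw [hsum, Finset.sum_insert hit]
    refine add_le_add ?_ ?_
    · refine hc i _ hT1 (fun t x => mul_nonneg (hψ0 t x) (hχ0 _))
        (fun t x => mul_le_one₀ (hψ1 t x) (hχ0 _) (hχ1 _)) ?_
      exact subset_trans (tsupport_mul_subset_right) hχU
    · refine ih _ hT2 (fun t x => mul_nonneg (hψ0 t x) (by linarith [hχ1 (t, x)]))
        (fun t x => mul_le_one₀ (hψ1 t x) (by linarith [hχ1 (t, x)])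
          (by linarith [hχ0 (t, x)])) ?_
      intro z hz hzs
      have hz1 : z ∈ tsupport (fun z : ℝ × V => ψ z.1 z.2) :=
        (tsupport_mul_subset_left : tsupport (fun z : ℝ × V => ψ z.1 z.2 * (1 - χ (z.1, z.2)))
          ⊆ _) hz
      by_contra hno
      have hzK : z ∈ K := by
        refine ⟨⟨hz1, hzs⟩, fun hm => hno ?_⟩
        obtain ⟨j, hj, hzj⟩ := mem_iUnion₂.mp hm
        exact ⟨j, hj, hzj⟩
      have h1 := (eventually_nhdsSet_iff_forall.mp hχK) z hzK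
      refine (notMem_tsupport_iff_eventuallyEq.mpr ?_) hz
      filter_upwards [h1] with w hw
      simp [hw]

end EC

open H459R3.NS W221.NS Pool.Agent.Y8 Pool.Agent.N977.H Pool.Agent.N976.TL

/-- From covers to the local energy equality. -/
theorem t_EC : S_L0 → S_E3 → S_EC := by
  intro h0 h3 T E D G u p hN φ hφ hφ0 hcov
  have hlow : 0 ≤ LL G u p φ := hN.local_energy φ hφ hφ0
  refine le_antisymm ?_ hlow
  -- a bound of `φ`
  obtain ⟨M, hM⟩ : ∃ M : ℝ, ∀ t x, φ t x ≤ M := by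
    obtain ⟨M, hM⟩ := hφ.cpt.exists_bound_of_continuous hφ.smooth.continuous
    exact ⟨M, fun t x => (le_abs_self _).trans (hM (t, x))⟩
  set M' : ℝ := max M 1 with hM'
  have hM'0 : 0 < M' := lt_of_lt_of_le one_pos (le_max_right _ _)
  have hφM : ∀ t x, φ t x ≤ M' := fun t x => (hM t x).trans (le_max_left _ _)
  -- the key estimate
  have key : ∀ ε : ℝ, 0 < ε → LL G u p φ ≤ M' * ε := by
    intro ε hε
    obtain ⟨ι, hι, U, c, hU, hc0, hcs, hcovr, hc⟩ := hcov ε hε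
    set S : Set (ℝ × V) := tsupport (fun z : ℝ × V => φ z.1 z.2) ∩
      {z : ℝ × V | SingPt G u z.1 z.2} with hS
    have hScpt : IsCompact S := hφ.cpt.isCompact.inter_right (EC.sing_closed G u)
    obtain ⟨t, ht⟩ := hScpt.elim_finite_subcover U hU (by
      intro z hz
      obtain ⟨i, hi⟩ := hcovr z hz.1 hz.2
      exact mem_iUnion.mpr ⟨i, hi⟩)
    have hTφ : Test T (fun t x => φ t x * (fun _ : ℝ × V => M'⁻¹) (t, x)) :=
      EC.test_mul hφ contDiff_const
    have h1 := EC.ind h0 h3 hN U c hU hc t (fun t x => φ t x * M'⁻¹) hTφ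
      (fun t x => mul_nonneg (hφ0 t x) (inv_nonneg.mpr hM'0.le))
      (fun t x => by
        rw [← div_eq_mul_inv, div_le_one hM'0]
        exact hφM t x)
      (by
        intro z hz hzs
        have hz1 : z ∈ tsupport (fun z : ℝ × V => φ z.1 z.2) :=
          (tsupport_mul_subset_left : tsupport (fun z : ℝ × V => φ z.1 z.2 *
            (fun _ : ℝ × V => M'⁻¹) z) ⊆ _) hz
        obtain ⟨i, hi, hzi⟩ := mem_iUnion₂.mp (ht ⟨hz1, hzs⟩)
        exact ⟨i, hi, hzi⟩)
    have h2 : LL G u p (fun t x => φ t x * M'⁻¹) = M'⁻¹ * LL G u p φ := by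
      have := (h0 T E D G u p hN φ hφ).2.1 M'⁻¹
      rw [← this]
      congr 1
      funext t x
      ring
    have h3' : ∑ i ∈ t, c i ≤ ε := by
      have h4 : ENNReal.ofReal (∑ i ∈ t, c i) ≤ ENNReal.ofReal ε := by
        rw [ENNReal.ofReal_sum_of_nonneg fun i _ => hc0 i]
        exact (ENNReal.sum_le_tsum t).trans hcs
      exact (ENNReal.ofReal_le_ofReal_iff hε.le).mp h4
    rw [h2] at h1
    have h5 : M'⁻¹ * LL G u p φ ≤ ε := h1.trans h3'
    calc LL G u p φ = M' * (M'⁻¹ * LL G u p φ) := by field_simp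
      _ ≤ M' * ε := mul_le_mul_of_nonneg_left h5 hM'0.le
  by_contra hpos
  push Not at hpos
  have h := key (LL G u p φ / (2 * M')) (by positivity)
  have h' : M' * (LL G u p φ / (2 * M')) = LL G u p φ / 2 := by field_simp
  rw [h'] at h
  linarith

end Pool.Agent.N976.EQ
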