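import Pool.Agent.N976.EQ.EQ0
import Pool.Agent.N976.EQ.EC
import Pool.Agent.N976.TL.Glue

/-!
The defect of the energy equality is concentrated on the points at which the dissipation grows fast:
general gauges (helper976, from the proofs of helper593 and helper56).
-/

set_option autoImplicit false

open MeasureTheory Set Metric
open scoped ContDiff ENNReal

namespace Pool.Agent.N976.EQ

open H459R3.NS W221.NS Pool.Agent.Y8 Pool.Agent.N977.H Pool.Agent.N976.TL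
open EQ0

/-- The growth of the dissipation at the point `z`. -/
def GrG (G : Set ℝ) (u : ℝ → V → V) (g : ℕ → ℝ) (M : ℝ) (z : ℝ × V) : Prop :=
  ∀ i : ℕ, ∫⁻ q in Cy i z, gG G u q ≤ ENNReal.ofReal (M * g i * rr i)

lemma grg_mono {G : Set ℝ} {u : ℝ → V → V} {g : ℕ → ℝ} {M M' : ℝ} {z : ℝ × V}
    (hg : ∀ i, 1 ≤ g i) (h : GrG G u g M z) (hM : M ≤ M') : GrG G u g M' z := by
  intro i
  refine (h i).trans (ENNReal.ofReal_le_ofReal ?_)
  have h0 := rr0 i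
  have h1 : 0 ≤ g i := zero_le_one.trans (hg i)
  gcongr

/-- The choice of the level. -/
theorem qcg {P B D δ : ℝ} {k₀ : ℕ} {g : ℕ → ℝ} (hP : 1 ≤ P) (hB : 1 ≤ B) (hD : 0 ≤ D)
    (hδ : 0 < δ)
    (hg1 : ∀ J, 1 ≤ g J)
    (hgl : ∀ η > 0, ∀ n : ℕ, ∃ J ≥ n, g J * (1 + Real.log J) ^ 6 ≤ η * J ^ 2) :
    ∃ J : ℕ, k₀ ≤ J ∧ P * (k₀ + 1 + Real.log B + Real.log (g J)) ≤ J ∧
      P * (g J) ^ P * D * Real.exp
        (-(J - P * (k₀ + 1 + Real.log B + Real.log (g J))) /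
          (P * √(g J) * (1 + Real.log (g J)) ^ 2)) ≤ δ := by
  obtain ⟨J, hJ, Λ, hΛ, h1, h2, h3⟩ := t_C1 P B (max D 1) (min δ 1) k₀ k₀ g hP hB
    (le_max_of_le_right zero_le_one) (lt_min hδ one_pos) (fun i => zero_le_one.trans (hg1 i)) hgl
  have hgJ := hg1 J
  have hgΛ : g J ≤ Λ := by
    have h4 : g J * (1 / Λ) ≤ 1 := by
      calc g J * (1 / Λ) ≤ g J * (max D 1 / Λ) := by
            have : 0 ≤ g J := by linarith
            gcongr
            exact le_max_right _ _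
        _ ≤ min δ 1 := h2
        _ ≤ 1 := min_le_right _ _
    rw [mul_one_div, div_le_one (by linarith)] at h4
    exact h4
  have hlg : Real.log (g J) ≤ Real.log Λ := Real.log_le_log (by linarith) hgΛ
  have hlg0 : 0 ≤ Real.log (g J) := Real.log_nonneg hgJ
  have hP0 : 0 < P := by linarith
  have hJ0 : (0 : ℝ) ≤ J := Nat.cast_nonneg J
  have hPl : P * (k₀ + 1 + Real.log B + Real.log (g J)) ≤
      P * (k₀ + 1 + Real.log B + Real.log Λ) := by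
    gcongr
  refine ⟨J, hJ, by linarith, ?_⟩
  have hE : Real.exp (-(J - P * (k₀ + 1 + Real.log B + Real.log (g J))) /
      (P * √(g J) * (1 + Real.log (g J)) ^ 2)) ≤
      Real.exp (-(J - P * (k₀ + 1 + Real.log B + Real.log Λ)) /
      (P * √Λ * (1 + Real.log Λ) ^ 2)) := by
    apply Real.exp_le_exp.2
    rw [neg_div, neg_div, neg_le_neg_iff]
    have hs : 0 < √(g J) := Real.sqrt_pos.2 (by linarith)
    apply div_le_div₀
    · linarith
    · linarith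
    · positivity
    · gcongr
  have hmd : (0 : ℝ) < max D 1 := lt_max_of_lt_right one_pos
  obtain ⟨Y, hY⟩ : ∃ Y, Y = Real.exp (-(J - P * (k₀ + 1 + Real.log B + Real.log Λ)) /
      (P * √Λ * (1 + Real.log Λ) ^ 2)) := ⟨_, rfl⟩
  obtain ⟨Z, hZ⟩ : ∃ Z, Z = Real.exp (-(J - P * (k₀ + 1 + Real.log B + Real.log (g J))) /
      (P * √(g J) * (1 + Real.log (g J)) ^ 2)) := ⟨_, rfl⟩
  rw [← hY] at h3 hE
  rw [← hZ] at hE ⊢
  have hZ0 : 0 ≤ Z := by rw [hZ]; positivity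
  have hY0 : 0 ≤ Y := by rw [hY]; positivity
  have hX : 0 ≤ P * Λ ^ P * max D 1 * Y := by positivity
  calc P * (g J) ^ P * D * Z ≤ P * Λ ^ P * max D 1 * Y := by
        have e1 : (g J) ^ P ≤ Λ ^ P := Real.rpow_le_rpow (by linarith) hgΛ hP0.le
        have e2 : 0 ≤ (g J) ^ P := Real.rpow_nonneg (by linarith) _
        have e3 : D ≤ max D 1 := le_max_left _ _
        gcongr
    _ ≤ g J * (P * Λ ^ P * max D 1 * Y) := le_mul_of_one_le_left hX hgJ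
    _ ≤ min δ 1 := h3
    _ ≤ δ := min_le_left _ _

/-- The covers. -/
theorem covg (h9 : S_Q9) (hQT : S_QT) (hD1 : S_D1) {T E D : ℝ} {G : Set ℝ} {u : ℝ → V → V}
    {p : ℝ → V → ℝ} (hN : Turb 1 T E D G u p) {g : ℕ → ℝ} (hg1 : ∀ i, 1 ≤ g i) (hgm : Monotone g)
    (hgl : ∀ η > 0, ∀ n : ℕ, ∃ J ≥ n, g J * (1 + Real.log J) ^ 6 ≤ η * J ^ 2)
    {K : Set (ℝ × V)} (hKc : IsCompact K) (hKs : K ⊆ Ioo 0 T ×ˢ univ) {ε : ℝ} (hε : 0 < ε) :
    ∃ (ι : Type) (_ : Countable ι) (U : ι → Set (ℝ × V)) (c : ι → ℝ),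
      (∀ i, IsOpen (U i)) ∧ (∀ i, 0 ≤ c i) ∧ ∑' i, ENNReal.ofReal (c i) ≤ ENNReal.ofReal ε ∧
      (∀ z ∈ K, SingPt G u z.1 z.2 → (∃ M, GrG G u g M z) → ∃ i, z ∈ U i) ∧
      ∀ i, ∀ ψ : ℝ → V → ℝ, Test T ψ → (∀ t x, 0 ≤ ψ t x) → (∀ t x, ψ t x ≤ 1) →
        tsupport (fun z : ℝ × V => ψ z.1 z.2) ⊆ U i → LL G u p ψ ≤ c i := by
  classical
  obtain ⟨m, C, θ, hm, hC, hθ, h9⟩ := h9
  obtain ⟨C₁, hC₁, hD1⟩ := hD1
  obtain ⟨P, hP, hT⟩ := hQT m C θ (by omega) hC hθ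
  obtain ⟨B, hB, h9'⟩ := h9 T E D G u p hN
  obtain ⟨k₀, hk3, hk⟩ := ex_level hKc hKs
  obtain ⟨L₀, hL₀⟩ := hKc.isBounded.exists_norm_le
  have hL : ∀ z ∈ K, ‖z.2‖ < L₀ + 1 := fun z hz => by
    have h1 : ‖z.2‖ ≤ ‖z‖ := norm_snd_le z
    linarith [hL₀ z hz]
  obtain ⟨F, hF⟩ : ∃ F, F = Y7.FtG 16 G u := ⟨_, rfl⟩
  have hFm : Measurable F := by rw [hF]; exact Y7.FtG_meas 16 hN
  have hfin : ∫⁻ q in Nb K k₀, F q ≠ ⊤ := by
    rw [hF]
    exact D2.nb_fin hN hL k₀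
  obtain ⟨D₀, hD₀⟩ : ∃ D₀, D₀ = (∫⁻ q in Nb K k₀, F q).toReal := ⟨_, rfl⟩
  have hD0 : 0 ≤ D₀ := by rw [hD₀]; exact ENNReal.toReal_nonneg
  have hFD : ∫⁻ q in Nb K k₀, F q ≤ ENNReal.ofReal D₀ := by
    rw [hD₀, ENNReal.ofReal_toReal hfin]
  have hPX : ∀ z : ℝ × V, z ∈ K ∧ SingPt G u z.1 z.2 → ∃ e X : ℕ → ℝ,
      PtD (Y7.FtG 16 G u) m C θ B k₀ z e X ∧
      ∀ i ≥ k₀, ∀ φ : ℝ → V → ℝ, Test T φ → (∀ t x, 0 ≤ φ t x) → (∀ t x, φ t x ≤ 1) →
        tsupport (fun z : ℝ × V => φ z.1 z.2) ⊆ Cy (i + 3) z →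
        LL G u p φ ≤ C * rr i * ((1 + √(X i)) * e i + e i ^ 2) := fun z hz =>
    h9' k₀ z hk3 (hk z hz.1).1 (hk z hz.1).2 hz.2
  choose! e X hPD hLL using hPX
  have key : ∀ n : ℕ, ∃ (U : Set (ℝ × V)) (l : ℝ × V → ℕ), U.Countable ∧
      U ⊆ {z | z ∈ K ∧ SingPt G u z.1 z.2 ∧ GrG G u g n z} ∧ (∀ z ∈ U, k₀ ≤ l z) ∧
      {z | z ∈ K ∧ SingPt G u z.1 z.2 ∧ GrG G u g n z} ⊆ ⋃ z ∈ U, Cy (l z + 3) z ∧
      ∑' z : U, ENNReal.ofReal (C * rr (l z) * ((1 + √(X z (l z))) * e z (l z) + e z (l z) ^ 2))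
        ≤ ENNReal.ofReal (ε / 2 * (1 / 2) ^ n) := by
    intro n
    have hn0 : (0 : ℝ) ≤ n := Nat.cast_nonneg n
    have hMn : 1 ≤ 1 + C₁ * (n + |D|) := by
      have : 0 ≤ C₁ * (n + |D|) := by positivity
      linarith
    obtain ⟨M₁, hM₁⟩ : ∃ M₁ : ℝ, M₁ = 1 + C₁ * (n + |D|) := ⟨_, rfl⟩
    rw [← hM₁] at hMn
    obtain ⟨J, hJk, hJ1, hJ2⟩ := qcg (P := P) (B := B) (D := D₀) (k₀ := k₀)
      (δ := ε / 2 * (1 / 2) ^ n / C) (g := fun i => M₁ * g i) hP hB hD0 (by positivity)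
      (fun i => by nlinarith [hg1 i]) (by
        intro η hη N
        obtain ⟨J, hJ, h⟩ := hgl (η / M₁) (by positivity) N
        refine ⟨J, hJ, ?_⟩
        calc M₁ * g J * (1 + Real.log J) ^ 6 = M₁ * (g J * (1 + Real.log J) ^ 6) := by ring
          _ ≤ M₁ * (η / M₁ * J ^ 2) := mul_le_mul_of_nonneg_left h (by linarith)
          _ = η * J ^ 2 := by
              field_simp)
    have hA : (1 : ℝ) ≤ g J := hg1 J
    have hΛ : 1 ≤ M₁ * g J := by nlinarith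
    obtain ⟨U, l, h1, h2, h3, h4, h5⟩ := hT F hFm
      {z | z ∈ K ∧ SingPt G u z.1 z.2 ∧ GrG G u g n z} B D₀
      (M₁ * g J) k₀ J e X hB hD0 hΛ
      (fun z hz => by
        rw [hF]
        exact hPD z ⟨hz.1, hz.2.1⟩)
      (fun z hz i _ hiJ => by
        rw [hF, hM₁]
        refine (hD1 T E D G u p hN z i).trans (dens' hC₁ hn0 hA _ fun j hj => ?_)
        refine (hz.2.2 j).trans (ENNReal.ofReal_le_ofReal ?_)
        have h0 := rr0 j
        have h6 : g j ≤ g J := hgm (hj.le.trans hiJ)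
        gcongr)
      ((lintegral_mono_set (C2.c2_nb_mono (fun z hz => hz.1) k₀)).trans hFD) hJ1
    refine ⟨U, l, h1, h2, h3, h4, ?_⟩
    have e1 : ∀ z : U, ENNReal.ofReal (C * rr (l z) * ((1 + √(X z (l z))) * e z (l z)
        + e z (l z) ^ 2)) = ENNReal.ofReal C * ENNReal.ofReal (rr (l z) *
          ((1 + √(X z (l z))) * e z (l z) + e z (l z) ^ 2)) := by
      intro z
      rw [← ENNReal.ofReal_mul hC.le, mul_assoc]
    simp_rw [e1]
    rw [ENNReal.tsum_mul_left]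
    refine (mul_le_mul_right (h5.trans (ENNReal.ofReal_le_ofReal hJ2)) _).trans ?_
    rw [← ENNReal.ofReal_mul hC.le]
    apply ENNReal.ofReal_le_ofReal
    rw [mul_div_cancel₀ _ hC.ne']
  choose U l hUc hUK hUl hUcov hUsum using key
  have : ∀ n, Countable (U n) := fun n => (hUc n).to_subtype
  refine ⟨(n : ℕ) × (U n), inferInstance, fun i => Cy (l i.1 i.2 + 3) i.2,
    fun i => C * rr (l i.1 i.2) * ((1 + √(X i.2 (l i.1 i.2))) * e i.2 (l i.1 i.2)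
      + e i.2 (l i.1 i.2) ^ 2), ?_, ?_, ?_, ?_, ?_⟩
  · intro i
    exact isOpen_Ioo.prod isOpen_ball
  · rintro ⟨n, z, hz⟩
    have h1 := (hPD z ⟨(hUK n hz).1, (hUK n hz).2.1⟩).e0 (l n z)
    have h2 := rr0 (l n z)
    show 0 ≤ C * rr (l n z) * ((1 + √(X z (l n z))) * e z (l n z) + e z (l n z) ^ 2)
    positivity
  · rw [ENNReal.tsum_sigma']
    refine (ENNReal.tsum_le_tsum fun n => hUsum n).trans ?_
    have hs : HasSum (fun n : ℕ => ε / 2 * (1 / 2) ^ n) (ε / 2 * 2) :=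
      hasSum_geometric_two.mul_left (ε / 2)
    rw [← ENNReal.ofReal_tsum_of_nonneg (fun n => by positivity) hs.summable, hs.tsum_eq]
    apply ENNReal.ofReal_le_ofReal
    linarith
  · intro z hz hsing hG
    obtain ⟨M, hM⟩ := hG
    obtain ⟨n, hn⟩ := exists_nat_ge M
    have h1 := hUcov n (show z ∈ {z | z ∈ K ∧ SingPt G u z.1 z.2 ∧ GrG G u g n z} from
      ⟨hz, hsing, grg_mono hg1 hM hn⟩)
    obtain ⟨w, hw, hzw⟩ := mem_iUnion₂.1 h1
    exact ⟨⟨n, w, hw⟩, hzw⟩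
  · rintro ⟨n, z, hz⟩ ψ hψ hψ0 hψ1 hψs
    exact hLL z ⟨(hUK n hz).1, (hUK n hz).2.1⟩ (l n z) (hUl n z hz) ψ hψ hψ0 hψ1 hψs

/-- The defect of a test function which vanishes identically. -/
theorem ll_zero {T : ℝ} {G : Set ℝ} {u : ℝ → V → V} {p : ℝ → V → ℝ} {ψ : ℝ → V → ℝ}
    (h : tsupport (fun z : ℝ × V => ψ z.1 z.2) = ∅) (h0 : S_L0) (E D : ℝ)
    (hN : Turb 1 T E D G u p) (hψ : Test T ψ) : LL G u p ψ = 0 := by
  have h1 : (fun z : ℝ × V => ψ z.1 z.2) = 0 := tsupport_eq_empty_iff.1 h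
  have h2 : (fun t x => (0 : ℝ) * ψ t x) = ψ := by
    funext t x
    have := congrFun h1 (t, x)
    simp only [Pi.zero_apply] at this
    rw [this, mul_zero]
  have h3 := (h0 T E D G u p hN ψ hψ).2.1 0
  rw [h2, zero_mul] at h3
  exact h3

/-- The defect is concentrated on the singular points at which the dissipation grows fast. -/
theorem conc (h9 : S_Q9) (hQT : S_QT) (hD1 : S_D1) (h0 : S_L0) (h3 : S_E3) {T E D : ℝ}
    {G : Set ℝ} {u : ℝ → V → V} {p : ℝ → V → ℝ} (hN : Turb 1 T E D G u p) {g : ℕ → ℝ}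
    (hg1 : ∀ i, 1 ≤ g i) (hgm : Monotone g)
    (hgl : ∀ η > 0, ∀ n : ℕ, ∃ J ≥ n, g J * (1 + Real.log J) ^ 6 ≤ η * J ^ 2) {ε : ℝ}
    (hε : 0 < ε) :
    ∃ U : Set (ℝ × V), IsOpen U ∧
      (∀ t ∈ Ioo 0 T, ∀ x : V, (SingPt G u t x → ∃ M, GrG G u g M (t, x)) → (t, x) ∈ U) ∧
      ∀ ψ : ℝ → V → ℝ, Test T ψ → (∀ t x, 0 ≤ ψ t x) → (∀ t x, ψ t x ≤ 1) →
        tsupport (fun z : ℝ × V => ψ z.1 z.2) ⊆ U → LL G u p ψ ≤ ε := by
  classical
  rcases le_or_gt T 0 with hT | hT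
  · refine ⟨∅, isOpen_empty, fun t ht => ?_, fun ψ hψ _ _ hs => ?_⟩
    · have := ht.1.trans ht.2
      linarith
    · rw [ll_zero (subset_empty_iff.1 hs) h0 E D hN hψ]
      exact hε.le
  obtain ⟨K, hK⟩ : ∃ K : ℕ → Set (ℝ × V), K = fun n : ℕ =>
    Icc (T / ((n : ℝ) + 2)) (T - T / ((n : ℝ) + 2)) ×ˢ closedBall (0 : V) n := ⟨_, rfl⟩
  have hKc : ∀ n, IsCompact (K n) := fun n => by
    rw [hK]
    exact isCompact_Icc.prod (isCompact_closedBall _ _)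
  have hKs : ∀ n, K n ⊆ Ioo 0 T ×ˢ univ := by
    intro n z hz
    rw [hK] at hz
    have h1 : 0 < T / ((n : ℝ) + 2) := by positivity
    refine ⟨⟨?_, ?_⟩, mem_univ _⟩
    · linarith [hz.1.1]
    · linarith [hz.1.2]
  have hcov := fun n : ℕ => covg h9 hQT hD1 hN hg1 hgm hgl (hKc n) (hKs n)
    (show 0 < ε / 2 * (1 / 2) ^ n by positivity)
  choose ι hι U c hU hc0 hcs hcv hcl using hcov
  refine ⟨(⋃ i : (n : ℕ) × ι n, U i.1 i.2) ∪ {z : ℝ × V | SingPt G u z.1 z.2}ᶜ,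
    (isOpen_iUnion fun i : (n : ℕ) × ι n => hU i.1 i.2).union
      (EC.sing_closed G u).isOpen_compl, ?_, ?_⟩
  · intro t ht x hx
    by_cases hs : SingPt G u t x
    · left
      obtain ⟨n, hn⟩ := exh ht
      obtain ⟨L, hL⟩ := exists_nat_gt ‖x‖
      have h1 : (t, x) ∈ K (max n L) := by
        rw [hK]
        refine ⟨⟨?_, ?_⟩, ?_⟩
        · refine le_trans ?_ hn.1
          have : (n : ℝ) ≤ (max n L : ℕ) := by exact_mod_cast le_max_left n L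
          show T / (((max n L : ℕ) : ℝ) + 2) ≤ T / ((n : ℝ) + 2)
          gcongr
        · refine hn.2.trans ?_
          have : (n : ℝ) ≤ (max n L : ℕ) := by exact_mod_cast le_max_left n L
          have h2 : T / (((max n L : ℕ) : ℝ) + 2) ≤ T / ((n : ℝ) + 2) := by gcongr
          show T - T / ((n : ℝ) + 2) ≤ T - T / (((max n L : ℕ) : ℝ) + 2)
          linarith
        · rw [mem_closedBall_zero_iff]
          refine hL.le.trans ?_
          exact_mod_cast le_max_right n L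
      obtain ⟨i, hi⟩ := hcv (max n L) (t, x) h1 hs (hx hs)
      exact mem_iUnion.2 ⟨⟨max n L, i⟩, hi⟩
    · right
      exact hs
  · intro ψ hψ hψ0 hψ1 hψs
    obtain ⟨S, hS⟩ : ∃ S : Set (ℝ × V), S = tsupport (fun z : ℝ × V => ψ z.1 z.2) ∩
      {z : ℝ × V | SingPt G u z.1 z.2} := ⟨_, rfl⟩
    have hScpt : IsCompact S := by
      rw [hS]
      exact hψ.cpt.isCompact.inter_right (EC.sing_closed G u)
    obtain ⟨t, ht⟩ := hScpt.elim_finite_subcover (fun i : (n : ℕ) × ι n => U i.1 i.2)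
      (fun i => hU i.1 i.2) (by
      intro z hz
      rw [hS] at hz
      rcases hψs hz.1 with h | h
      · exact h
      · exact absurd hz.2 h)
    have h1 := EC.ind h0 h3 hN (fun i : (n : ℕ) × ι n => U i.1 i.2) (fun i => c i.1 i.2)
      (fun i => hU i.1 i.2) (fun i => hcl i.1 i.2) t ψ hψ hψ0 hψ1 (by
        intro z hz hzs
        have h2 : z ∈ S := by
          rw [hS]
          exact ⟨hz, hzs⟩
        obtain ⟨i, hi, hzi⟩ := mem_iUnion₂.mp (ht h2)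
        exact ⟨i, hi, hzi⟩)
    refine h1.trans ?_
    have h4 : ENNReal.ofReal (∑ i ∈ t, c i.1 i.2) ≤ ENNReal.ofReal ε := by
      rw [ENNReal.ofReal_sum_of_nonneg fun i _ => hc0 i.1 i.2]
      refine (ENNReal.sum_le_tsum t).trans ?_
      rw [ENNReal.tsum_sigma' (fun i : (n : ℕ) × ι n => ENNReal.ofReal (c i.1 i.2))]
      refine (ENNReal.tsum_le_tsum fun n => hcs n).trans ?_
      have hs : HasSum (fun n : ℕ => ε / 2 * (1 / 2) ^ n) (ε / 2 * 2) :=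
        hasSum_geometric_two.mul_left (ε / 2)
      rw [← ENNReal.ofReal_tsum_of_nonneg (fun n => by positivity) hs.summable, hs.tsum_eq]
      apply ENNReal.ofReal_le_ofReal
      linarith
    exact (ENNReal.ofReal_le_ofReal_iff hε.le).mp h4

/-- From the concentration of the defect to the local energy equality. -/
theorem loc_of_conc (h0 : S_L0) {T E D : ℝ} {G : Set ℝ} {u : ℝ → V → V} {p : ℝ → V → ℝ}
    (hN : Turb 1 T E D G u p) {φ : ℝ → V → ℝ} (hφ : Test T φ) (hφ0 : ∀ t x, 0 ≤ φ t x)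
    (h : ∀ ε : ℝ, 0 < ε → ∃ U : Set (ℝ × V), tsupport (fun z : ℝ × V => φ z.1 z.2) ⊆ U ∧
      ∀ ψ : ℝ → V → ℝ, Test T ψ → (∀ t x, 0 ≤ ψ t x) → (∀ t x, ψ t x ≤ 1) →
        tsupport (fun z : ℝ × V => ψ z.1 z.2) ⊆ U → LL G u p ψ ≤ ε) :
    LL G u p φ = 0 := by
  have hlow : 0 ≤ LL G u p φ := hN.local_energy φ hφ hφ0
  refine le_antisymm ?_ hlow
  obtain ⟨M, hM⟩ : ∃ M : ℝ, ∀ t x, φ t x ≤ M := by
    obtain ⟨M, hM⟩ := hφ.cpt.exists_bound_of_continuous hφ.smooth.continuous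
    exact ⟨M, fun t x => (le_abs_self _).trans (hM (t, x))⟩
  obtain ⟨M', hM'⟩ : ∃ M' : ℝ, M' = max M 1 := ⟨_, rfl⟩
  have hM'0 : 0 < M' := by rw [hM']; exact lt_of_lt_of_le one_pos (le_max_right _ _)
  have hφM : ∀ t x, φ t x ≤ M' := fun t x => by rw [hM']; exact (hM t x).trans (le_max_left _ _)
  have key : ∀ ε : ℝ, 0 < ε → LL G u p φ ≤ M' * ε := by
    intro ε hε
    obtain ⟨U, hU, hUl⟩ := h ε hε
    have hTφ : Test T (fun t x => φ t x * (fun _ : ℝ × V => M'⁻¹) (t, x)) :=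
      EC.test_mul hφ contDiff_const
    have h1 := hUl (fun t x => φ t x * M'⁻¹) hTφ
      (fun t x => mul_nonneg (hφ0 t x) (inv_nonneg.mpr hM'0.le))
      (fun t x => by
        rw [← div_eq_mul_inv, div_le_one hM'0]
        exact hφM t x)
      ((tsupport_mul_subset_left (f := fun z : ℝ × V => φ z.1 z.2)
        (g := fun _ : ℝ × V => M'⁻¹)).trans hU)
    have h2 : LL G u p (fun t x => φ t x * M'⁻¹) = M'⁻¹ * LL G u p φ := by
      have := (h0 T E D G u p hN φ hφ).2.1 M'⁻¹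
      rw [← this]
      congr 1
      funext t x
      ring
    rw [h2] at h1
    calc LL G u p φ = M' * (M'⁻¹ * LL G u p φ) := by field_simp
      _ ≤ M' * ε := mul_le_mul_of_nonneg_left h1 hM'0.le
  by_contra hpos
  push Not at hpos
  have h := key (LL G u p φ / (2 * M')) (by positivity)
  have h' : M' * (LL G u p φ / (2 * M')) = LL G u p φ / 2 := by field_simp
  rw [h'] at h
  linarith

end Pool.Agent.N976.EQ
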