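import Pool.Agent.N976.EQ.Fin
import Pool.Agent.N976.EQ.Gen

/-!
The final form of the theorems on the defect of the energy equality: general gauges and viscosity
(helper976).
-/

set_option autoImplicit false

open MeasureTheory Set Metric
open scoped ContDiff ENNReal

namespace Pool.Agent.N976.EQ

open H459R3.NS W221.NS Pool.Agent.Y8 Pool.Agent.N977.H Pool.Agent.N976.TL Pool.Agent.Y96.NS

/-- The dissipation near `(t, x)` is `O(h)`. -/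
def Tm (ν : ℝ) (h : ℝ → ℝ) (G : Set ℝ) (u : ℝ → V → V) (t : ℝ) (x : V) : Prop :=
  ∃ K : ℝ, ∃ r₁ > 0, ∀ r ∈ Ioo 0 r₁,
    ∫⁻ q in {q : ℝ × V | q.1 ∈ G ∧ ν * |q.1 - t| < r ^ 2 ∧ ‖q.2 - x‖ < r},
      ENNReal.ofReal (gsq (u q.1) q.2) ≤ ENNReal.ofReal (K * h r)

/-- From the gauge to the sequence. -/
lemma gseq1 {h : ℝ → ℝ} {r₀ : ℝ} (hr₀ : 0 < r₀) (hpos : ∀ r ∈ Ioc 0 r₀, 0 < h r)
    (hmono : MonotoneOn (fun r => r / h r) (Ioc 0 r₀))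
    (hlim : ∀ η > 0, ∀ ρ > 0, ∃ r ∈ Ioo 0 ρ,
      h r * (1 + Real.log (1 + |Real.log r|)) ^ 6 ≤ η * (r * Real.log r ^ 2)) :
    ∃ (g : ℕ → ℝ) (J₀ : ℕ), (∀ i, 1 ≤ g i) ∧ Monotone g ∧
      (∀ J, J₀ ≤ J → h (rr J) ≤ rr J * g J) ∧
      ∀ η > 0, ∀ n : ℕ, ∃ J ≥ n, g J * (1 + Real.log J) ^ 6 ≤ η * J ^ 2 := by
  obtain ⟨J₀, hJ₀⟩ := ex_rr hr₀
  obtain ⟨g, hg0, hgm, hgh, hgl⟩ := gseq hr₀ hpos hmono hlim J₀ hJ₀
  refine ⟨fun i => 1 + g i, J₀, fun i => by linarith [hg0 i], fun a b hab => by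
    have := hgm hab
    show 1 + g a ≤ 1 + g b
    linarith, fun J hJ => ?_, fun η hη n => ?_⟩
  · rw [← hgh J hJ]
    have := rr0 J
    nlinarith
  · obtain ⟨N₁, hN₁⟩ := Filter.eventually_atTop.1 C1.ev1
    obtain ⟨N₂, hN₂⟩ := exists_nat_ge (6 / η)
    obtain ⟨J, hJ, h1⟩ := hgl (η / 2) (half_pos hη) (max n (max N₁ N₂))
    have hJn : n ≤ J := (le_max_left _ _).trans hJ
    have hJ1 : N₁ ≤ J := ((le_max_left _ _).trans (le_max_right _ _)).trans hJ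
    have hJ2 : (N₂ : ℝ) ≤ J := by
      exact_mod_cast ((le_max_right _ _).trans (le_max_right _ _)).trans hJ
    have h2 := hN₁ J hJ1
    have h3 : 6 ≤ η * J := by
      rw [div_le_iff₀ hη] at hN₂
      nlinarith
    refine ⟨J, hJn, ?_⟩
    have hJ0 : (0 : ℝ) ≤ J := Nat.cast_nonneg J
    have h4 : 3 * (J : ℝ) ≤ η / 2 * (J : ℝ) ^ 2 := by nlinarith
    calc (1 + g J) * (1 + Real.log J) ^ 6 = (1 + Real.log J) ^ 6 + g J * (1 + Real.log J) ^ 6 := by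
          ring
      _ ≤ η / 2 * (J : ℝ) ^ 2 + η / 2 * (J : ℝ) ^ 2 := add_le_add (h2.trans h4) h1
      _ = η * (J : ℝ) ^ 2 := by ring

/-- The bound of the density. -/
theorem grg_of {ν T E D : ℝ} {G : Set ℝ} {u : ℝ → V → V} {p : ℝ → V → ℝ} (hν : 0 < ν)
    (hN : Turb ν T E D G u p) {h : ℝ → ℝ} {g : ℕ → ℝ} {J₀ : ℕ} (hg1 : ∀ i, 1 ≤ g i)
    (hh0 : ∀ J, J₀ ≤ J → 0 ≤ h (rr J)) (hh : ∀ J, J₀ ≤ J → h (rr J) ≤ rr J * g J) (t : ℝ) (x : V)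
    (hT : Tm ν h G u t x) :
    ∃ M : ℝ, GrG {t | t / ν ∈ G} (fun t x => ν⁻¹ • u (t / ν) x) g M (ν * t, x) := by
  have h1 := (t_WSCAL ν T E D G u p hν hN).1
  obtain ⟨C, hC, hb⟩ := D2.gG_bd
  obtain ⟨K, r₀, hr₀, hT⟩ := hT
  obtain ⟨k', hk'⟩ := ex_rr (half_pos hr₀)
  obtain ⟨k, hkdef⟩ : ∃ k, k = max k' J₀ := ⟨_, rfl⟩
  have hk : rr k ≤ r₀ / 2 := (rr_anti (by rw [hkdef]; exact le_max_left _ _)).trans hk'
  have hkJ : J₀ ≤ k := by rw [hkdef]; exact le_max_right _ _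
  obtain ⟨M₁, hM₁⟩ : ∃ M₁, M₁ = |K| / ν := ⟨_, rfl⟩
  obtain ⟨M₂, hM₂⟩ : ∃ M₂, M₂ = C * |D / ν| / rr k := ⟨_, rfl⟩
  have hrk := rr0 k
  have h10 : 0 ≤ M₁ := by rw [hM₁]; positivity
  have h20 : 0 ≤ M₂ := by rw [hM₂]; positivity
  refine ⟨M₁ + M₂, fun i => ?_⟩
  have hgi : 1 ≤ g i := hg1 i
  have hgi0 : 0 ≤ g i := by linarith
  have hri := rr0 i
  rcases le_or_gt k i with hki | hki
  · have h3 : rr i < r₀ := ((rr_anti hki).trans hk).trans_lt (half_lt_self hr₀)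
    have h4 := hT (rr i) ⟨hri, h3⟩
    have h5 := dens_scale hν hN i t x (M := M₁ * g i) (by positivity) (by
      refine h4.trans (ENNReal.ofReal_le_ofReal ?_)
      have e : M₁ * g i * ν * rr i = |K| * (rr i * g i) := by
        rw [hM₁]
        field_simp
      rw [e]
      exact (mul_le_mul_of_nonneg_right (le_abs_self K) (hh0 i (hkJ.trans hki))).trans
        (mul_le_mul_of_nonneg_left (hh i (hkJ.trans hki)) (abs_nonneg K)))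
    refine h5.trans (ENNReal.ofReal_le_ofReal ?_)
    have : 0 ≤ M₂ * g i * rr i := by positivity
    nlinarith
  · refine (hb _ _ _ _ _ _ h1 (ν * t, x) i).trans (ENNReal.ofReal_le_ofReal ?_)
    have h6 : rr k ≤ rr i := rr_anti hki.le
    have h7 : C * |D / ν| ≤ M₂ * rr i := by
      rw [hM₂, div_mul_eq_mul_div, le_div_iff₀ hrk]
      exact mul_le_mul_of_nonneg_left h6 (by positivity)
    have h8 : M₂ * rr i ≤ M₂ * g i * rr i := by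
      have : M₂ * 1 ≤ M₂ * g i := mul_le_mul_of_nonneg_left hgi h20
      nlinarith
    have h9 : 0 ≤ M₁ * g i * rr i := by positivity
    nlinarith

/-- Scaling of the defect. -/
theorem ll_sc {ν : ℝ} (hν : 0 < ν) {G : Set ℝ} (hG : IsOpen G) (u : ℝ → V → V) (p : ℝ → V → ℝ)
    (φ : ℝ → V → ℝ) : ∫ t in G, DD ν u p φ t = ν ^ 2 *
      LL {t | t / ν ∈ G} (fun t x => ν⁻¹ • u (t / ν) x) (fun t x => (ν ^ 2)⁻¹ * p (t / ν) x)
        (fun s x => φ (s / ν) x) := by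
  unfold LL
  simp_rw [DD_sc hν]
  rw [integral_const_mul, int_div hν hG
    (fun t => DD ν u p (fun s x => φ (ν * s / ν) x) t)]
  have e : (fun s x => φ (ν * s / ν) x) = φ := by
    funext s x
    rw [mul_div_cancel_left₀ s hν.ne']
  rw [e]
  field_simp

/-- The support of the rescaled function. -/
theorem supp_div {ν : ℝ} (hν : 0 < ν) {φ : ℝ → V → ℝ} {t : ℝ} {x : V}
    (h : (t, x) ∈ tsupport (fun z : ℝ × V => φ (z.1 / ν) z.2)) :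
    (t / ν, x) ∈ tsupport (fun z : ℝ × V => φ z.1 z.2) := by
  set e : ℝ × V ≃ₜ ℝ × V :=
    (Homeomorph.mulLeft₀ ν⁻¹ (inv_ne_zero hν.ne')).prodCongr (Homeomorph.refl V) with he
  have hfe : (fun z : ℝ × V => φ (z.1 / ν) z.2) = (fun z : ℝ × V => φ z.1 z.2) ∘ e := by
    funext z
    show φ (z.1 / ν) z.2 = φ (ν⁻¹ * z.1) z.2
    rw [div_eq_inv_mul]
  rw [hfe, tsupport_comp_eq_preimage] at h
  have h4 : (ν⁻¹ * t, x) ∈ tsupport (fun z : ℝ × V => φ z.1 z.2) := h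
  rwa [← div_eq_inv_mul] at h4

/-- The defect is concentrated on the singular points at which the dissipation is not `O(h)`. -/
theorem fin_conc (h9 : S_Q9) (hQT : S_QT) (hD1 : S_D1) (h0 : S_L0) (h3 : S_E3) {ν T E D : ℝ}
    {G : Set ℝ} {u : ℝ → V → V} {p : ℝ → V → ℝ} (hν : 0 < ν) (hN : Turb ν T E D G u p)
    {h : ℝ → ℝ} {r₀ : ℝ} (hr₀ : 0 < r₀) (hpos : ∀ r ∈ Ioc 0 r₀, 0 < h r)
    (hmono : MonotoneOn (fun r => r / h r) (Ioc 0 r₀))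
    (hlim : ∀ η > 0, ∀ ρ > 0, ∃ r ∈ Ioo 0 ρ,
      h r * (1 + Real.log (1 + |Real.log r|)) ^ 6 ≤ η * (r * Real.log r ^ 2))
    {ε : ℝ} (hε : 0 < ε) :
    ∃ U : Set (ℝ × V), IsOpen U ∧
      (∀ t ∈ Ioo 0 T, ∀ x : V, (SingPt G u t x → Tm ν h G u t x) → (t, x) ∈ U) ∧
      ∀ ψ : ℝ → V → ℝ, Test T ψ → (∀ t x, 0 ≤ ψ t x) → (∀ t x, ψ t x ≤ 1) →
        tsupport (fun z : ℝ × V => ψ z.1 z.2) ⊆ U → ∫ t in G, DD ν u p ψ t ≤ ε := by
  have h1 := (t_WSCAL ν T E D G u p hν hN).1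
  obtain ⟨g, J₀, hg1, hgm, hgh, hgl⟩ := gseq1 hr₀ hpos hmono hlim
  obtain ⟨J₁, hJ₁⟩ := ex_rr hr₀
  obtain ⟨U, hU, hcov, hUl⟩ := conc h9 hQT hD1 h0 h3 h1 hg1 hgm hgl
    (show 0 < ε / ν ^ 2 by positivity)
  refine ⟨(fun z : ℝ × V => (ν * z.1, z.2)) ⁻¹' U, hU.preimage (by fun_prop), ?_, ?_⟩
  · intro t ht x hx
    refine hcov (ν * t) ⟨mul_pos hν ht.1, mul_lt_mul_of_pos_left ht.2 hν⟩ x fun hs => ?_
    have hs' := sing_div hν hs
    rw [mul_div_cancel_left₀ t hν.ne'] at hs'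
    exact grg_of (J₀ := max J₀ J₁) hν hN hg1
      (fun J hJ => (hpos _ ⟨rr0 J, (rr_anti ((le_max_right _ _).trans hJ)).trans hJ₁⟩).le)
      (fun J hJ => hgh J ((le_max_left _ _).trans hJ)) t x (hx hs')
  · intro ψ hψ hψ0 hψ1 hs
    rw [ll_sc hν hN.openG]
    have h2 := hUl (fun s x => ψ (s / ν) x) (test_div hν hψ) (fun t x => hψ0 _ _)
      (fun t x => hψ1 _ _) (by
        rintro ⟨t, x⟩ hz
        have h4 := hs (supp_div hν hz)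
        have h5 : (ν * (t / ν), x) ∈ U := h4
        rwa [mul_div_cancel₀ t hν.ne'] at h5)
    calc ν ^ 2 * _ ≤ ν ^ 2 * (ε / ν ^ 2) := mul_le_mul_of_nonneg_left h2 (by positivity)
      _ = ε := by field_simp

/-- The local energy equality. -/
theorem fin_locG (h9 : S_Q9) (hQT : S_QT) (hD1 : S_D1) (h0 : S_L0) (h3 : S_E3) {ν T E D : ℝ}
    {G : Set ℝ} {u : ℝ → V → V} {p : ℝ → V → ℝ} (hν : 0 < ν) (hN : Turb ν T E D G u p)
    {h : ℝ → ℝ} {r₀ : ℝ} (hr₀ : 0 < r₀) (hpos : ∀ r ∈ Ioc 0 r₀, 0 < h r)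
    (hmono : MonotoneOn (fun r => r / h r) (Ioc 0 r₀))
    (hlim : ∀ η > 0, ∀ ρ > 0, ∃ r ∈ Ioo 0 ρ,
      h r * (1 + Real.log (1 + |Real.log r|)) ^ 6 ≤ η * (r * Real.log r ^ 2))
    {φ : ℝ → V → ℝ} (hφ : Test T φ) (hφ0 : ∀ t x, 0 ≤ φ t x)
    (hd : ∀ t x, (t, x) ∈ tsupport (fun z : ℝ × V => φ z.1 z.2) → SingPt G u t x →
      Tm ν h G u t x) :
    ∫ t in G, DD ν u p φ t = 0 := by
  have h1 := (t_WSCAL ν T E D G u p hν hN).1
  rw [ll_sc hν hN.openG]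
  rw [loc_of_conc h0 h1 (test_div hν hφ) (fun t x => hφ0 _ _), mul_zero]
  intro ε hε
  obtain ⟨U, hU, hcov, hUl⟩ := fin_conc h9 hQT hD1 h0 h3 hν hN hr₀ hpos hmono hlim
    (show 0 < ν ^ 2 * ε by positivity)
  refine ⟨(fun z : ℝ × V => (z.1 / ν, z.2)) ⁻¹' U, ?_, ?_⟩
  · rintro ⟨t, x⟩ hz
    have h4 := supp_div hν hz
    exact hcov (t / ν) (hφ.supp h4).1 x (hd _ _ h4)
  · intro ψ hψ hψ0 hψ1 hs
    have h2 := hUl (fun s x => ψ (ν * s) x) (test_mul hν hψ) (fun t x => hψ0 _ _)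
      (fun t x => hψ1 _ _) (by
        rintro ⟨t, x⟩ hz
        have h6 : (ν * t, x) ∈ tsupport (fun z : ℝ × V => ψ z.1 z.2) := by
          have h7 := supp_div (inv_pos.2 hν) (φ := ψ) (t := t) (x := x) (by
            have e : (fun z : ℝ × V => ψ (z.1 / ν⁻¹) z.2) = fun z : ℝ × V => ψ (ν * z.1) z.2 := by
              funext z
              rw [div_inv_eq_mul, mul_comm]
            rw [e]
            exact hz)
          rwa [div_inv_eq_mul, mul_comm] at h7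
        have h8 := hs h6
        have h9 : (ν * t / ν, x) ∈ U := h8
        rwa [mul_div_cancel_left₀ t hν.ne'] at h9)
    rw [ll_sc hν hN.openG] at h2
    have e : (fun s x => ψ (ν * (s / ν)) x) = ψ := by
      funext s x
      rw [mul_div_cancel₀ s hν.ne']
    rw [e] at h2
    exact le_of_mul_le_mul_left h2 (by positivity)

/-- The energy equality. -/
theorem fin_globG (h9 : S_Q9) (hQT : S_QT) (hD1 : S_D1) (h0 : S_L0) (h3 : S_E3) (h4 : S_E4)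
    {ν T E D : ℝ} {G : Set ℝ} {u : ℝ → V → V} {p : ℝ → V → ℝ} (hν : 0 < ν)
    (hN : Turb ν T E D G u p) {h : ℝ → ℝ} {r₀ : ℝ} (hr₀ : 0 < r₀)
    (hpos : ∀ r ∈ Ioc 0 r₀, 0 < h r) (hmono : MonotoneOn (fun r => r / h r) (Ioc 0 r₀))
    (hlim : ∀ η > 0, ∀ ρ > 0, ∃ r ∈ Ioo 0 ρ,
      h r * (1 + Real.log (1 + |Real.log r|)) ^ 6 ≤ η * (r * Real.log r ^ 2))
    (hd : ∀ t ∈ Ioo 0 T, ∀ x, SingPt G u t x → Tm ν h G u t x) :
    ∀ s ∈ G, ∀ t ∈ G, s ≤ t →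
      energy (u t) - energy (u s) = -(2 * ν) * ∫ τ in Ioo s t, enstrophy (u τ) := by
  have h1 := (t_WSCAL ν T E D G u p hν hN).1
  have hmem : ∀ s ∈ G, ν * s ∈ {t | t / ν ∈ G} := by
    intro s hs
    show ν * s / ν ∈ G
    rwa [mul_div_cancel_left₀ s hν.ne']
  intro s hs t ht hst
  have h2 := h4 _ _ _ _ _ _ h1 (by
    intro φ hφ hφ0
    have hφ' : Test T (fun s x => φ (ν * s) x) := test_mul hν hφ
    have h5 := fin_locG h9 hQT hD1 h0 h3 hν hN hr₀ hpos hmono hlim hφ' (fun t x => hφ0 _ _)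
      (fun t x hz hs => hd t (hφ'.supp hz).1 x hs)
    rw [ll_sc hν hN.openG] at h5
    have e : (fun s x => φ (ν * (s / ν)) x) = φ := by
      funext s x
      rw [mul_div_cancel₀ s hν.ne']
    rw [e] at h5
    rcases mul_eq_zero.1 h5 with h6 | h6
    · exact absurd h6 (by positivity)
    · exact h6) (ν * s) (hmem s hs) (ν * t) (hmem t ht) (mul_le_mul_of_nonneg_left hst hν.le)
  simp_rw [energy_sm, enstrophy_sm, mul_div_cancel_left₀ _ hν.ne'] at h2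
  rw [integral_const_mul] at h2
  have h3 : ∫ τ in Ioo (ν * s) (ν * t), enstrophy (u (τ / ν))
      = ν * ∫ τ in Ioo s t, enstrophy (u τ) := by
    have e : Ioo (ν * s) (ν * t) = {τ : ℝ | τ / ν ∈ Ioo s t} := by
      ext τ
      show _ ↔ τ / ν ∈ Ioo s t
      simp only [mem_Ioo, lt_div_iff₀ hν, div_lt_iff₀ hν, mul_comm s, mul_comm t]
    rw [e]
    exact int_div hν isOpen_Ioo (fun τ => enstrophy (u τ))
  rw [h3] at h2
  have h5 : (ν⁻¹ ^ 2) ≠ 0 := by positivity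
  have h6 : ν⁻¹ ^ 2 * (energy (u t) - energy (u s))
      = ν⁻¹ ^ 2 * (-(2 * ν) * ∫ τ in Ioo s t, enstrophy (u τ)) := by
    linear_combination h2
  exact mul_left_cancel₀ h5 h6

end Pool.Agent.N976.EQ
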