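import Pool.Agent.N976.EQ.Stm
import Pool.Agent.Y496.NS.WFR2
import Pool.Agent.Y494.NS.TCUT
import Pool.Agent.Y494.NS.ACX
import Pool.Agent.Y535.NS.WFO

/-!
The energy inequality with the defect in the moving frame (part K2 of the project EQ of
helper976). The proof follows the one of `Pool.Agent.Y496.NS.WFR2.t_WFR2`.
-/

set_option autoImplicit false

open MeasureTheory Set Metric Filter Topology
open scoped ContDiff ENNReal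

namespace Pool.Agent.N976.EQ

open H459R3.NS W221.NS Pool.Agent.Y8 Pool.Agent.N977.H Pool.Agent.N976.TL
open Pool.Agent.Y496.NS.WFR2 (am_le am_lt am_bd am_lo am_up chv cross3)

namespace K2

theorem fin_ar {r a b c d e f L : ℝ} (h1 : r * b = d + e) (h2 : r * a = c + f) {g : ℝ}
    (h3 : d - c ≤ g - L) : r * (b - a) ≤ ((e - f) + g) - L := by
  nlinarith

end K2

open K2 in
theorem t_K2 : S_K1 → S_K2 := by
  intro hK1 T E D G u p h r s hr hrs hsT X Y B C hP α β ρ Φ hMT s' t' hs'I hs'G ht'I ht'G hαs' hst'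
    htβ' hpos φ hφ hφ0 hφs hφd
  have hT : S_TCUT := Pool.Agent.Y494.NS.t_TCUT
  have hA : S_ACX := Pool.Agent.Y494.NS.t_ACX
  have hW : S_WFO := Pool.Agent.Y535.WFO.t_WFO
  have hr2 : 0 < r ^ 2 := by positivity
  set H : Set ℝ := {t | t ∈ Ioo (-1 : ℝ) 0 ∧ s + r ^ 2 * t ∈ G} with hH
  have hmap1 : ∀ t ∈ Ioo (-1 : ℝ) 0, s + r ^ 2 * t ∈ Ioo (s - r ^ 2) s := fun t ht =>
    am_bd hr2 s ht
  have hmap : ∀ t ∈ Ioo (-1 : ℝ) 0, s + r ^ 2 * t ∈ Ioo 0 T := by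
    intro t ht
    have h1 := hmap1 t ht
    exact ⟨by linarith [h1.1], by linarith [h1.2]⟩
  have hcont : Continuous fun t : ℝ => s + r ^ 2 * t := by fun_prop
  have hHo : IsOpen H := isOpen_Ioo.inter (h.openG.preimage hcont)
  have hHG : ∀ t ∈ H, s + r ^ 2 * t ∈ G := fun t ht => ht.2
  have hXd : ∀ t ∈ G, HasDerivAt X (mo r (u t) (X t)) t := fun t ht => hP.evD h ht
  obtain ⟨hv, hq, hdiv, hmom⟩ := hW T E D G u p h r s hr X hP.sm hXd H hHG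
  have hYder : ∀ τ ∈ G, ∀ i, deriv (fun τ => X τ i) τ = Y τ i := by
    intro τ hτ i
    have h1 := hP.hd τ (h.subG hτ)
    exact ((hasDerivAt_pi.1 h1) i).deriv
  have hvz : ∀ t ∈ H, ∀ z i, frv r s X u t z i =
      r * (u (s + r ^ 2 * t) (X (s + r ^ 2 * t) + r • z) i - Y (s + r ^ 2 * t) i) := by
    intro t ht z i
    unfold frv
    rw [hYder _ ht.2 i]
  have hs0 : 0 < s := hr2.trans hrs
  have hT0 : 0 < T := hs0.trans hsT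
  have hB0 : 0 ≤ B := (norm_nonneg _).trans (hP.bd s ⟨hs0, hsT⟩)
  have hs' : s' ∈ H := ⟨hs'I, hs'G⟩
  have ht' : t' ∈ H := ⟨ht'I, ht'G⟩
  have hΦ := hMT.sm
  have hρ := hMT.rho
  -- the test function in the original variables
  set α' := s + r ^ 2 * α with hα'
  set β' := s + r ^ 2 * β with hβ'
  set Ψ : ℝ → V → ℝ := fun τ x => Φ ((r ^ 2)⁻¹ * (τ - s)) (r⁻¹ • x) with hΨd
  have hin : ∀ τ ∈ Ioo α' β', (r ^ 2)⁻¹ * (τ - s) ∈ Ioo α β := by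
    intro τ hτ
    rw [hα', hβ'] at hτ
    constructor
    · rw [lt_inv_mul_iff₀ hr2]
      linarith [hτ.1]
    · rw [inv_mul_lt_iff₀ hr2]
      linarith [hτ.2]
  have hα0 : s - r ^ 2 ≤ α' := am_lo hr2 s hMT.low
  have hβ0 : β' ≤ s := am_up hr2 s hMT.up
  have hΨ : ContDiffOn ℝ ∞ (fun z : ℝ × V => Ψ z.1 z.2) (Ioo α' β' ×ˢ univ) := by
    have h2 : ContDiff ℝ ∞ (fun z : ℝ × V => (((r ^ 2)⁻¹ * (z.1 - s), r⁻¹ • z.2) : ℝ × V)) := by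
      fun_prop
    exact hΦ.comp h2.contDiffOn fun z hz => ⟨hin z.1 hz.1, mem_univ _⟩
  have hrρ : 0 < r * ρ := by positivity
  have hΨ0 : ∀ τ ∈ Ioo α' β', ∀ z ∉ ball (0 : V) (r * ρ), Ψ τ z = 0 := by
    intro τ hτ z hz
    refine hMT.supp _ (hin τ hτ) _ fun h' => hz ?_
    rw [mem_ball, dist_zero_right, norm_smul, Real.norm_eq_abs, abs_of_pos (inv_pos.2 hr),
      inv_mul_lt_iff₀ hr] at h'
    rwa [mem_ball, dist_zero_right]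
  set τ₁ := s + r ^ 2 * s' with hτ₁
  set τ₂ := s + r ^ 2 * t' with hτ₂
  have hτ₁G : τ₁ ∈ G := hs'.2
  have hτ₂G : τ₂ ∈ G := ht'.2
  have hle : τ₁ ≤ τ₂ := am_le hr2 s hst'
  have hα1 : α' < τ₁ := am_lt hr2 s hαs'
  have hβ1 : τ₂ < β' := am_lt hr2 s htβ'
  have hback : ∀ t, (r ^ 2)⁻¹ * (s + r ^ 2 * t - s) = t := by
    intro t
    rw [add_sub_cancel_left, ← mul_assoc, inv_mul_cancel₀ hr2.ne', one_mul]
  have hτback : ∀ τ : ℝ, s + r ^ 2 * ((r ^ 2)⁻¹ * (τ - s)) = τ := by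
    intro τ
    rw [← mul_assoc, mul_inv_cancel₀ hr2.ne', one_mul]
    ring
  have hIcc : ∀ τ ∈ Icc τ₁ τ₂, (r ^ 2)⁻¹ * (τ - s) ∈ Icc s' t' := by
    intro τ hτ
    constructor
    · rw [le_inv_mul_iff₀ hr2]
      have := hτ.1
      rw [hτ₁] at this
      linarith
    · rw [inv_mul_le_iff₀ hr2]
      have := hτ.2
      rw [hτ₂] at this
      linarith
  have hposΨ : ∀ τ ∈ Icc τ₁ τ₂, ∀ z, 0 ≤ Ψ τ z := fun τ hτ z => hpos _ (hIcc τ hτ) _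
  have hinT : ∀ τ ∈ Ioo α' β', τ ∈ Ioo 0 T := fun τ hτ =>
    ⟨by linarith [hτ.1], by linarith [hτ.2]⟩
  have hZder : ∀ τ ∈ Ioo α' β', HasDerivAt X (Y τ) τ := fun τ hτ => hP.hd τ (hinT τ hτ)
  have hZ'c : ContinuousOn Y (Ioo α' β') := (hP.yc h).mono hinT
  have hI1' : Icc τ₁ τ₂ ⊆ Ioo α' β' := fun τ hτ => ⟨hα1.trans_le hτ.1, hτ.2.trans_lt hβ1⟩
  have hDom : Dom φ Ψ X τ₁ τ₂ := by
    refine ⟨hφ0, hφs, ?_⟩
    obtain ⟨δ, hδ, hd⟩ := hφd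
    refine ⟨δ, hδ, fun τ hτ x x' hxx => ?_⟩
    have h1 := hd _ (hIcc τ hτ) x x' hxx
    rw [hτback] at h1
    exact h1
  obtain ⟨hI1, hE1⟩ := hK1 T E D G u p h α' β' Ψ hΨ (r * ρ) hrρ hΨ0 X Y τ₁ τ₂ hτ₁G hτ₂G hα1 hle hβ1
    (fun τ hτ => hZder τ (hI1' hτ)) (hZ'c.mono hI1') φ hφ hDom
  -- the two energies
  set Eu : ℝ → ℝ := fun τ => ∫ x, nsq (u τ) x * mv Ψ X τ x with hEu
  set Ev : ℝ → ℝ := EW (frv r s X u) Φ (fun _ => 0) with hEv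
  set G' : Set ℝ := G ∩ Ioo α' β' ∩ Ioo (s - r ^ 2) s with hG'
  have hG'o : IsOpen G' := (h.openG.inter isOpen_Ioo).inter isOpen_Ioo
  have hG'G : G' ⊆ G := fun τ hτ => hτ.1.1
  have hG'ab : G' ⊆ Ioo α' β' := fun τ hτ => hτ.1.2
  have hG'H : ∀ τ ∈ G', (r ^ 2)⁻¹ * (τ - s) ∈ H := by
    intro τ hτ
    refine ⟨⟨?_, ?_⟩, ?_⟩
    · rw [lt_inv_mul_iff₀ hr2]
      linarith [hτ.2.1]
    · rw [inv_mul_lt_iff₀ hr2]
      linarith [hτ.2.2]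
    · show s + r ^ 2 * ((r ^ 2)⁻¹ * (τ - s)) ∈ G
      rw [hτback]
      exact hG'G hτ
  obtain ⟨RX, hRX0, hRX⟩ : ∃ ρ' : ℝ, 0 < ρ' ∧ ∀ τ ∈ G', ∀ z ∉ ball (0 : V) ρ',
      mv Ψ X τ z = 0 := by
    refine ⟨‖X τ₁‖ + B * T + r * ρ + 1, by positivity,
      fun τ hτ z hz => hΨ0 τ (hG'ab hτ) _ fun h' => hz ?_⟩
    rw [mem_ball, dist_zero_right] at h' ⊢
    have h1T := h.subG hτ₁G
    have h2T := h.subG (hG'G hτ)
    have h3 := Convex.norm_image_sub_le_of_norm_hasDerivWithin_le (f := X) (s := Ioo 0 T)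
      (C := B) (fun x hx => (hP.hd x hx).hasDerivWithinAt)
      (fun x hx => hP.bd x hx) (convex_Ioo _ _) h1T h2T
    have h4 : ‖τ - τ₁‖ ≤ T := by
      rw [Real.norm_eq_abs, abs_le]
      constructor <;> linarith [h1T.1, h1T.2, h2T.1, h2T.2]
    have h5 : B * ‖τ - τ₁‖ ≤ B * T := mul_le_mul_of_nonneg_left h4 hB0
    have h6 := norm_sub_norm_le (X τ) (X τ₁)
    have h7 := norm_sub_norm_le z (X τ)
    linarith
  have hmvs : ContDiffOn ℝ ∞ (fun z : ℝ × V => mv Ψ X z.1 z.2) (G' ×ˢ univ) := by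
    have h1 : ContDiffOn ℝ ∞ (fun z : ℝ × V => X z.1) (G' ×ˢ univ) :=
      (hP.sm.mono hG'G).comp contDiff_fst.contDiffOn fun z hz => hz.1
    have h2 : ContDiffOn ℝ ∞ (fun z : ℝ × V => ((z.1, z.2 - X z.1) : ℝ × V)) (G' ×ˢ univ) :=
      contDiff_fst.contDiffOn.prodMk (contDiff_snd.contDiffOn.sub h1)
    exact hΨ.comp h2 fun z hz => ⟨hG'ab hz.1, mem_univ _⟩
  have hum : ContDiffOn ℝ ∞ (fun z : ℝ × V => u z.1 z.2) (G' ×ˢ univ) :=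
    h.smooth_u.mono (prod_mono hG'G subset_rfl)
  have hpm : ContDiffOn ℝ ∞ (fun z : ℝ × V => p z.1 z.2) (G' ×ˢ univ) :=
    h.smooth_p.mono (prod_mono hG'G subset_rfl)
  have hdu : ∀ τ ∈ G', HasDerivAt Eu (DD 1 u p (mv Ψ X) τ) τ := fun τ hτ =>
    en_id hG'o hum hpm (fun t ht => h.divfree t (hG'G ht)) (fun t ht x i => by
      have := h.momentum t (hG'G ht) x i
      rw [one_mul] at this
      exact this) hmvs hRX0 hRX hτ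
  have hJo : IsOpen (H ∩ Ioo α β) := hHo.inter isOpen_Ioo
  have hdv : ∀ t ∈ H ∩ Ioo α β, HasDerivAt Ev (deriv Ev t) t := by
    intro t ht
    have hys2 : ContDiff ℝ ∞ (fun z : ℝ × V => ((z.1, z.2 - (0 : V)) : ℝ × V)) := by
      fun_prop
    have hF : ContDiffOn ℝ ∞
        (fun z : ℝ × V => nsq (frv r s X u z.1) z.2 * mv Φ (fun _ => 0) z.1 z.2)
        ((H ∩ Ioo α β) ×ˢ univ) :=
      (nsq_joint (hv.mono (prod_mono inter_subset_left subset_rfl))).mul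
        (hΦ.comp hys2.contDiffOn fun z hz => ⟨hz.1.2, mem_univ _⟩)
    have h0 : ∀ t ∈ H ∩ Ioo α β, ∀ z ∉ ball (0 : V) 1,
        nsq (frv r s X u t) z * mv Φ (fun _ => 0) t z = 0 := by
      intro t ht z hz
      have : mv Φ (fun _ => 0) t z = 0 := by
        refine hMT.supp t ht.2 _ fun h' => hz ?_
        rw [mem_ball, dist_zero_right] at h' ⊢
        have h7 := norm_sub_norm_le z (0 : V)
        have h8 := hMT.ins t ht.2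
        simp only [norm_zero, sub_zero] at h7 h8 h'
        linarith
      rw [this, mul_zero]
    have h1 := hd_int (F := fun t z => nsq (frv r s X u t) z * mv Φ (fun _ => 0) t z) hJo hF h0 ht
    exact h1.differentiableAt.hasDerivAt
  -- the cross terms
  have hcr : ∀ τ ∈ G', r * Ev ((r ^ 2)⁻¹ * (τ - s)) = Eu τ + cr u Ψ X Y τ := by
    intro τ hτ
    have hτH := hG'H τ hτ
    have hΦc : Continuous (mv Φ (fun _ => 0) ((r ^ 2)⁻¹ * (τ - s))) :=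
      (sl_sm hΦ (hin τ (hG'ab hτ))).continuous.comp (by fun_prop)
    have h1 := en_frame (w := u τ) (a := X τ) (y := Y τ) hr (h.spv (hG'G hτ)).1 hΦc
      (R := 1) (fun z hz => by
        refine hMT.supp _ (hin τ (hG'ab hτ)) _ fun h' => hz ?_
        rw [mem_ball, dist_zero_right] at h' ⊢
        have h8 := hMT.ins _ (hin τ (hG'ab hτ))
        simp only [norm_zero, sub_zero] at h8 h'
        linarith) (v := frv r s X u ((r ^ 2)⁻¹ * (τ - s))) (by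
        intro z i
        rw [hvz _ hτH z i, hτback])
    have e : ∀ x, mv Φ (fun _ => 0) ((r ^ 2)⁻¹ * (τ - s)) (r⁻¹ • (x - X τ)) = mv Ψ X τ x := by
      intro x
      show Φ _ (r⁻¹ • (x - X τ) - 0) = Φ _ (r⁻¹ • (x - X τ))
      rw [sub_zero]
    simp only [e] at h1
    exact h1
  -- a slightly larger interval
  have hτ₁I : τ₁ ∈ Ioo (s - r ^ 2) s := hmap1 s' hs'.1
  have hτ₂I : τ₂ ∈ Ioo (s - r ^ 2) s := hmap1 t' ht'.1
  obtain ⟨α₁, ha1, ha2⟩ := exists_between (max_lt hα1 hτ₁I.1)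
  obtain ⟨β₁, hb1, hb2⟩ := exists_between (lt_min hβ1 hτ₂I.2)
  have ha3 : α' < α₁ := (le_max_left _ _).trans_lt ha1
  have ha4 : s - r ^ 2 < α₁ := (le_max_right _ _).trans_lt ha1
  have hb3 : β₁ < β' := hb2.trans_le (min_le_left _ _)
  have hb4 : β₁ < s := hb2.trans_le (min_le_right _ _)
  have hIab : Icc α₁ β₁ ⊆ Ioo α' β' := fun τ hτ => ⟨ha3.trans_le hτ.1, hτ.2.trans_lt hb3⟩
  obtain ⟨Bz, hBz⟩ := isCompact_Icc.exists_bound_of_continuousOn (hZ'c.mono hIab)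
  obtain ⟨K, hK⟩ := cross3 hT h hP hΨ hrρ hΨ0 ha3 hb3 (by linarith) (by linarith)
    (fun τ hτ => hZder τ (hIab hτ)) hBz
  have hsubI : G ∩ Ioo α₁ β₁ ⊆ G' := fun τ hτ =>
    ⟨⟨hτ.1, ha3.trans hτ.2.1, hτ.2.2.trans hb3⟩, ha4.trans hτ.2.1, hτ.2.2.trans hb4⟩
  obtain ⟨F, hF1, -, hF3⟩ := hA α₁ β₁ (G ∩ Ioo α₁ β₁) (cr u Ψ X Y) (fun t => |K| * K1 G u p t)
    (by linarith) inter_subset_right ((K1_int h).integrableOn.const_mul _)
    (fun t => mul_nonneg (abs_nonneg _) (K1_nn G u p t)) (fun σ hσ τ hτ hστ => by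
      rw [integral_const_mul]
      refine (hK σ hσ.1 (Ioo_subset_Icc_self hσ.2) τ hτ.1 (Ioo_subset_Icc_self hτ.2) hστ).trans ?_
      exact mul_le_mul_of_nonneg_right (le_abs_self _)
        (integral_nonneg fun t => K1_nn G u p t))
  have hsubc : Icc τ₁ τ₂ ⊆ Icc α₁ β₁ := Icc_subset_Icc ha2.le hb1.le
  obtain ⟨hFi, hFe⟩ := ftc_mod ((K1_int h).const_mul |K|) hle
    (fun σ hσ τ hτ hστ => hF3 σ (hsubc hσ) τ (hsubc hτ) hστ)
  have hF₁ : F τ₁ = cr u Ψ X Y τ₁ := hF1 τ₁ ⟨hτ₁G, ha2, hle.trans_lt hb1⟩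
  have hF₂ : F τ₂ = cr u Ψ X Y τ₂ := hF1 τ₂ ⟨hτ₂G, ha2.trans_le hle, hb1⟩
  -- its derivative
  have hdF : ∀ τ ∈ G, τ ∈ Ioo τ₁ τ₂ → deriv F τ =
      r⁻¹ * deriv Ev ((r ^ 2)⁻¹ * (τ - s)) - DD 1 u p (mv Ψ X) τ := by
    intro τ hτG hτ
    have hτI : τ ∈ G ∩ Ioo α₁ β₁ := ⟨hτG, ha2.trans hτ.1, hτ.2.trans hb1⟩
    have hnear : F =ᶠ[𝓝 τ] fun τ => r * Ev ((r ^ 2)⁻¹ * (τ - s)) - Eu τ := by
      filter_upwards [(h.openG.inter isOpen_Ioo).mem_nhds hτI] with σ hσ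
      rw [hF1 σ hσ, hcr σ (hsubI hσ)]
      ring
    rw [hnear.deriv_eq]
    have hτ' := hsubI hτI
    have h1 := hdv ((r ^ 2)⁻¹ * (τ - s)) ⟨hG'H τ hτ', hin τ (hG'ab hτ')⟩
    have h2 : HasDerivAt (fun τ : ℝ => (r ^ 2)⁻¹ * (τ - s)) ((r ^ 2)⁻¹) τ := by
      simpa using ((hasDerivAt_id τ).sub_const s).const_mul ((r ^ 2)⁻¹)
    have h3 := ((h1.comp τ h2).const_mul r).sub (hdu τ hτ')
    have h4 := h3.deriv
    rw [show (fun τ => r * Ev ((r ^ 2)⁻¹ * (τ - s)) - Eu τ) =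
      (fun y => r * (Ev ∘ fun τ => (r ^ 2)⁻¹ * (τ - s)) y) - Eu from rfl, h4]
    field_simp
  -- the density
  have hae : ∀ᵐ τ ∂(volume.restrict (Ioo τ₁ τ₂)), τ ∈ G ∧ τ ∈ Ioo τ₁ τ₂ := by
    filter_upwards [aeT h (h.subG hτ₁G).1.le (h.subG hτ₂G).2.le,
      ae_restrict_mem measurableSet_Ioo] with τ h1 h2
    exact ⟨h1, h2⟩
  have hDu : ∀ τ ∈ G, τ ∈ Ioo τ₁ τ₂ → ∫ x, edx u p Ψ τ (X τ) (Y τ) x =
      DD 1 u p (mv Ψ X) τ := by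
    intro τ hτG hτ
    have hτ' : τ ∈ G' := hsubI ⟨hτG, ha2.trans hτ.1, hτ.2.trans hb1⟩
    rw [DD_eq 1 hG'o hum hpm hmvs hRX0 hRX hτ']
    congr 1
    funext x
    exact (ed_mv hΨ (hG'ab hτ') (hZder τ (hG'ab hτ')) x).symm
  have hsum : ∀ᵐ τ ∂(volume.restrict (Ioo τ₁ τ₂)), deriv F τ +
      ∫ x, edx u p Ψ τ (X τ) (Y τ) x = r⁻¹ * deriv Ev ((r ^ 2)⁻¹ * (τ - s)) := by
    filter_upwards [hae] with τ hτ
    rw [hdF τ hτ.1 hτ.2, hDu τ hτ.1 hτ.2]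
    ring
  have hchg : ∫ t in Ioo s' t', deriv Ev t =
      (r ^ 2)⁻¹ * ∫ τ in Ioo τ₁ τ₂, deriv Ev ((r ^ 2)⁻¹ * (τ - s)) := by
    have h1 := chv hr2 s s' t' (fun τ => deriv Ev ((r ^ 2)⁻¹ * (τ - s)))
    simp only [hback] at h1
    exact h1
  have hint : (∫ τ in Ioo τ₁ τ₂, deriv F τ) +
      ∫ τ in Ioo τ₁ τ₂, ∫ x, edx u p Ψ τ (X τ) (Y τ) x =
      r⁻¹ * ∫ τ in Ioo τ₁ τ₂, deriv Ev ((r ^ 2)⁻¹ * (τ - s)) := by
    rw [← integral_add hFi hI1, ← integral_const_mul]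
    exact integral_congr_ae hsum
  have hτ₁G' : τ₁ ∈ G' := hsubI ⟨hτ₁G, ha2, hle.trans_lt hb1⟩
  have hτ₂G' : τ₂ ∈ G' := hsubI ⟨hτ₂G, ha2.trans_le hle, hb1⟩
  have hv1 := hcr τ₁ hτ₁G'
  have hv2 := hcr τ₂ hτ₂G'
  rw [hτ₁, hback] at hv1
  rw [hτ₂, hback] at hv2
  rw [← hτ₁] at hv1
  rw [← hτ₂] at hv2
  rw [hF₁, hF₂] at hFe
  have hfin : r * (Ev t' - Ev s') ≤
      (r⁻¹ * ∫ τ in Ioo τ₁ τ₂, deriv Ev ((r ^ 2)⁻¹ * (τ - s))) - LL G u p φ := by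
    rw [← hint, ← hFe]
    exact fin_ar hv2 hv1 hE1
  rw [hchg]
  have h5 : Ev t' - Ev s' = r⁻¹ * (r * (Ev t' - Ev s')) := by
    rw [← mul_assoc, inv_mul_cancel₀ hr.ne', one_mul]
  rw [h5]
  refine (mul_le_mul_of_nonneg_left hfin (by positivity)).trans (le_of_eq ?_)
  rw [mul_sub, ← mul_assoc]
  congr 2
  field_simp

end Pool.Agent.N976.EQ
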