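import Pool.Agent.N976.EQ.Asm0
import Pool.Agent.N976.EQ.K2
import Pool.Agent.N976.EQ.FinG

/-!
The assembly of the project EQ (helper976).
-/

set_option autoImplicit false

open MeasureTheory Set Metric
open scoped ContDiff ENNReal

namespace Pool.Agent.N976.EQ

open H459R3.NS W221.NS Pool.Agent.Y8 Pool.Agent.N977.H Pool.Agent.N976.TL Pool.Agent.Y96.NS

theorem p_K2 : S_K2 := t_K2 t_K1

section

variable {ν T E D : ℝ} {G : Set ℝ} {u : ℝ → V → V} {p : ℝ → V → ℝ} (hν : 0 < ν)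
  (hN : Turb ν T E D G u p) {h : ℝ → ℝ} {r₀ : ℝ} (hr₀ : 0 < r₀) (hpos : ∀ r ∈ Ioc 0 r₀, 0 < h r)
  (hmono : MonotoneOn (fun r => r / h r) (Ioc 0 r₀))
  (hlim : ∀ η > 0, ∀ ρ > 0, ∃ r ∈ Ioo 0 ρ,
    h r * (1 + Real.log (1 + |Real.log r|)) ^ 6 ≤ η * (r * Real.log r ^ 2))

include hν hN hr₀ hpos hmono hlim

theorem all_conc {ε : ℝ} (hε : 0 < ε) :
    ∃ U : Set (ℝ × V), IsOpen U ∧
      (∀ t ∈ Ioo 0 T, ∀ x : V, (SingPt G u t x → Tm ν h G u t x) → (t, x) ∈ U) ∧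
      ∀ ψ : ℝ → V → ℝ, Test T ψ → (∀ t x, 0 ≤ ψ t x) → (∀ t x, ψ t x ≤ 1) →
        tsupport (fun z : ℝ × V => ψ z.1 z.2) ⊆ U → ∫ t in G, DD ν u p ψ t ≤ ε :=
  fin_conc (p_Q9 p_K2) p_QT TL.t_D1 t_L0 (t_E3 t_E3a) hν hN hr₀ hpos hmono hlim hε

theorem all_loc {φ : ℝ → V → ℝ} (hφ : Test T φ) (hφ0 : ∀ t x, 0 ≤ φ t x)
    (hd : ∀ t x, (t, x) ∈ tsupport (fun z : ℝ × V => φ z.1 z.2) → SingPt G u t x →
      Tm ν h G u t x) :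
    ∫ t in G, DD ν u p φ t = 0 :=
  fin_locG (p_Q9 p_K2) p_QT TL.t_D1 t_L0 (t_E3 t_E3a) hν hN hr₀ hpos hmono hlim hφ hφ0 hd

theorem all_glob (hd : ∀ t ∈ Ioo 0 T, ∀ x, SingPt G u t x → Tm ν h G u t x) :
    ∀ s ∈ G, ∀ t ∈ G, s ≤ t →
      energy (u t) - energy (u s) = -(2 * ν) * ∫ τ in Ioo s t, enstrophy (u τ) :=
  fin_globG (p_Q9 p_K2) p_QT TL.t_D1 t_L0 (t_E3 t_E3a) t_E4 hν hN hr₀ hpos hmono hlim hd

end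

end Pool.Agent.N976.EQ
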