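import Pool.Agent.N976.EQ.Stm
import Pool.Agent.Y8.Path
import Pool.Agent.W583.MD.EN
import Pool.Agent.W496.MD.MOLL

/-!
EQ, part E3: the local energy equality near regular points.
-/

set_option autoImplicit false

open MeasureTheory Set Metric Filter Topology
open scoped ContDiff

namespace Pool.Agent.N976.EQ

open H459R3.NS W221.NS Pool.Agent.Y8

namespace E3

/-! ### The mollification of a scalar function -/

/-- the mollification -/
noncomputable def Mr (r : ℝ) (f : V → ℝ) (x : V) : ℝ := ∫ y, th y * f (x + r • y)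

section

variable {f g : V → ℝ} {r : ℝ} {x : V}

theorem th_int (hf : Continuous f) : Integrable (fun y => th y * f y) :=
  int_csR (th_sm.continuous.mul hf) (a := 0) (R := 1) fun z hz => by rw [th_z hz, zero_mul]

theorem Mr_int (hf : Continuous f) (r : ℝ) (x : V) : Integrable (fun y => th y * f (x + r • y)) :=
  th_int (f := fun y => f (x + r • y)) (hf.comp (by fun_prop))

theorem th_int1 : Integrable (fun y => th y) := by
  have := th_int (f := fun _ => (1 : ℝ)) continuous_const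
  simpa using this

theorem Mr_const (c : ℝ) : Mr r (fun _ => c) x = c := by
  unfold Mr
  rw [integral_mul_const, th_i1, one_mul]

theorem Mr_add (hf : Continuous f) (hg : Continuous g) :
    Mr r (fun z => f z + g z) x = Mr r f x + Mr r g x := by
  unfold Mr
  rw [← integral_add (Mr_int hf r x) (Mr_int hg r x)]
  congr 1
  funext y
  ring

theorem Mr_sub (hf : Continuous f) (hg : Continuous g) :
    Mr r (fun z => f z - g z) x = Mr r f x - Mr r g x := by
  unfold Mr
  rw [← integral_sub (Mr_int hf r x) (Mr_int hg r x)]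
  congr 1
  funext y
  ring

theorem Mr_cmul (c : ℝ) (f : V → ℝ) : Mr r (fun z => c * f z) x = c * Mr r f x := by
  unfold Mr
  rw [← integral_const_mul]
  congr 1
  funext y
  ring

theorem Mr_sum {ι : Type} (s : Finset ι) (F : ι → V → ℝ) (hF : ∀ i, Continuous (F i)) :
    Mr r (fun z => ∑ i ∈ s, F i z) x = ∑ i ∈ s, Mr r (F i) x := by
  unfold Mr
  rw [← integral_finsetSum _ fun i _ => Mr_int (hF i) r x]
  congr 1
  funext y
  rw [Finset.mul_sum]

theorem Mr_le (hf : Continuous f) (hg : Continuous g)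
    (h : ∀ y ∈ ball (0 : V) 1, f (x + r • y) ≤ g (x + r • y)) : Mr r f x ≤ Mr r g x := by
  refine integral_mono (Mr_int hf r x) (Mr_int hg r x) fun y => ?_
  by_cases hy : y ∈ ball (0 : V) 1
  · exact mul_le_mul_of_nonneg_left (h y hy) (th_nn y)
  · simp [th_z hy]

theorem Mr_nn (h : ∀ z, 0 ≤ f z) : 0 ≤ Mr r f x :=
  integral_nonneg fun y => mul_nonneg (th_nn y) (h _)

theorem Mr_abs (r : ℝ) (f : V → ℝ) (x : V) : |Mr r f x| ≤ Mr r (fun z => |f z|) x := by
  unfold Mr
  have h1 := norm_integral_le_integral_norm (μ := (volume : Measure V))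
    (fun y : V => th y * f (x + r • y))
  refine h1.trans (le_of_eq ?_)
  congr 1
  funext y
  rw [Real.norm_eq_abs, abs_mul, abs_of_nonneg (th_nn y)]

theorem Mr_bd (hf : Continuous f) {B : ℝ} (h : ∀ y ∈ ball (0 : V) 1, |f (x + r • y)| ≤ B) :
    |Mr r f x| ≤ B := by
  refine (Mr_abs r f x).trans ?_
  have h1 := Mr_le (f := fun z => |f z|) (g := fun _ => B) (r := r) (x := x) hf.abs
    continuous_const h
  rwa [Mr_const] at h1

theorem Mr_sq (hf : Continuous f) (r : ℝ) (x : V) :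
    Mr r f x ^ 2 ≤ Mr r (fun z => f z ^ 2) x := by
  obtain ⟨c, hc⟩ : ∃ c, c = Mr r f x := ⟨_, rfl⟩
  have h0 : 0 ≤ Mr r (fun z => f z ^ 2 + (-(2 * c) * f z + c ^ 2)) x := by
    refine Mr_nn fun z => ?_
    nlinarith [sq_nonneg (f z - c)]
  rw [Mr_add (f := fun z => f z ^ 2) (g := fun z => -(2 * c) * f z + c ^ 2) (hf.pow 2)
    ((continuous_const.mul hf).add continuous_const),
    Mr_add (f := fun z => -(2 * c) * f z) (g := fun _ => c ^ 2) (continuous_const.mul hf)
    continuous_const, Mr_cmul, Mr_const, ← hc] at h0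
  rw [← hc]
  nlinarith

theorem Mr_joint (hf : ContDiff ℝ ∞ f) (r : ℝ) : ContDiff ℝ ∞ (Mr r f) := by
  obtain ⟨w, hw⟩ : ∃ w : ℝ → V → V, w = fun _ x _ => f x := ⟨_, rfl⟩
  have h1 : ContDiffOn ℝ ∞ (fun z : ℝ × V => w z.1 z.2) ((univ : Set ℝ) ×ˢ univ) := by
    rw [hw]
    refine (contDiff_pi.2 fun i => ?_).contDiffOn
    exact hf.comp contDiff_snd
  have h2 := sl_sm (F := fun t : ℝ => mo r (w t)) (mol_joint isOpen_univ h1 r)
    (mem_univ (0 : ℝ))
  rw [hw] at h2
  exact contDiff_pi.1 h2 0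

theorem Mr_pd (hf : ContDiff ℝ ∞ f) (r : ℝ) (j : Fin 3) : pd j (Mr r f) = Mr r (pd j f) :=
  funext fun x => W496.MD.pd_moll hf r x j

theorem Mr_tendsto (hf : Continuous f) (x : V) {ρ : ℕ → ℝ} (hρ : Tendsto ρ atTop (𝓝 0))
    (hρ1 : ∀ n, |ρ n| ≤ 1) : Tendsto (fun n => Mr (ρ n) f x) atTop (𝓝 (f x)) := by
  obtain ⟨C, hC⟩ := (isCompact_closedBall x 1).exists_bound_of_continuousOn hf.continuousOn
  have h1 : Tendsto (fun n => ∫ y, th y * f (x + ρ n • y)) atTop (𝓝 (∫ y, th y * f x)) := by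
    refine tendsto_integral_of_dominated_convergence (fun y => th y * C) (fun n => ?_)
      (th_int1.mul_const C) (fun n => ?_) ?_
    · exact (Mr_int hf (ρ n) x).aestronglyMeasurable
    · refine ae_of_all _ fun y => ?_
      rw [norm_mul, Real.norm_of_nonneg (th_nn y)]
      by_cases hy : y ∈ ball (0 : V) 1
      · refine mul_le_mul_of_nonneg_left (hC _ ?_) (th_nn y)
        rw [mem_closedBall, dist_eq_norm, add_sub_cancel_left, norm_smul, Real.norm_eq_abs]
        have h2 : ‖y‖ ≤ 1 := by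
          rw [mem_ball, dist_zero_right] at hy
          exact hy.le
        calc |ρ n| * ‖y‖ ≤ 1 * 1 := mul_le_mul (hρ1 n) h2 (norm_nonneg _) zero_le_one
          _ = 1 := one_mul 1
      · rw [th_z hy, zero_mul, zero_mul]
    · refine ae_of_all _ fun y => ?_
      refine Tendsto.const_mul _ ?_
      have h3 : Tendsto (fun n => x + ρ n • y) atTop (𝓝 (x + (0 : ℝ) • y)) :=
        tendsto_const_nhds.add (hρ.smul_const y)
      rw [zero_smul, add_zero] at h3
      exact (hf.tendsto x).comp h3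
  rw [integral_mul_const, th_i1, one_mul] at h1
  exact h1

end

/-! ### Integrals over balls -/

theorem ball_shift (f : V → ℝ) (a c : V) (R : ℝ) :
    ∫ x in ball a R, f (x + c) = ∫ x in ball (a + c) R, f x := by
  rw [← integral_indicator measurableSet_ball, ← integral_indicator measurableSet_ball,
    ← integral_add_right_eq_self (fun x => (ball (a + c) R).indicator f x) c]
  congr 1
  funext x
  by_cases h : x ∈ ball a R
  · have h' : x + c ∈ ball (a + c) R := by
      rw [mem_ball, dist_add_right]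
      exact h
    rw [indicator_of_mem h, indicator_of_mem h']
  · have h' : x + c ∉ ball (a + c) R := by
      rw [mem_ball, dist_add_right]
      exact h
    rw [indicator_of_notMem h, indicator_of_notMem h']

theorem Mr_ball (R : ℝ) : ∃ C : ℝ, 0 < C ∧ ∀ f : V → ℝ, Continuous f → Per f → (∀ y, 0 ≤ f y) →
    ∀ (r : ℝ) (a : V), IntegrableOn (Mr r f) (ball a R) ∧
      ∫ x in ball a R, Mr r f x ≤ C * ∫ y in cube, f y := by
  obtain ⟨C, hC, h⟩ := ball_le R
  refine ⟨C, hC, fun f hf hp h0 r a => ?_⟩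
  have hcomp : IsCompact (closedBall a R ×ˢ closedBall (0 : V) 1) :=
    (isCompact_closedBall a R).prod (isCompact_closedBall 0 1)
  obtain ⟨B, hB⟩ := hcomp.exists_bound_of_continuousOn
    (f := fun q : V × V => f (q.1 + r • q.2)) (hf.comp (by fun_prop)).continuousOn
  have hprod : ((volume : Measure V).restrict (ball a R)).prod (volume : Measure V) =
      ((volume : Measure V).prod (volume : Measure V)).restrict (ball a R ×ˢ univ) := by
    rw [← Measure.prod_restrict, Measure.restrict_univ]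
  have hI : Integrable (Function.uncurry fun (x y : V) => th y * f (x + r • y))
      (((volume : Measure V).restrict (ball a R)).prod (volume : Measure V)) := by
    have hg : Integrable (fun z : V × V => B * th z.2)
        (((volume : Measure V).restrict (ball a R)).prod (volume : Measure V)) :=
      Integrable.mul_prod (f := fun _ : V => B) (g := fun y : V => th y)
        (integrableOn_const (measure_ball_lt_top.ne)) th_int1
    refine Integrable.mono' hg ?_ ?_
    · have : Continuous (Function.uncurry fun (x y : V) => th y * f (x + r • y)) :=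
        (th_sm.continuous.comp continuous_snd).mul (hf.comp (by fun_prop))
      exact this.aestronglyMeasurable
    · rw [hprod, ae_restrict_iff' (measurableSet_ball.prod MeasurableSet.univ)]
      refine ae_of_all _ fun z hz => ?_
      show ‖th z.2 * f (z.1 + r • z.2)‖ ≤ B * th z.2
      rw [norm_mul, Real.norm_of_nonneg (th_nn z.2), mul_comm]
      by_cases hy : z.2 ∈ ball (0 : V) 1
      · exact mul_le_mul_of_nonneg_right (hB z ⟨ball_subset_closedBall hz.1,
          ball_subset_closedBall hy⟩) (th_nn z.2)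
      · rw [th_z hy, mul_zero, mul_zero]
  refine ⟨hI.integral_prod_left, ?_⟩
  have hsw : ∫ x in ball a R, Mr r f x = ∫ y, ∫ x in ball a R, th y * f (x + r • y) :=
    integral_integral_swap hI
  rw [hsw]
  have h1 : ∀ y : V, ∫ x in ball a R, th y * f (x + r • y) ≤ th y * (C * ∫ z in cube, f z) := by
    intro y
    rw [integral_const_mul, ball_shift]
    exact mul_le_mul_of_nonneg_left (h f hf hp h0 _) (th_nn y)
  calc ∫ y, ∫ x in ball a R, th y * f (x + r • y) ≤ ∫ y, th y * (C * ∫ z in cube, f z) :=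
        integral_mono hI.integral_prod_right (th_int1.mul_const _) h1
    _ = C * ∫ z in cube, f z := by rw [integral_mul_const, th_i1, one_mul]

/-! ### The energy identity at one time -/

/-- the main part of the energy density -/
noncomputable def Ed (w : V → V) (π φ dφ : V → ℝ) (x : V) : ℝ :=
  -2 * (gsq w x * φ x) + nsq w x * (dφ x + lap φ x) + (nsq w x + 2 * π x) * adv w φ x

/-- the remainder -/
noncomputable def Rm (w : V → V) (N : Fin 3 → V → ℝ) (φ : V → ℝ) (x : V) : ℝ :=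
  (∑ i, 2 * w x i * ((∑ j, w x j * pd j (fun y => w y i) x) - N i x)) * φ x

theorem core {w : V → V} {π φ dφ : V → ℝ} {N : Fin 3 → V → ℝ} (hw : ContDiff ℝ ∞ w)
    (hπ : ContDiff ℝ ∞ π) (hφ : ContDiff ℝ ∞ φ) (hdφ : Continuous dφ)
    (hN : ∀ i, Continuous (N i)) {R : ℝ} (hs : ∀ z ∉ ball (0 : V) R, φ z = 0)
    (hs' : ∀ z ∉ ball (0 : V) R, dφ z = 0) (hdiv : ∀ x, ∑ i, pd i (fun y => w y i) x = 0) :
    ∫ x, ((∑ i, 2 * w x i * (∑ j, pd j (pd j (fun y => w y i)) x - pd i π x - N i x)) * φ x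
      + (∑ i, w x i ^ 2) * dφ x) = ∫ x, (Ed w π φ dφ x + Rm w N φ x) := by
  have hwi : ∀ i, ContDiff ℝ ∞ (fun y => w y i) := fun i => contDiff_pi.1 hw i
  have hZ := Pool.Agent.W583.MD.Z_main (w := fun i y => w y i) hwi hπ hφ (hcsR hs)
  have hL : Integrable fun x => ((∑ i, 2 * w x i * (∑ j, pd j (pd j (fun y => w y i)) x
      - pd i π x - N i x)) * φ x + (∑ i, w x i ^ 2) * dφ x) := by
    refine int_csR ?_ (a := 0) (R := R) fun z hz => by rw [hs z hz, hs' z hz]; ring
    refine Continuous.add (Continuous.mul ?_ hφ.continuous) (Continuous.mul ?_ hdφ)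
    · refine continuous_finsetSum _ fun i _ => ?_
      refine (continuous_const.mul (hwi i).continuous).mul ?_
      refine Continuous.sub (Continuous.sub ?_ ?_) (hN i)
      · exact continuous_finsetSum _ fun j _ => (Pool.Agent.W583.MD.sm_pd
          (Pool.Agent.W583.MD.sm_pd (hwi i) j) j).continuous
      · exact (Pool.Agent.W583.MD.sm_pd hπ i).continuous
    · exact continuous_finsetSum _ fun i _ => (hwi i).continuous.pow 2
  have e : ∀ x, Ed w π φ dφ x + Rm w N φ x =
      ((∑ i, 2 * w x i * (∑ j, pd j (pd j (fun y => w y i)) x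
      - pd i π x - N i x)) * φ x + (∑ i, w x i ^ 2) * dφ x) -
      (∑ j, ((∑ i, (2 * pd j (fun y => w y i * pd j (fun y => w y i) y * φ y) x
      - pd j (fun y => w y i * w y i * pd j φ y) x
      - pd j (fun y => w y j * (w y i * w y i) * φ y) x))
      - 2 * pd j (fun y => π y * w y j * φ y) x)) := by
    intro x
    rw [Pool.Agent.W583.MD.point (w := fun i y => w y i) hwi hπ hφ x (hdiv x)]
    unfold Ed Rm nsq gsq adv lap
    simp only [Fin.sum_univ_three]
    ring
  have e' : (fun x => Ed w π φ dφ x + Rm w N φ x) = _ := funext e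
  rw [e', integral_sub hL hZ.1, hZ.2, sub_zero]

/-! ### The test function -/

section

variable {φ : ℝ → V → ℝ}

theorem off {t : ℝ} {x : V} (h : (t, x) ∉ tsupport (fun z : ℝ × V => φ z.1 z.2)) :
    φ t x = 0 ∧ deriv (fun s => φ s x) t = 0 ∧ (∀ j, pd j (φ t) x = 0) ∧ lap (φ t) x = 0 := by
  have h1 : ∀ᶠ z in 𝓝 ((t, x) : ℝ × V), φ z.1 z.2 = 0 := notMem_tsupport_iff_eventuallyEq.1 h
  have h2 : ∀ᶠ s in 𝓝 t, φ s x = 0 :=
    (show Continuous fun s : ℝ => ((s, x) : ℝ × V) by fun_prop).tendsto t |>.eventually h1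
  have h3 : ∀ᶠ y in 𝓝 x, φ t y = 0 :=
    (show Continuous fun y : V => ((t, y) : ℝ × V) by fun_prop).tendsto x |>.eventually h1
  have h4 : ∀ j, ∀ᶠ y in 𝓝 x, pd j (φ t) y = 0 := by
    intro j
    filter_upwards [h3.eventually_nhds] with y hy
    have h5 : φ t =ᶠ[𝓝 y] fun _ => 0 := hy
    unfold pd
    rw [h5.fderiv_eq]
    simp
  refine ⟨h1.self_of_nhds, ?_, fun j => (h4 j).self_of_nhds, ?_⟩
  · have h5 : (fun s => φ s x) =ᶠ[𝓝 t] fun _ => 0 := h2
    rw [h5.deriv_eq]
    exact deriv_const t 0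
  · unfold lap
    refine Finset.sum_eq_zero fun j _ => ?_
    have h5 : pd j (φ t) =ᶠ[𝓝 x] fun _ => 0 := h4 j
    rw [show pd j (pd j (φ t)) x = fderiv ℝ (pd j (φ t)) x (Pi.single j 1) from rfl,
      h5.fderiv_eq]
    simp

end

/-- Uniform regularity near a compact set of regular points. -/
theorem reg {G : Set ℝ} {u : ℝ → V → V} {K : Set (ℝ × V)} (hK : IsCompact K)
    (h : ∀ z ∈ K, ¬SingPt G u z.1 z.2) : ∃ δ > 0, ∃ B : ℝ, 0 ≤ B ∧ ∀ z ∈ K, z.1 ∈ G →
      ∀ y, ‖y - z.2‖ < δ → ∀ i, |u z.1 y i| ≤ B := by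
  have key : ∃ δ > 0, ∃ B : ℝ, 0 ≤ B ∧ ∀ z ∈ K, ∀ s ∈ G, |s - z.1| < δ →
      ∀ y ∈ ball z.2 δ, ‖u s y‖ ≤ B := by
    refine hK.induction_on (p := fun S => ∃ δ > 0, ∃ B : ℝ, 0 ≤ B ∧ ∀ z ∈ S, ∀ s ∈ G,
      |s - z.1| < δ → ∀ y ∈ ball z.2 δ, ‖u s y‖ ≤ B) ?_ ?_ ?_ ?_
    · exact ⟨1, one_pos, 0, le_rfl, fun z hz => absurd hz (by simp)⟩
    · rintro S S' hSS ⟨δ, hδ, B, hB, h1⟩
      exact ⟨δ, hδ, B, hB, fun z hz => h1 z (hSS hz)⟩
    · rintro S S' ⟨δ, hδ, B, hB, h1⟩ ⟨δ', hδ', B', hB', h1'⟩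
      refine ⟨min δ δ', lt_min hδ hδ', max B B', hB.trans (le_max_left _ _), ?_⟩
      rintro z (hz | hz) s hs hsz y hy
      · exact (h1 z hz s hs (hsz.trans_le (min_le_left _ _)) y
          (ball_subset_ball (min_le_left _ _) hy)).trans (le_max_left _ _)
      · exact (h1' z hz s hs (hsz.trans_le (min_le_right _ _)) y
          (ball_subset_ball (min_le_right _ _) hy)).trans (le_max_right _ _)
    · intro z hz
      have h1 := h z hz
      unfold SingPt at h1
      push Not at h1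
      obtain ⟨δ, hδ, B, h2⟩ := h1
      refine ⟨ball z (δ / 2), mem_nhdsWithin_of_mem_nhds (ball_mem_nhds z (by linarith)),
        δ / 2, by linarith, max B 0, le_max_right _ _, ?_⟩
      intro w hw s hs hsw y hy
      rw [mem_ball, Prod.dist_eq, max_lt_iff, Real.dist_eq] at hw
      refine (h2 s hs ?_ y ?_).trans (le_max_left _ _)
      · have : s - z.1 = (s - w.1) + (w.1 - z.1) := by ring
        rw [this]
        exact (abs_add_le _ _).trans_lt (by linarith [hw.1])
      · rw [mem_ball] at hy ⊢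
        exact (dist_triangle y w.2 z.2).trans_lt (by linarith [hw.2])
  obtain ⟨δ, hδ, B, hB, h1⟩ := key
  refine ⟨δ, hδ, B, hB, fun z hz hzG y hy i => ?_⟩
  have h2 := h1 z hz z.1 hzG (by rw [sub_self, abs_zero]; exact hδ) y
    (by rw [mem_ball, dist_eq_norm]; exact hy)
  exact (Real.norm_eq_abs (u z.1 y i) ▸ norm_le_pi_norm (u z.1 y) i).trans h2

/-! ### The mollified equation -/

section

variable {T E D : ℝ} {G : Set ℝ} {u : ℝ → V → V} {p : ℝ → V → ℝ}

theorem mo_dt (h : Turb 1 T E D G u p) {t : ℝ} (ht : t ∈ G) (r : ℝ) (x : V) (i : Fin 3) :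
    deriv (fun s => mo r (u s) x i) t = Mr r (fun z => deriv (fun s => u s z i) t) x := by
  obtain ⟨α, β, hαβ, hsub⟩ := nb h.openG ht
  have hui : ContDiffOn ℝ ∞ (fun z : ℝ × V => u z.1 z.2 i) (G ×ˢ univ) :=
    comp_joint h.smooth_u i
  have hF : ContDiffOn ℝ ∞ (fun z : ℝ × V => th z.2 * u z.1 (x + r • z.2) i)
      (Ioo α β ×ˢ univ) := by
    refine (th_sm.comp contDiff_snd).contDiffOn.mul ?_
    have h2 : ContDiff ℝ ∞ (fun z : ℝ × V => ((z.1, x + r • z.2) : ℝ × V)) := by fun_prop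
    exact hui.comp h2.contDiffOn fun z hz => ⟨hsub hz.1, mem_univ _⟩
  have h1 := Pool.Agent.W583.MD.hd_int (F := fun s y => th y * u s (x + r • y) i) hF
    (fun s _ z hz => by rw [th_z hz, zero_mul]) hαβ
  have h2 := h1.deriv
  have e1 : (fun s => mo r (u s) x i) = fun s => ∫ y, th y * u s (x + r • y) i := rfl
  rw [e1, h2]
  unfold Mr
  congr 1
  funext y
  exact deriv_const_mul_field _

theorem mo_eqn (h : Turb 1 T E D G u p) {t : ℝ} (ht : t ∈ G) (r : ℝ) (x : V) (i : Fin 3) :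
    deriv (fun s => mo r (u s) x i) t =
      ∑ j, pd j (pd j (fun y => mo r (u t) y i)) x - pd i (Mr r (p t)) x
        - Mr r (fun z => ∑ j, u t z j * pd j (fun y => u t y i) z) x := by
  have hus := sl_sm h.smooth_u ht
  have hps := sl_sm h.smooth_p ht
  have hui : ∀ i, ContDiff ℝ ∞ (fun y => u t y i) := fun i => contDiff_pi.1 hus i
  rw [mo_dt h ht]
  have e1 : (fun z => deriv (fun s => u s z i) t) = fun z =>
      ((∑ j, pd j (pd j (fun y => u t y i)) z) - pd i (p t) z) -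
        ∑ j, u t z j * pd j (fun y => u t y i) z := by
    funext z
    have := h.momentum t ht z i
    linarith
  have c1 : ∀ j, Continuous (pd j (pd j (fun y => u t y i))) := fun j =>
    (Pool.Agent.W583.MD.sm_pd (Pool.Agent.W583.MD.sm_pd (hui i) j) j).continuous
  have c2 : Continuous (pd i (p t)) := (Pool.Agent.W583.MD.sm_pd hps i).continuous
  have c3 : Continuous (fun z => ∑ j, u t z j * pd j (fun y => u t y i) z) :=
    continuous_finsetSum _ fun j _ =>
      (hui j).continuous.mul (Pool.Agent.W583.MD.sm_pd (hui i) j).continuous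
  have c4 : Continuous (fun z => ∑ j, pd j (pd j (fun y => u t y i)) z) :=
    continuous_finsetSum _ fun j _ => c1 j
  have c5 : Continuous (fun z => (∑ j, pd j (pd j (fun y => u t y i)) z) - pd i (p t) z) :=
    c4.sub c2
  rw [e1, Mr_sub c5 c3, Mr_sub c4 c2, Mr_sum _ _ c1, Mr_pd hps]
  have e3 : ∀ a b c d : ℝ, a = b → a - c - d = b - c - d := fun a b c d h => by rw [h]
  refine e3 _ _ _ _ (Finset.sum_congr rfl fun j _ => ?_)
  have e2 : (fun y => mo r (u t) y i) = Mr r (fun y => u t y i) := rfl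
  rw [e2, Mr_pd (hui i), Mr_pd (Pool.Agent.W583.MD.sm_pd (hui i) j)]

theorem mo_div (h : Turb 1 T E D G u p) {t : ℝ} (ht : t ∈ G) (r : ℝ) (x : V) :
    ∑ i, pd i (fun y => mo r (u t) y i) x = 0 := by
  have hus := sl_sm h.smooth_u ht
  have hui : ∀ i, ContDiff ℝ ∞ (fun y => u t y i) := fun i => contDiff_pi.1 hus i
  have e1 : ∀ i, pd i (fun y => mo r (u t) y i) x = Mr r (pd i (fun y => u t y i)) x := by
    intro i
    have e2 : (fun y => mo r (u t) y i) = Mr r (fun y => u t y i) := rfl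
    rw [e2, Mr_pd (hui i)]
  simp only [e1]
  rw [← Mr_sum _ _ fun i => (Pool.Agent.W583.MD.sm_pd (hui i) i).continuous]
  have e3 : (fun z => ∑ i, pd i (fun y => u t y i) z) = fun _ => 0 :=
    funext fun z => h.divfree t ht z
  rw [e3, Mr_const]

/-- the density of the mollified identity -/
noncomputable def JJ (r : ℝ) (u : ℝ → V → V) (φ : ℝ → V → ℝ) (t : ℝ) (x : V) : ℝ :=
  (∑ i, 2 * mo r (u t) x i * deriv (fun s => mo r (u s) x i) t) * φ t x
    + (∑ i, mo r (u t) x i ^ 2) * deriv (fun s => φ s x) t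

/-- the rewritten identity -/
theorem JJ_eq (h : Turb 1 T E D G u p) {φ : ℝ → V → ℝ} (hφ : Test T φ) {R : ℝ}
    (hs : ∀ t, ∀ z ∉ ball (0 : V) R, φ t z = 0) {t : ℝ} (ht : t ∈ G) (r : ℝ) :
    ∫ x, JJ r u φ t x = ∫ x, (Ed (mo r (u t)) (Mr r (p t)) (φ t) (fun x => deriv (fun s => φ s x) t) x
      + Rm (mo r (u t)) (fun i => Mr r (fun z => ∑ j, u t z j * pd j (fun y => u t y i) z))
        (φ t) x) := by
  have hus := sl_sm h.smooth_u ht
  have hps := sl_sm h.smooth_p ht
  have hφO : ContDiffOn ℝ ∞ (fun z : ℝ × V => φ z.1 z.2) (univ ×ˢ univ) := hφ.smooth.contDiffOn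
  have hui : ∀ i, ContDiff ℝ ∞ (fun y => u t y i) := fun i => contDiff_pi.1 hus i
  have hms : ContDiff ℝ ∞ (mo r (u t)) := sl_sm (F := fun t => mo r (u t))
    (mol_joint h.openG h.smooth_u r) ht
  have hdc : Continuous (fun x => deriv (fun s => φ s x) t) :=
    sl_ct (F := fun t x => deriv (fun s => φ s x) t) (dt_joint isOpen_univ hφO).continuousOn
      (mem_univ t)
  have key := core (w := mo r (u t)) (π := Mr r (p t)) (φ := φ t)
    (dφ := fun x => deriv (fun s => φ s x) t)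
    (N := fun i => Mr r (fun z => ∑ j, u t z j * pd j (fun y => u t y i) z)) (R := R)
    hms (Mr_joint hps r) (sl_sm hφO (mem_univ t)) hdc (fun i => ?_) (hs t)
    (fun z hz => dt_zero' isOpen_univ (fun t _ => hs t) (mem_univ t) hz) (mo_div h ht r)
  · rw [← key]
    congr 1
    funext x
    unfold JJ
    congr 2
    exact Finset.sum_congr rfl fun i _ => by rw [mo_eqn h ht]
  · have : ContDiff ℝ ∞ (fun z => ∑ j, u t z j * pd j (fun y => u t y i) z) :=
      ContDiff.sum fun j _ => (hui j).mul (Pool.Agent.W583.MD.sm_pd (hui i) j)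
    exact (Mr_joint this r).continuous

/-- the pointwise bound -/
theorem point_bd {w : V → V} {q : V → ℝ} (hw : ContDiff ℝ ∞ w) (hq : Continuous q)
    {φ dφ : V → ℝ} {B M r : ℝ} {x : V} (hB : 0 ≤ B) (hM : 0 ≤ M)
    (hb : ∀ y ∈ ball (0 : V) 1, ∀ i, |w (x + r • y) i| ≤ B) (h0 : |φ x| ≤ M) (h1 : |dφ x| ≤ M)
    (h2 : |lap φ x| ≤ M) (h3 : ∀ j, |pd j φ x| ≤ M) :
    |Ed (mo r w) (Mr r q) φ dφ x
      + Rm (mo r w) (fun i => Mr r (fun z => ∑ j, w z j * pd j (fun y => w y i) z)) φ x| ≤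
      (36 * B ^ 2 * M + 12 * B ^ 2 * M + 2 * M + 6 * B ^ 2 * M + 9 * B ^ 3 * M + 12 * B * M)
        * (1 + Mr r (gsq w) x + Mr r (fun z => |q z| ^ (3 / 2 : ℝ)) x) := by
  have hwi : ∀ i, ContDiff ℝ ∞ (fun y => w y i) := fun i => contDiff_pi.1 hw i
  have hgc : Continuous (gsq w) := (gsq_sm hw).continuous
  obtain ⟨S, hS⟩ : ∃ S, S = Mr r (gsq w) x := ⟨_, rfl⟩
  obtain ⟨Q, hQ⟩ : ∃ Q, Q = Mr r (fun z => |q z| ^ (3 / 2 : ℝ)) x := ⟨_, rfl⟩
  have hS0 : 0 ≤ S := by rw [hS]; exact Mr_nn fun z => gsq_nn w z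
  have hQ0 : 0 ≤ Q := by rw [hQ]; exact Mr_nn fun z => by positivity
  rw [← hS, ← hQ]
  -- the components
  have hm : ∀ i, |mo r w x i| ≤ B := fun i =>
    Mr_bd (f := fun y => w y i) (hwi i).continuous fun y hy => hb y hy i
  have hpd : ∀ i j, pd j (fun y => mo r w y i) x = Mr r (pd j (fun y => w y i)) x := by
    intro i j
    have e2 : (fun y => mo r w y i) = Mr r (fun y => w y i) := rfl
    rw [e2, Mr_pd (hwi i)]
  have hpc : ∀ i j, Continuous (pd j (fun y => w y i)) := fun i j =>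
    (Pool.Agent.W583.MD.sm_pd (hwi i) j).continuous
  have hgs : gsq (mo r w) x ≤ S := by
    unfold gsq
    have e1 : S = ∑ i, ∑ j, Mr r (fun z => pd j (fun y => w y i) z ^ 2) x := by
      rw [hS]
      have e2 : gsq w = fun z => ∑ i, ∑ j, pd j (fun y => w y i) z ^ 2 := rfl
      rw [e2, Mr_sum _ (fun i z => ∑ j, pd j (fun y => w y i) z ^ 2)
        fun i => continuous_finsetSum _ fun j _ => (hpc i j).pow 2]
      exact Finset.sum_congr rfl fun i _ => Mr_sum _ (fun j z => pd j (fun y => w y i) z ^ 2)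
        fun j => (hpc i j).pow 2
    rw [e1]
    refine Finset.sum_le_sum fun i _ => Finset.sum_le_sum fun j _ => ?_
    rw [hpd]
    exact Mr_sq (hpc i j) r x
  have hg0 : 0 ≤ gsq (mo r w) x := gsq_nn _ x
  have hn0 : 0 ≤ nsq (mo r w) x := nsq_nn _ x
  have hn : nsq (mo r w) x ≤ 3 * B ^ 2 := by
    unfold nsq
    have : ∀ i ∈ (Finset.univ : Finset (Fin 3)), mo r w x i ^ 2 ≤ B ^ 2 := fun i _ => by
      rw [← sq_abs]
      exact pow_le_pow_left₀ (abs_nonneg _) (hm i) 2
    refine (Finset.sum_le_sum this).trans (le_of_eq ?_)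
    simp
  have hπ : |Mr r q x| ≤ 1 + Q := by
    refine (Mr_abs r q x).trans ?_
    have hc : Continuous fun z => |q z| ^ (3 / 2 : ℝ) :=
      hq.abs.rpow_const fun _ => Or.inr (by norm_num)
    have h4 := Mr_le (f := fun z => |q z|) (g := fun z => 1 + |q z| ^ (3 / 2 : ℝ)) (r := r)
      (x := x) hq.abs (continuous_const.add hc) fun y _ => by
        rcases le_total (|q (x + r • y)|) 1 with h5 | h5
        · have : 0 ≤ |q (x + r • y)| ^ (3 / 2 : ℝ) := by positivity
          linarith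
        · have : |q (x + r • y)| ^ (1 : ℝ) ≤ |q (x + r • y)| ^ (3 / 2 : ℝ) :=
            Real.rpow_le_rpow_of_exponent_le h5 (by norm_num)
          rw [Real.rpow_one] at this
          linarith
    rwa [Mr_add continuous_const hc, Mr_const, ← hQ] at h4
  have hadv : |adv (mo r w) φ x| ≤ 3 * (B * M) := by
    unfold adv
    refine (Finset.abs_sum_le_sum_abs _ _).trans ?_
    have : ∀ j ∈ (Finset.univ : Finset (Fin 3)), |mo r w x j * pd j φ x| ≤ B * M := fun j _ => by
      rw [abs_mul]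
      exact mul_le_mul (hm j) (h3 j) (abs_nonneg _) hB
    refine (Finset.sum_le_sum this).trans (le_of_eq ?_)
    simp
  -- the nonlinear terms
  have habs : ∀ a : ℝ, |a| ≤ 1 + a ^ 2 := fun a => by
    rw [← sq_abs]
    nlinarith [sq_nonneg (|a| - 1), abs_nonneg a]
  have hN : ∀ i, |Mr r (fun z => ∑ j, w z j * pd j (fun y => w y i) z) x| ≤ B * (3 + S) := by
    intro i
    refine (Mr_abs r _ x).trans ?_
    have hc1 : Continuous (fun z => ∑ j, w z j * pd j (fun y => w y i) z) :=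
      continuous_finsetSum _ fun j _ => (hwi j).continuous.mul (hpc i j)
    have h4 := Mr_le (f := fun z => |∑ j, w z j * pd j (fun y => w y i) z|)
      (g := fun z => B * (3 + gsq w z)) (r := r) (x := x) hc1.abs
      (continuous_const.mul (continuous_const.add hgc)) fun y hy => by
        refine (Finset.abs_sum_le_sum_abs _ _).trans ?_
        have h5 : ∀ j ∈ (Finset.univ : Finset (Fin 3)), |w (x + r • y) j *
            pd j (fun y => w y i) (x + r • y)| ≤
            B * (1 + pd j (fun y => w y i) (x + r • y) ^ 2) := fun j _ => by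
          rw [abs_mul]
          exact mul_le_mul (hb y hy j) (habs _) (abs_nonneg _) hB
        refine (Finset.sum_le_sum h5).trans ?_
        rw [← Finset.mul_sum, Finset.sum_add_distrib]
        refine mul_le_mul_of_nonneg_left ?_ hB
        have h6 : ∑ j, pd j (fun y => w y i) (x + r • y) ^ 2 ≤ gsq w (x + r • y) :=
          Finset.single_le_sum (f := fun i => ∑ j, pd j (fun y => w y i) (x + r • y) ^ 2)
            (fun i _ => Finset.sum_nonneg fun _ _ => sq_nonneg _) (Finset.mem_univ i)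
        have h7 : ∑ _j : Fin 3, (1 : ℝ) = 3 := by simp
        rw [h7]
        linarith
    refine h4.trans (le_of_eq ?_)
    rw [Mr_cmul, Mr_add continuous_const hgc, Mr_const, ← hS]
  have hN2 : ∀ i, |∑ j, mo r w x j * pd j (fun y => mo r w y i) x| ≤ B * (3 + S) := by
    intro i
    refine (Finset.abs_sum_le_sum_abs _ _).trans ?_
    have h5 : ∀ j ∈ (Finset.univ : Finset (Fin 3)), |mo r w x j *
        pd j (fun y => mo r w y i) x| ≤ B * (1 + pd j (fun y => mo r w y i) x ^ 2) := fun j _ => by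
      rw [abs_mul]
      exact mul_le_mul (hm j) (habs _) (abs_nonneg _) hB
    refine (Finset.sum_le_sum h5).trans ?_
    rw [← Finset.mul_sum, Finset.sum_add_distrib]
    refine mul_le_mul_of_nonneg_left ?_ hB
    have h6 : ∑ j, pd j (fun y => mo r w y i) x ^ 2 ≤ gsq (mo r w) x :=
      Finset.single_le_sum (f := fun i => ∑ j, pd j (fun y => mo r w y i) x ^ 2)
        (fun i _ => Finset.sum_nonneg fun _ _ => sq_nonneg _) (Finset.mem_univ i)
    have h7 : ∑ _j : Fin 3, (1 : ℝ) = 3 := by simp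
    rw [h7]
    linarith
  -- the bounds of the terms
  have a1 : |-2 * (gsq (mo r w) x * φ x)| ≤ 2 * (S * M) := by
    rw [abs_mul, abs_mul, abs_of_nonneg hg0]
    have : gsq (mo r w) x * |φ x| ≤ S * M := mul_le_mul hgs h0 (abs_nonneg _) hS0
    norm_num
    exact this
  have a2 : |nsq (mo r w) x * (dφ x + lap φ x)| ≤ 3 * B ^ 2 * (2 * M) := by
    rw [abs_mul, abs_of_nonneg hn0]
    refine mul_le_mul hn ?_ (abs_nonneg _) (by positivity)
    exact (abs_add_le _ _).trans (by linarith)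
  have a3 : |(nsq (mo r w) x + 2 * Mr r q x) * adv (mo r w) φ x| ≤
      (3 * B ^ 2 + 2 * (1 + Q)) * (3 * (B * M)) := by
    rw [abs_mul]
    refine mul_le_mul ?_ hadv (abs_nonneg _) (by positivity)
    refine (abs_add_le _ _).trans ?_
    rw [abs_of_nonneg hn0, abs_mul]
    norm_num
    linarith
  have a4 : |Rm (mo r w) (fun i => Mr r (fun z => ∑ j, w z j * pd j (fun y => w y i) z)) φ x| ≤
      (3 * (2 * B * (2 * (B * (3 + S))))) * M := by
    unfold Rm
    rw [abs_mul]
    refine mul_le_mul ?_ h0 (abs_nonneg _) (by positivity)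
    refine (Finset.abs_sum_le_sum_abs _ _).trans ?_
    have h5 : ∀ i ∈ (Finset.univ : Finset (Fin 3)), |2 * mo r w x i *
        ((∑ j, mo r w x j * pd j (fun y => mo r w y i) x) -
          Mr r (fun z => ∑ j, w z j * pd j (fun y => w y i) z) x)| ≤
        2 * B * (2 * (B * (3 + S))) := fun i _ => by
      rw [abs_mul, abs_mul]
      refine mul_le_mul ?_ ?_ (abs_nonneg _) (by positivity)
      · norm_num
        exact hm i
      · refine (abs_sub _ _).trans ?_
        linarith [hN i, hN2 i]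
    refine (Finset.sum_le_sum h5).trans (le_of_eq ?_)
    simp
  unfold Ed
  have a5 := abs_add_le (-2 * (gsq (mo r w) x * φ x) + nsq (mo r w) x * (dφ x + lap φ x)
    + (nsq (mo r w) x + 2 * Mr r q x) * adv (mo r w) φ x)
    (Rm (mo r w) (fun i => Mr r (fun z => ∑ j, w z j * pd j (fun y => w y i) z)) φ x)
  have a6 := abs_add_le (-2 * (gsq (mo r w) x * φ x) + nsq (mo r w) x * (dφ x + lap φ x))
    ((nsq (mo r w) x + 2 * Mr r q x) * adv (mo r w) φ x)
  have a7 := abs_add_le (-2 * (gsq (mo r w) x * φ x)) (nsq (mo r w) x * (dφ x + lap φ x))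
  have b1 : 0 ≤ B * M := by positivity
  have b2 : 0 ≤ B ^ 2 * M := by positivity
  have b3 : 0 ≤ B ^ 3 * M := by positivity
  have b4 : 0 ≤ B * M * S := by positivity
  have b5 : 0 ≤ B ^ 2 * M * S := by positivity
  have b6 : 0 ≤ B ^ 3 * M * S := by positivity
  have b7 : 0 ≤ B * M * Q := by positivity
  have b8 : 0 ≤ B ^ 2 * M * Q := by positivity
  have b9 : 0 ≤ B ^ 3 * M * Q := by positivity
  have b10 : 0 ≤ M * S := by positivity
  have b11 : 0 ≤ M * Q := by positivity
  nlinarith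

end

/-! ### The limit -/

section

variable {T E D : ℝ} {G : Set ℝ} {u : ℝ → V → V} {p : ℝ → V → ℝ} {φ : ℝ → V → ℝ}

/-- continuity in time -/
theorem JJ_ct (h : Turb 1 T E D G u p) (hφ : Test T φ) {R : ℝ}
    (hs : ∀ t, ∀ z ∉ ball (0 : V) R, φ t z = 0) (r : ℝ) :
    ContinuousOn (fun t => ∫ x, JJ r u φ t x) G := by
  have hφO : ContDiffOn ℝ ∞ (fun z : ℝ × V => φ z.1 z.2) (univ ×ˢ univ) := hφ.smooth.contDiffOn
  have hm := mol_joint h.openG h.smooth_u r
  have h1 : ∀ i, ContDiffOn ℝ ∞ (fun z : ℝ × V => mo r (u z.1) z.2 i) (G ×ˢ univ) := fun i =>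
    comp_joint (u := fun t => mo r (u t)) hm i
  have h2 : ∀ i, ContDiffOn ℝ ∞ (fun z : ℝ × V => deriv (fun s => mo r (u s) z.2 i) z.1)
      (G ×ˢ univ) := fun i => dt_joint (F := fun t x => mo r (u t) x i) h.openG (h1 i)
  have h3 : ContinuousOn (fun z : ℝ × V => deriv (fun s => φ s z.2) z.1) (G ×ˢ univ) :=
    (dt_joint isOpen_univ hφO).continuousOn.mono (prod_mono (subset_univ _) subset_rfl)
  refine pint_cont_c h.openG (F := JJ r u φ) ?_ 0 R fun t _ z hz => ?_
  · unfold JJ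
    refine ContinuousOn.add (ContinuousOn.mul ?_ hφ.smooth.continuous.continuousOn)
      (ContinuousOn.mul ?_ h3)
    · exact continuousOn_finsetSum _ fun i _ =>
        (continuousOn_const.mul (h1 i).continuousOn).mul (h2 i).continuousOn
    · exact continuousOn_finsetSum _ fun i _ => (h1 i).continuousOn.pow 2
  · unfold JJ
    rw [hs t z hz, dt_zero' isOpen_univ (fun t _ => hs t) (mem_univ t) hz]
    ring

/-- the bound in time -/
theorem JJ_bd (h : Turb 1 T E D G u p) (hφ : Test T φ) {R M B δ : ℝ} (hB : 0 ≤ B) (hM : 0 ≤ M)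
    (hs : ∀ t, ∀ z ∉ ball (0 : V) R, φ t z = 0)
    (hK2 : ∀ z ∈ tsupport (fun z : ℝ × V => φ z.1 z.2), z.2 ∈ ball (0 : V) R)
    (hM' : ∀ τ ∈ Icc 0 T, ∀ x, |φ τ x| ≤ M ∧
      |deriv (fun s => φ s x) τ| ≤ M ∧ |lap (φ τ) x| ≤ M ∧ ∀ j, |pd j (φ τ) x| ≤ M)
    (hreg : ∀ z ∈ tsupport (fun z : ℝ × V => φ z.1 z.2), z.1 ∈ G →
      ∀ y, ‖y - z.2‖ < δ → ∀ i, |u z.1 y i| ≤ B) :
    ∃ C : ℝ, ∀ r, 0 < r → r ≤ δ → ∀ t ∈ G, ‖∫ x, JJ r u φ t x‖ ≤ C * kk u p t := by
  obtain ⟨Cb, hCb, hball⟩ := Mr_ball R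
  obtain ⟨C0, hC0⟩ : ∃ C0, C0 = 36 * B ^ 2 * M + 12 * B ^ 2 * M + 2 * M + 6 * B ^ 2 * M
    + 9 * B ^ 3 * M + 12 * B * M := ⟨_, rfl⟩
  have hC00 : 0 ≤ C0 := by rw [hC0]; positivity
  obtain ⟨Vl, hVl⟩ : ∃ Vl, Vl = ∫ _x in ball (0 : V) R, (1 : ℝ) := ⟨_, rfl⟩
  have hVl0 : 0 ≤ Vl := by rw [hVl]; exact integral_nonneg fun _ => zero_le_one
  refine ⟨C0 * (Vl + Cb), fun r hr hrδ t ht => ?_⟩
  have hus := sl_sm h.smooth_u ht
  have hps := sl_sm h.smooth_p ht
  have htI : t ∈ Icc 0 T := Ioo_subset_Icc_self (h.subG ht)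
  have hqc : Continuous fun z => |p t z| ^ (3 / 2 : ℝ) :=
    hps.continuous.abs.rpow_const fun _ => Or.inr (by norm_num)
  have hqp : Per fun z => |p t z| ^ (3 / 2 : ℝ) := fun i x => by
    show |p t (x + Pi.single i 1)| ^ (3 / 2 : ℝ) = |p t x| ^ (3 / 2 : ℝ)
    rw [h.per_p t ht i x]
  have b1 := hball (gsq (u t)) (gsq_sm hus).continuous (gsq_per (h.per_u t ht)) (gsq_nn (u t)) r 0
  have b2 := hball (fun z => |p t z| ^ (3 / 2 : ℝ)) hqc hqp (fun z => by positivity) r 0
  rw [← enst_eq hus] at b1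
  rw [JJ_eq h hφ hs ht r]
  -- the pointwise bound
  have hpt : ∀ x, |Ed (mo r (u t)) (Mr r (p t)) (φ t) (fun x => deriv (fun s => φ s x) t) x
      + Rm (mo r (u t)) (fun i => Mr r (fun z => ∑ j, u t z j * pd j (fun y => u t y i) z))
        (φ t) x| ≤ C0 * (1 + Mr r (gsq (u t)) x + Mr r (fun z => |p t z| ^ (3 / 2 : ℝ)) x) := by
    intro x
    by_cases hx : (t, x) ∈ tsupport (fun z : ℝ × V => φ z.1 z.2)
    · rw [hC0]
      obtain ⟨m0, m1, m2, m3⟩ := hM' t htI x
      refine point_bd hus hps.continuous hB hM (fun y hy i => ?_) m0 m1 m2 m3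
      refine hreg (t, x) hx ht _ ?_ i
      rw [mem_ball, dist_zero_right] at hy
      show ‖x + r • y - x‖ < δ
      rw [add_sub_cancel_left, norm_smul, Real.norm_of_nonneg hr.le]
      nlinarith [norm_nonneg y]
    · obtain ⟨o0, o1, o2, o3⟩ := off hx
      have e0 : Ed (mo r (u t)) (Mr r (p t)) (φ t) (fun x => deriv (fun s => φ s x) t) x
        + Rm (mo r (u t)) (fun i => Mr r (fun z => ∑ j, u t z j * pd j (fun y => u t y i) z))
        (φ t) x = 0 := by
        unfold Ed Rm adv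
        simp only [o0, o1, o2, o3]
        simp
      rw [e0, abs_zero]
      have n1 : 0 ≤ Mr r (gsq (u t)) x := Mr_nn fun z => gsq_nn _ z
      have n2 : 0 ≤ Mr r (fun z => |p t z| ^ (3 / 2 : ℝ)) x := Mr_nn fun z => by positivity
      positivity
  have hz : ∀ x ∉ ball (0 : V) R, Ed (mo r (u t)) (Mr r (p t)) (φ t)
      (fun x => deriv (fun s => φ s x) t) x
      + Rm (mo r (u t)) (fun i => Mr r (fun z => ∑ j, u t z j * pd j (fun y => u t y i) z))
        (φ t) x = 0 := by
    intro x hx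
    by_cases hx' : (t, x) ∈ tsupport (fun z : ℝ × V => φ z.1 z.2)
    · exact absurd (hK2 _ hx') hx
    · obtain ⟨o0, o1, o2, o3⟩ := off hx'
      unfold Ed Rm adv
      simp only [o0, o1, o2, o3]
      simp
  rw [← ball_int_eq hz]
  have i0 : IntegrableOn (fun _ : V => (1 : ℝ)) (ball 0 R) :=
    integrableOn_const measure_ball_lt_top.ne
  have i1 : IntegrableOn (fun x => 1 + Mr r (gsq (u t)) x) (ball 0 R) := i0.add b1.1
  have i2 : IntegrableOn (fun x => 1 + Mr r (gsq (u t)) x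
      + Mr r (fun z => |p t z| ^ (3 / 2 : ℝ)) x) (ball 0 R) := i1.add b2.1
  have k1 : ∫ x in ball (0 : V) R, (1 + Mr r (gsq (u t)) x
      + Mr r (fun z => |p t z| ^ (3 / 2 : ℝ)) x) ≤ (Vl + Cb) * kk u p t := by
    rw [integral_add i1 b2.1, integral_add i0 b1.1, ← hVl]
    have n1 := enst_nn (u t)
    have n2 : 0 ≤ ∫ y in cube, |p t y| ^ (3 / 2 : ℝ) := integral_nonneg fun y => by positivity
    unfold kk
    nlinarith [b1.2, b2.2, mul_nonneg hVl0 n1, mul_nonneg hVl0 n2]
  calc ‖∫ x in ball (0 : V) R, (Ed (mo r (u t)) (Mr r (p t)) (φ t)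
      (fun x => deriv (fun s => φ s x) t) x
      + Rm (mo r (u t)) (fun i => Mr r (fun z => ∑ j, u t z j * pd j (fun y => u t y i) z))
        (φ t) x)‖ ≤ ∫ x in ball (0 : V) R, C0 * (1 + Mr r (gsq (u t)) x
          + Mr r (fun z => |p t z| ^ (3 / 2 : ℝ)) x) :=
        norm_integral_le_of_norm_le (i2.const_mul C0) (ae_of_all _ hpt)
    _ ≤ C0 * (Vl + Cb) * kk u p t := by
        rw [integral_const_mul, mul_assoc]
        exact mul_le_mul_of_nonneg_left k1 hC00

/-- the limit at one time -/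
theorem JJ_lim (h : Turb 1 T E D G u p) (hφ : Test T φ) {R : ℝ} (hR : 0 < R)
    (hs : ∀ t, ∀ z ∉ ball (0 : V) R, φ t z = 0) {ρ : ℕ → ℝ} (hρ : Tendsto ρ atTop (𝓝 0))
    (hρ1 : ∀ n, |ρ n| ≤ 1) {t : ℝ} (ht : t ∈ G) :
    Tendsto (fun n => ∫ x, JJ (ρ n) u φ t x) atTop (𝓝 (DD 1 u p φ t)) := by
  have hus := sl_sm h.smooth_u ht
  have hps := sl_sm h.smooth_p ht
  have hui : ∀ i, ContDiff ℝ ∞ (fun y => u t y i) := fun i => contDiff_pi.1 hus i
  have hφO : ContDiffOn ℝ ∞ (fun z : ℝ × V => φ z.1 z.2) (univ ×ˢ univ) := hφ.smooth.contDiffOn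
  have hφG : ContDiffOn ℝ ∞ (fun z : ℝ × V => φ z.1 z.2) (G ×ˢ univ) := hφ.smooth.contDiffOn
  have hφt := sl_sm hφO (mem_univ t)
  have hdc : Continuous (fun x => deriv (fun s => φ s x) t) :=
    sl_ct (F := fun t x => deriv (fun s => φ s x) t) (dt_joint isOpen_univ hφO).continuousOn
      (mem_univ t)
  have hdu : ∀ i, Continuous (fun x => deriv (fun s => u s x i) t) := fun i =>
    sl_ct (F := fun t x => deriv (fun s => u s x i) t)
      (dt_joint (F := fun t x => u t x i) h.openG (comp_joint h.smooth_u i)).continuousOn ht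
  have hdz : ∀ z ∉ ball (0 : V) R, deriv (fun s => φ s z) t = 0 := fun z hz =>
    dt_zero' isOpen_univ (fun t _ => hs t) (mem_univ t) hz
  -- the limit
  have hlim : ∫ x, ((∑ i, 2 * u t x i * deriv (fun s => u s x i) t) * φ t x
      + (∑ i, u t x i ^ 2) * deriv (fun s => φ s x) t) = DD 1 u p φ t := by
    rw [DD_eq 1 h.openG h.smooth_u h.smooth_p hφG hR (fun t _ => hs t) ht]
    have key := core (w := u t) (π := p t) (φ := φ t) (dφ := fun x => deriv (fun s => φ s x) t)
      (N := fun i z => ∑ j, u t z j * pd j (fun y => u t y i) z) (R := R) hus hps hφt hdc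
      (fun i => continuous_finsetSum _ fun j _ => (hui j).continuous.mul
        (Pool.Agent.W583.MD.sm_pd (hui i) j).continuous) (hs t) hdz (h.divfree t ht)
    have e1 : ∀ x, Ed (u t) (p t) (φ t) (fun x => deriv (fun s => φ s x) t) x
        + Rm (u t) (fun i z => ∑ j, u t z j * pd j (fun y => u t y i) z) (φ t) x =
        ed 1 u p φ t x := by
      intro x
      unfold Ed Rm ed
      simp only [sub_self, mul_zero, Finset.sum_const_zero, zero_mul, add_zero, mul_one, one_mul]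
    rw [integral_congr_ae (ae_of_all _ e1)] at key
    rw [← key]
    congr 1
    funext x
    congr 2
    refine Finset.sum_congr rfl fun i _ => ?_
    have := h.momentum t ht x i
    congr 1
    linarith
  rw [← hlim]
  -- reduction to the ball
  have z1 : ∀ n, ∀ z ∉ ball (0 : V) R, JJ (ρ n) u φ t z = 0 := fun n z hz => by
    unfold JJ
    rw [hs t z hz, hdz z hz]
    ring
  have z2 : ∀ z ∉ ball (0 : V) R, (∑ i, 2 * u t z i * deriv (fun s => u s z i) t) * φ t z
      + (∑ i, u t z i ^ 2) * deriv (fun s => φ s z) t = 0 := fun z hz => by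
    rw [hs t z hz, hdz z hz]
    ring
  rw [← ball_int_eq z2]
  have e2 : (fun n => ∫ x, JJ (ρ n) u φ t x) = fun n => ∫ x in ball (0 : V) R,
      JJ (ρ n) u φ t x := funext fun n => (ball_int_eq (z1 n)).symm
  rw [e2]
  -- the bounds
  have hK : IsCompact (closedBall (0 : V) (R + 1)) := isCompact_closedBall _ _
  have a1 : ∀ i, ∃ A, ∀ z ∈ closedBall (0 : V) (R + 1), ‖u t z i‖ ≤ A := fun i =>
    hK.exists_bound_of_continuousOn (hui i).continuous.continuousOn
  have a2 : ∀ i, ∃ A, ∀ z ∈ closedBall (0 : V) (R + 1), ‖deriv (fun s => u s z i) t‖ ≤ A :=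
    fun i => hK.exists_bound_of_continuousOn (hdu i).continuousOn
  choose A1 hA1 using a1
  choose A2 hA2 using a2
  obtain ⟨P0, hP0⟩ := hK.exists_bound_of_continuousOn hφt.continuous.continuousOn
  obtain ⟨P1, hP1⟩ := hK.exists_bound_of_continuousOn hdc.continuousOn
  have hin : ∀ n, ∀ x ∈ ball (0 : V) R, ∀ y ∈ ball (0 : V) 1,
      x + ρ n • y ∈ closedBall (0 : V) (R + 1) := by
    intro n x hx y hy
    rw [mem_ball, dist_zero_right] at hx hy
    rw [mem_closedBall, dist_zero_right]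
    refine (norm_add_le _ _).trans ?_
    rw [norm_smul, Real.norm_eq_abs]
    have := hρ1 n
    nlinarith [norm_nonneg y, abs_nonneg (ρ n)]
  have hcst : IntegrableOn (fun _ : V => (∑ i, 2 * A1 i * A2 i) * P0 + (∑ i, A1 i ^ 2) * P1)
      (ball (0 : V) R) := integrableOn_const measure_ball_lt_top.ne
  refine tendsto_integral_of_dominated_convergence
    (fun _ => (∑ i, 2 * A1 i * A2 i) * P0 + (∑ i, A1 i ^ 2) * P1) (fun n => ?_)
    hcst (fun n => ?_) ?_
  · have hm := mol_joint h.openG h.smooth_u (ρ n)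
    have h1 : ∀ i, ContDiffOn ℝ ∞ (fun z : ℝ × V => mo (ρ n) (u z.1) z.2 i) (G ×ˢ univ) :=
      fun i => comp_joint (u := fun t => mo (ρ n) (u t)) hm i
    have h2 : ∀ i, Continuous fun x => deriv (fun s => mo (ρ n) (u s) x i) t := fun i =>
      sl_ct (F := fun t x => deriv (fun s => mo (ρ n) (u s) x i) t)
        (dt_joint (F := fun t x => mo (ρ n) (u t) x i) h.openG (h1 i)).continuousOn ht
    have h3 : ∀ i, Continuous fun x => mo (ρ n) (u t) x i := fun i =>
      sl_ct (F := fun t x => mo (ρ n) (u t) x i) (h1 i).continuousOn ht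
    have : Continuous (fun x => JJ (ρ n) u φ t x) := by
      unfold JJ
      exact ((continuous_finsetSum _ fun i _ => (continuous_const.mul (h3 i)).mul (h2 i)).mul
        hφt.continuous).add ((continuous_finsetSum _ fun i _ => (h3 i).pow 2).mul hdc)
    exact this.aestronglyMeasurable
  · refine ae_restrict_of_forall_mem measurableSet_ball fun x hx => ?_
    have hxc : x ∈ closedBall (0 : V) (R + 1) :=
      closedBall_subset_closedBall (by linarith) (ball_subset_closedBall hx)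
    have c1 : ∀ i, |mo (ρ n) (u t) x i| ≤ A1 i := fun i =>
      Mr_bd (f := fun z => u t z i) (hui i).continuous fun y hy => hA1 i _ (hin n x hx y hy)
    have c2 : ∀ i, |deriv (fun s => mo (ρ n) (u s) x i) t| ≤ A2 i := fun i => by
      rw [mo_dt h ht]
      exact Mr_bd (f := fun z => deriv (fun s => u s z i) t) (hdu i) fun y hy =>
        hA2 i _ (hin n x hx y hy)
    have c3 : |φ t x| ≤ P0 := hP0 x hxc
    have c4 : |deriv (fun s => φ s x) t| ≤ P1 := hP1 x hxc
    have n1 : ∀ i, 0 ≤ A1 i := fun i => (abs_nonneg _).trans (c1 i)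
    have n2 : ∀ i, 0 ≤ A2 i := fun i => (abs_nonneg _).trans (c2 i)
    rw [Real.norm_eq_abs]
    unfold JJ
    refine (abs_add_le _ _).trans (add_le_add ?_ ?_)
    · rw [abs_mul]
      refine mul_le_mul ?_ c3 (abs_nonneg _) (Finset.sum_nonneg fun i _ => ?_)
      · refine (Finset.abs_sum_le_sum_abs _ _).trans (Finset.sum_le_sum fun i _ => ?_)
        rw [abs_mul, abs_mul]
        refine mul_le_mul ?_ (c2 i) (abs_nonneg _) (mul_nonneg zero_le_two (n1 i))
        rw [abs_of_nonneg (zero_le_two : (0 : ℝ) ≤ 2)]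
        exact mul_le_mul_of_nonneg_left (c1 i) zero_le_two
      · exact mul_nonneg (mul_nonneg zero_le_two (n1 i)) (n2 i)
    · rw [abs_mul]
      refine mul_le_mul ?_ c4 (abs_nonneg _) (Finset.sum_nonneg fun i _ => sq_nonneg _)
      refine (Finset.abs_sum_le_sum_abs _ _).trans (Finset.sum_le_sum fun i _ => ?_)
      rw [abs_pow]
      exact pow_le_pow_left₀ (abs_nonneg _) (c1 i) 2
  · refine ae_of_all _ fun x => ?_
    unfold JJ
    have l1 : ∀ i, Tendsto (fun n => mo (ρ n) (u t) x i) atTop (𝓝 (u t x i)) := fun i =>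
      Mr_tendsto (f := fun z => u t z i) (hui i).continuous x hρ hρ1
    have l2 : ∀ i, Tendsto (fun n => deriv (fun s => mo (ρ n) (u s) x i) t) atTop
        (𝓝 (deriv (fun s => u s x i) t)) := fun i => by
      have e3 : (fun n => deriv (fun s => mo (ρ n) (u s) x i) t) = fun n =>
          Mr (ρ n) (fun z => deriv (fun s => u s z i) t) x := funext fun n => mo_dt h ht _ _ _
      rw [e3]
      exact Mr_tendsto (hdu i) x hρ hρ1
    refine Tendsto.add (Tendsto.mul_const _ (tendsto_finsetSum _ fun i _ => ?_))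
      (Tendsto.mul_const _ (tendsto_finsetSum _ fun i _ => (l1 i).pow 2))
    exact ((l1 i).const_mul 2).mul (l2 i)

end

end E3

open E3 in
/-- The local energy equality near regular points. -/
theorem t_E3 : S_E3a → S_E3 := by
  intro ha T E D G u p h φ hφ hreg
  obtain ⟨R, hR, hKR⟩ := hφ.cpt.isBounded.subset_ball_lt 0 (0 : ℝ × V)
  have hK2 : ∀ z ∈ tsupport (fun z : ℝ × V => φ z.1 z.2), z.2 ∈ ball (0 : V) R := by
    intro z hz
    have h2 := hKR hz
    rw [mem_ball, dist_zero_right, Prod.norm_def, max_lt_iff] at h2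
    rw [mem_ball, dist_zero_right]
    exact h2.2
  have hs : ∀ t, ∀ z ∉ ball (0 : V) R, φ t z = 0 := by
    intro t z hz
    by_contra hne
    exact hz (hK2 (t, z) (subset_tsupport _ hne))
  obtain ⟨M, hM, hM'⟩ := tbd (α := -1) (β := T + 1) (s := 0) (t := T) (a := 0)
    hφ.smooth.contDiffOn hR (fun t _ => hs t) (by norm_num) (by linarith)
  obtain ⟨δ, hδ, B, hB, hB'⟩ := reg hφ.cpt hreg
  obtain ⟨C, hC⟩ := JJ_bd h hφ hB hM hs hK2 hM' hB'
  obtain ⟨c, hc⟩ : ∃ c, c = min 1 δ := ⟨_, rfl⟩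
  have hc0 : 0 < c := by rw [hc]; exact lt_min one_pos hδ
  have hc1 : c ≤ 1 := by rw [hc]; exact min_le_left _ _
  have hc2 : c ≤ δ := by rw [hc]; exact min_le_right _ _
  obtain ⟨ρ, hρ⟩ : ∃ ρ : ℕ → ℝ, ρ = fun n : ℕ => c * (1 / ((n : ℝ) + 1)) := ⟨_, rfl⟩
  have hρt : Tendsto ρ atTop (𝓝 0) := by
    rw [hρ, ← mul_zero c]
    exact tendsto_one_div_add_atTop_nhds_zero_nat.const_mul c
  have hρ0 : ∀ n, 0 < ρ n := fun n => by rw [hρ]; positivity
  have hρc : ∀ n, ρ n ≤ c := fun n => by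
    rw [hρ]
    have : 1 / ((n : ℝ) + 1) ≤ 1 := by
      rw [div_le_one (by positivity)]
      linarith [n.cast_nonneg (α := ℝ)]
    calc c * (1 / ((n : ℝ) + 1)) ≤ c * 1 := mul_le_mul_of_nonneg_left this hc0.le
      _ = c := mul_one c
  have hρ1 : ∀ n, |ρ n| ≤ 1 := fun n => by
    rw [abs_of_pos (hρ0 n)]
    exact (hρc n).trans hc1
  have h0 : ∀ n, ∫ t in G, ∫ x, JJ (ρ n) u φ t x = 0 := fun n =>
    (ha T E D G u p h (ρ n) (hρ0 n) ((hρc n).trans hc1) φ hφ).2
  have hl : Tendsto (fun n => ∫ t in G, ∫ x, JJ (ρ n) u φ t x) atTop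
      (𝓝 (∫ t in G, DD 1 u p φ t)) := by
    refine tendsto_integral_of_dominated_convergence (fun t => C * kk u p t) (fun n => ?_)
      ((kk_int h).const_mul C) (fun n => ?_) ?_
    · exact (JJ_ct h hφ hs (ρ n)).aestronglyMeasurable h.openG.measurableSet
    · exact ae_restrict_of_forall_mem h.openG.measurableSet fun t ht =>
        hC (ρ n) (hρ0 n) ((hρc n).trans hc2) t ht
    · exact ae_restrict_of_forall_mem h.openG.measurableSet fun t ht =>
        JJ_lim h hφ hR hs hρt hρ1 ht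
  simp only [h0] at hl
  exact (tendsto_nhds_unique hl tendsto_const_nhds)

end Pool.Agent.N976.EQ
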