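import Pool.Agent.N976.EQ.Stm
import Pool.Agent.Y494.NS.TCUT
import Pool.Agent.Y494.NS.ACX

/-!
The energy identity of the mollified field (helper394, for helper976).
-/

set_option autoImplicit false

open MeasureTheory Set Metric Filter Topology
open scoped ContDiff ENNReal NNReal

namespace Pool.Agent.N976.EQ

open H459R3.NS W221.NS Pool.Agent.Y8 Pool.Agent.N977.H Pool.Agent.N976.TL

namespace E3a

/-- The derivative is bounded by the density of the modulus of continuity. -/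
theorem ae_le {F k : ℝ → ℝ} (hk : Integrable k) {a b : ℝ}
    (hF : ∀ s ∈ Icc a b, ∀ t ∈ Icc a b, s ≤ t → |F t - F s| ≤ ∫ τ in Ioo s t, k τ) :
    ∀ᵐ τ, τ ∈ Ioo a b → ∀ F' : ℝ, HasDerivAt F F' τ → |F'| ≤ |k τ| := by
  filter_upwards [LocallyIntegrable.ae_hasDerivAt_integral hk.locallyIntegrable] with τ hτ hab F' hF'
  have hK := hτ a
  have hτ' : τ ∈ Icc a b := Ioo_subset_Icc_self hab
  have hd : ∀ t ∈ Icc a b, |F t - F τ| ≤ |(∫ v in a..t, k v) - ∫ v in a..τ, k v| := by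
    intro t ht
    rcases le_total τ t with h | h
    · rw [intervalIntegral.integral_interval_sub_left hk.intervalIntegrable
        hk.intervalIntegrable, intervalIntegral.integral_of_le h, integral_Ioc_eq_integral_Ioo]
      exact (hF τ hτ' t ht h).trans (le_abs_self _)
    · rw [abs_sub_comm, abs_sub_comm (∫ v in a..t, k v),
        intervalIntegral.integral_interval_sub_left hk.intervalIntegrable
        hk.intervalIntegrable, intervalIntegral.integral_of_le h, integral_Ioc_eq_integral_Ioo]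
      exact (hF t ht τ hτ' h).trans (le_abs_self _)
  have h1 := (hasDerivAt_iff_tendsto_slope.1 hF').abs
  have h2 := (hasDerivAt_iff_tendsto_slope.1 hK).abs
  refine le_of_tendsto_of_tendsto h1 h2 ?_
  filter_upwards [nhdsWithin_le_nhds (Icc_mem_nhds hab.1 hab.2)] with t ht
  rw [slope_def_field, slope_def_field, abs_div, abs_div]
  exact div_le_div_of_nonneg_right (hd t ht) (abs_nonneg _)

/-- The integrand. -/
noncomputable def FF (r : ℝ) (u : ℝ → V → V) (φ : ℝ → V → ℝ) (t : ℝ) (x : V) : ℝ :=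
  (∑ i, 2 * mo r (u t) x i * deriv (fun s => mo r (u s) x i) t) * φ t x
    + (∑ i, mo r (u t) x i ^ 2) * deriv (fun s => φ s x) t

section

variable {T E D r : ℝ} {G : Set ℝ} {u : ℝ → V → V} {p : ℝ → V → ℝ} {φ : ℝ → V → ℝ}

theorem moj (h : Turb 1 T E D G u p) (r : ℝ) (i : Fin 3) :
    ContDiffOn ℝ ∞ (fun z : ℝ × V => (fun s x => mo r (u s) x i) z.1 z.2) (G ×ˢ univ) :=
  contDiffOn_pi.1 (mol_joint h.openG h.smooth_u r) i

theorem hd_mo (h : Turb 1 T E D G u p) (r : ℝ) (i : Fin 3) {t : ℝ} (ht : t ∈ G) (x : V) :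
    HasDerivAt (fun s => mo r (u s) x i) (deriv (fun s => mo r (u s) x i) t) t :=
  dt_hd' (F := fun s x => mo r (u s) x i) h.openG (moj h r i) ht x

theorem phj (hφ : Test T φ) :
    ContDiffOn ℝ ∞ (fun z : ℝ × V => φ z.1 z.2) ((univ : Set ℝ) ×ˢ univ) := hφ.smooth.contDiffOn

theorem hd_FF (h : Turb 1 T E D G u p) (hφ : Test T φ) {t : ℝ} (ht : t ∈ G) (x : V) :
    HasDerivAt (fun s => (∑ i, mo r (u s) x i ^ 2) * φ s x) (FF r u φ t x) t := by
  have h2 : HasDerivAt (fun s => φ s x) (deriv (fun s => φ s x) t) t :=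
    dt_hd' isOpen_univ (phj hφ) (mem_univ t) x
  have h3 : HasDerivAt (fun s => ∑ i, mo r (u s) x i ^ 2)
      (∑ i, 2 * mo r (u t) x i * deriv (fun s => mo r (u s) x i) t) t := by
    have h4 := HasDerivAt.fun_sum (u := (Finset.univ : Finset (Fin 3)))
      (A := fun i s => mo r (u s) x i ^ 2)
      (A' := fun i => 2 * mo r (u t) x i * deriv (fun s => mo r (u s) x i) t) (x := t)
      fun i _ => ((hd_mo h r i ht x).pow 2).congr_deriv (by norm_num)
    exact h4
  exact h3.mul h2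

theorem FF_ct (h : Turb 1 T E D G u p) (hφ : Test T φ) :
    ContinuousOn (fun z : ℝ × V => FF r u φ z.1 z.2) (G ×ˢ univ) := by
  have h1 : ∀ i, ContinuousOn (fun z : ℝ × V => mo r (u z.1) z.2 i) (G ×ˢ univ) := fun i =>
    (moj h r i).continuousOn
  have h2 : ∀ i, ContinuousOn (fun z : ℝ × V => deriv (fun s => mo r (u s) z.2 i) z.1)
      (G ×ˢ univ) := fun i =>
    (dt_joint (F := fun s x => mo r (u s) x i) h.openG (moj h r i)).continuousOn
  have h3 : ContinuousOn (fun z : ℝ × V => φ z.1 z.2) (G ×ˢ univ) :=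
    hφ.smooth.continuous.continuousOn
  have h4 : ContinuousOn (fun z : ℝ × V => deriv (fun s => φ s z.2) z.1) (G ×ˢ univ) :=
    (dt_joint isOpen_univ (phj hφ)).continuousOn.mono (prod_mono (subset_univ _) subset_rfl)
  unfold FF
  refine ContinuousOn.add (ContinuousOn.mul ?_ h3) (ContinuousOn.mul ?_ h4)
  · exact continuousOn_finsetSum _ fun i _ => (continuousOn_const.mul (h1 i)).mul (h2 i)
  · exact continuousOn_finsetSum _ fun i _ => (h1 i).pow 2

theorem ph_supp (hφ : Test T φ) : ∃ R : ℝ, ∀ t x, x ∉ ball (0 : V) R → φ t x = 0 := by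
  obtain ⟨R, hR⟩ := hφ.cpt.isCompact.isBounded.subset_ball (0 : ℝ × V)
  refine ⟨R, fun t x hx => ?_⟩
  by_contra hne
  have h1 : (t, x) ∈ tsupport (fun z : ℝ × V => φ z.1 z.2) := subset_tsupport _ hne
  have h2 := hR h1
  rw [mem_ball, dist_zero_right] at h2 hx
  exact hx ((norm_snd_le (t, x)).trans_lt h2)

theorem ph_end (hφ : Test T φ) {t : ℝ} (ht : t ∉ Ioo 0 T) (x : V) : φ t x = 0 := by
  by_contra hne
  have h1 : (t, x) ∈ tsupport (fun z : ℝ × V => φ z.1 z.2) := subset_tsupport _ hne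
  exact ht (hφ.supp h1).1

theorem FF_supp {R : ℝ} (hR : ∀ t x, x ∉ ball (0 : V) R → φ t x = 0) (t : ℝ) {x : V}
    (hx : x ∉ ball (0 : V) R) : FF r u φ t x = 0 := by
  have h1 : (fun s => φ s x) = fun _ => (0 : ℝ) := funext fun s => hR s x hx
  unfold FF
  rw [hR t x hx, h1, deriv_const]
  ring

/-- The extended function and its modulus. -/
theorem modF (h : Turb 1 T E D G u p) (hφ : Test T φ) (hT : 0 < T) (hr : 0 < r) (hr1 : r ≤ 1) :
    ∃ (A : ℝ) (Mh : ℝ → V → V), 0 ≤ A ∧ (∀ t ∈ G, Mh t = mo r (u t)) ∧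
      ∀ x, ∀ s ∈ Icc 0 T, ∀ t ∈ Icc 0 T, s ≤ t →
        |(∑ i, Mh t x i ^ 2) * φ t x - (∑ i, Mh s x i ^ 2) * φ s x|
          ≤ ∫ τ in Ioo s t, A * K1 G u p τ := by
  obtain ⟨B, hB, hM⟩ := Mh_ex Pool.Agent.Y494.NS.t_TCUT Pool.Agent.Y494.NS.t_ACX
  obtain ⟨C, L, hC, hM⟩ := hM E r hr hr1
  obtain ⟨Mh, hM1, hM2, -, hM4⟩ := hM T D G u p hT h
  obtain ⟨B1, hB1⟩ : ∃ B1 : ℝ, B1 = B * |E| / √(r ^ 3) + 1 := ⟨_, rfl⟩
  have hB0 : 0 ≤ B1 := by rw [hB1]; positivity
  rw [← hB1] at hM4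
  obtain ⟨M0, hM0⟩ := hφ.smooth.continuous.bounded_above_of_compact_support hφ.cpt
  obtain ⟨L0, hL0⟩ := ContDiff.lipschitzWith_of_hasCompactSupport hφ.cpt hφ.smooth (by simp)
  have hM00 : 0 ≤ M0 := (norm_nonneg _).trans (hM0 (0, 0))
  refine ⟨6 * B1 * C * M0 + 3 * B1 ^ 2 * L0, Mh, by positivity, hM1, fun x s hs t ht hst => ?_⟩
  rw [integral_const_mul]
  obtain ⟨I, hI⟩ : ∃ I : ℝ, I = ∫ τ in Ioo s t, K1 G u p τ := ⟨_, rfl⟩
  have hI0 : 0 ≤ I := by rw [hI]; exact integral_nonneg fun τ => K1_nn G u p τ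
  have hIt : t - s ≤ I := by rw [hI]; exact K1_low h hs.1 hst ht.2
  rw [← hI]
  have h1 : ∀ i, |Mh t x i - Mh s x i| ≤ C * I := fun i => by
    have h2 := norm_le_pi_norm (Mh t x - Mh s x) i
    rw [Pi.sub_apply, Real.norm_eq_abs] at h2
    rw [hI]
    exact h2.trans (hM2 s hs t ht hst x)
  have h2 : ∀ τ ∈ Icc 0 T, ∀ i, |Mh τ x i| ≤ B1 := fun τ hτ i =>
    (norm_le_pi_norm (Mh τ x) i).trans (hM4 τ hτ x)
  have h3 : |(∑ i, Mh t x i ^ 2) - ∑ i, Mh s x i ^ 2| ≤ 6 * B1 * (C * I) := by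
    rw [← Finset.sum_sub_distrib]
    refine (Finset.abs_sum_le_sum_abs _ _).trans ?_
    have h4 : ∀ i ∈ (Finset.univ : Finset (Fin 3)), |Mh t x i ^ 2 - Mh s x i ^ 2|
        ≤ 2 * B1 * (C * I) := by
      intro i _
      have e : Mh t x i ^ 2 - Mh s x i ^ 2 = (Mh t x i + Mh s x i) * (Mh t x i - Mh s x i) := by
        ring
      rw [e, abs_mul]
      refine mul_le_mul ?_ (h1 i) (abs_nonneg _) (by positivity)
      refine (abs_add_le _ _).trans ?_
      linarith [h2 t ht i, h2 s hs i]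
    refine (Finset.sum_le_sum h4).trans ?_
    simp only [Finset.sum_const, Finset.card_univ, Fintype.card_fin, nsmul_eq_mul]
    push_cast
    linarith
  have h4 : |∑ i, Mh s x i ^ 2| ≤ 3 * B1 ^ 2 := by
    rw [abs_of_nonneg (Finset.sum_nonneg fun i _ => sq_nonneg _)]
    have h5 : ∀ i ∈ (Finset.univ : Finset (Fin 3)), Mh s x i ^ 2 ≤ B1 ^ 2 := fun i _ => by
      rw [← sq_abs (Mh s x i)]
      exact pow_le_pow_left₀ (abs_nonneg _) (h2 s hs i) 2
    refine (Finset.sum_le_sum h5).trans ?_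
    simp
  have h5 : |φ t x| ≤ M0 := hM0 (t, x)
  have h6 : |φ t x - φ s x| ≤ L0 * I := by
    have h7 := hL0.dist_le_mul (t, x) (s, x)
    rw [Real.dist_eq, Prod.dist_eq, dist_self, max_eq_left dist_nonneg, Real.dist_eq,
      abs_of_nonneg (sub_nonneg.2 hst)] at h7
    exact h7.trans (mul_le_mul_of_nonneg_left hIt L0.2)
  have e : (∑ i, Mh t x i ^ 2) * φ t x - (∑ i, Mh s x i ^ 2) * φ s x =
      ((∑ i, Mh t x i ^ 2) - ∑ i, Mh s x i ^ 2) * φ t x +
        (∑ i, Mh s x i ^ 2) * (φ t x - φ s x) := by ring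
  rw [e]
  refine (abs_add_le _ _).trans ?_
  rw [abs_mul, abs_mul]
  have h7 := mul_le_mul h3 h5 (abs_nonneg _) (by positivity)
  have h8 := mul_le_mul h4 h6 (abs_nonneg _) (by positivity)
  calc _ ≤ 6 * B1 * (C * I) * M0 + 3 * B1 ^ 2 * (L0 * I) := add_le_add h7 h8
    _ = _ := by ring

theorem G_ae (h : Turb 1 T E D G u p) : G =ᵐ[volume] Ioo 0 T := by
  refine Filter.EventuallyLE.antisymm (HasSubset.Subset.eventuallyLE h.subG) ?_
  rw [ae_le_set]
  exact h.fullG

/-- The properties of the integrand for one `x`. -/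
theorem oneX (h : Turb 1 T E D G u p) (hφ : Test T φ) (hT : 0 < T) (hr : 0 < r) (hr1 : r ≤ 1) :
    ∃ A : ℝ, 0 ≤ A ∧ ∀ x, IntegrableOn (fun t => FF r u φ t x) G ∧
      ∫ t in G, FF r u φ t x = 0 ∧ ∀ᵐ t ∂(volume.restrict G), |FF r u φ t x| ≤ A * K1 G u p t := by
  obtain ⟨A, Mh, hA, hM1, hM⟩ := modF h hφ hT hr hr1
  refine ⟨A, hA, fun x => ?_⟩
  obtain ⟨F, hF⟩ : ∃ F : ℝ → ℝ, F = fun t => (∑ i, Mh t x i ^ 2) * φ t x := ⟨_, rfl⟩
  have hk : Integrable (fun τ => A * K1 G u p τ) := (K1_int h).const_mul A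
  have hmod : ∀ s ∈ Icc 0 T, ∀ t ∈ Icc 0 T, s ≤ t → |F t - F s| ≤ ∫ τ in Ioo s t, A * K1 G u p τ := by
    intro s hs t ht hst
    rw [hF]
    exact hM x s hs t ht hst
  have hder : ∀ t ∈ G, HasDerivAt F (FF r u φ t x) t := by
    intro t ht
    refine (hd_FF h hφ ht x).congr_of_eventuallyEq ?_
    filter_upwards [h.openG.mem_nhds ht] with s hs
    rw [hF]
    show _ = (∑ i, mo r (u s) x i ^ 2) * φ s x
    rw [← hM1 s hs]
  obtain ⟨h1, h2⟩ := ftc_mod hk hT.le hmod
  have e0 : F T - F 0 = 0 := by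
    rw [hF]
    show (∑ i, Mh T x i ^ 2) * φ T x - (∑ i, Mh 0 x i ^ 2) * φ 0 x = 0
    rw [ph_end hφ (t := T) (fun h => lt_irrefl _ h.2) x, ph_end hφ (t := 0) (fun h => lt_irrefl _ h.1) x]
    ring
  rw [e0] at h2
  have hcg : ∀ t ∈ G, deriv F t = FF r u φ t x := fun t ht => (hder t ht).deriv
  refine ⟨?_, ?_, ?_⟩
  · exact (h1.mono_set h.subG).congr_fun hcg h.openG.measurableSet
  · rw [← setIntegral_congr_fun h.openG.measurableSet hcg, setIntegral_congr_set (G_ae h), ← h2]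
  · rw [ae_restrict_iff' h.openG.measurableSet]
    filter_upwards [ae_le hk hmod] with t ht htG
    have h3 := ht (h.subG htG) _ (hder t htG)
    rwa [abs_of_nonneg (mul_nonneg hA (K1_nn G u p t))] at h3

theorem FF_int (h : Turb 1 T E D G u p) (hφ : Test T φ) (hT : 0 < T) (hr : 0 < r) (hr1 : r ≤ 1) :
    Integrable (Function.uncurry (FF r u φ)) ((volume.restrict G).prod (volume : Measure V)) := by
  obtain ⟨A, hA, hx⟩ := oneX h hφ hT hr hr1
  obtain ⟨R, hR⟩ := ph_supp hφ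
  have hmeas : AEStronglyMeasurable (Function.uncurry (FF r u φ))
      ((volume.restrict G).prod (volume : Measure V)) := by
    have e : (volume.restrict G).prod (volume : Measure V) =
        ((volume : Measure ℝ).prod (volume : Measure V)).restrict (G ×ˢ univ) := by
      rw [← Measure.prod_restrict, Measure.restrict_univ]
    rw [e]
    exact (FF_ct h hφ).aestronglyMeasurable (h.openG.measurableSet.prod MeasurableSet.univ)
  rw [integrable_prod_iff' hmeas]
  refine ⟨ae_of_all _ fun x => (hx x).1, ?_⟩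
  refine Integrable.mono' (g := (ball (0 : V) R).indicator fun _ => ∫ t in G, A * K1 G u p t) ?_ ?_ ?_
  · rw [integrable_indicator_iff measurableSet_ball]
    exact integrableOn_const (measure_ball_lt_top.ne)
  · exact hmeas.norm.prod_swap.integral_prod_right'
  · refine ae_of_all _ fun x => ?_
    rw [Real.norm_eq_abs, abs_of_nonneg (integral_nonneg fun t => norm_nonneg _)]
    by_cases hxR : x ∈ ball (0 : V) R
    · rw [indicator_of_mem hxR]
      exact integral_mono_ae (hx x).1.norm ((K1_int h).const_mul A).integrableOn (hx x).2.2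
    · rw [indicator_of_notMem hxR]
      have e : ∀ t, ‖Function.uncurry (FF r u φ) (t, x)‖ = 0 := fun t => by
        show ‖FF r u φ t x‖ = 0
        rw [FF_supp hR t hxR, norm_zero]
      simp only [e, integral_zero, le_refl]

end

end E3a

open E3a

/-- **The energy identity of the mollified field.** -/
theorem t_E3a : S_E3a := by
  intro T E D G u p h r hr hr1 φ hφ
  refine ⟨fun t ht x => differentiableAt_pi.2 fun i => (hd_mo h r i ht x).differentiableAt, ?_⟩
  rcases le_or_gt T 0 with hT | hT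
  · have hG : G = ∅ := by
      refine eq_empty_of_forall_notMem fun t ht => ?_
      have := h.subG ht
      linarith [this.1, this.2]
    rw [hG, setIntegral_empty]
  · show ∫ t in G, ∫ x, FF r u φ t x = 0
    obtain ⟨A, hA, hx⟩ := oneX h hφ hT hr hr1
    rw [integral_integral_swap (FF_int h hφ hT hr hr1)]
    simp only [(hx _).2.1, integral_zero]

end Pool.Agent.N976.EQ
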