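import Pool.Agent.N976.EQ.Stm
import Pool.Agent.Y494.NS.TCUT

/-!
Project EQ (helper976), part E4 (helper592): from the local energy equality to the energy equality.
The test functions are `θ(t) ζ(x)`, `ζ` the convolution of the indicator function of the period cell and a mollifier, so
that the integral of a periodic function against `ζ` is the integral over the cell, and the integrals against the
derivatives of `ζ` vanish.
-/

set_option autoImplicit false

open MeasureTheory Set Metric
open scoped ContDiff ENNReal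

namespace Pool.Agent.N976.EQ.E4

open H459R3.NS W221.NS Pool.Agent.Y8
open scoped Pointwise

/-! ### Integrals of periodic functions over the period cell (copied from R210.Per0) -/

theorem per_span {F : Type*} {f : V → F} (hf : Per f)
    (g : Submodule.span ℤ (Set.range (Pi.basisFun ℝ (Fin 3)))) (x : V) : f (g +ᵥ x) = f x := by
  obtain ⟨v, hv⟩ := g
  have key : ∀ v ∈ Submodule.span ℤ (Set.range (Pi.basisFun ℝ (Fin 3))), ∀ x, f (v + x) = f x := by
    intro v hv
    induction hv using Submodule.span_induction with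
    | mem v hv =>
      obtain ⟨i, rfl⟩ := hv
      intro x
      rw [Pi.basisFun_apply, add_comm]
      exact hf i x
    | zero => intro x; rw [zero_add]
    | add a b _ _ ha hb => intro x; rw [add_assoc, ha, hb]
    | smul n a _ ha =>
      intro x
      induction n using Int.induction_on generalizing x with
      | zero => rw [zero_smul, zero_add]
      | succ k ih => rw [add_smul, one_smul, add_assoc, ih, ha]
      | pred k ih =>
        rw [sub_smul, one_smul]
        have h1 := ha ((-(k : ℤ)) • a - a + x)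
        have e1 : a + ((-(k : ℤ)) • a - a + x) = (-(k : ℤ)) • a + x := by abel
        rw [e1, ih] at h1
        exact h1.symm
  exact key v hv x

/-- The half open cell. -/
def dom : Set V := ZSpan.fundamentalDomain (Pi.basisFun ℝ (Fin 3))

theorem dom_ae : dom =ᵐ[volume] cube := by
  have h1 : dom = Set.pi univ fun _ : Fin 3 => Ico (0 : ℝ) 1 := by
    ext x
    simp [dom, ZSpan.mem_fundamentalDomain]
  have h2 : cube = Icc (0 : V) 1 := rfl
  rw [h1, h2]
  exact Measure.univ_pi_Ico_ae_eq_Icc (μ := fun _ : Fin 3 => (volume : Measure ℝ))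
    (f := (0 : V)) (g := (1 : V))

theorem int_shift {f : V → ℝ} (hf : Per f)
    (h : V) : ∫ x in cube, f (x + h) = ∫ x in cube, f x := by
  have hD : IsAddFundamentalDomain (Submodule.span ℤ (Set.range (Pi.basisFun ℝ (Fin 3)))) dom
      (volume : Measure V) := ZSpan.isAddFundamentalDomain _ _
  have hmp : MeasurePreserving (fun x : V => x - h) volume volume := measurePreserving_sub_right _ h
  have hinv : VAddInvariantMeasure (Submodule.span ℤ (Set.range (Pi.basisFun ℝ (Fin 3)))) V
      (volume : Measure V) := ⟨fun g s _ => measure_preimage_add volume (g : V) s⟩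
  have hD' : IsAddFundamentalDomain (Submodule.span ℤ (Set.range (Pi.basisFun ℝ (Fin 3))))
      ((fun x : V => x - h) ⁻¹' dom) (volume : Measure V) := by
    refine hD.preimage_of_equiv hmp.quasiMeasurePreserving (e := id) Function.bijective_id ?_
    intro g x
    simp only [id]
    show (g +ᵥ x) - h = g +ᵥ (x - h)
    rw [Submodule.vadd_def, Submodule.vadd_def, vadd_eq_add, vadd_eq_add]
    abel
  have h1 : ∫ x in dom, f x = ∫ x in (fun x : V => x - h) ⁻¹' dom, f x :=
    hD.setIntegral_eq hD' (per_span hf)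
  have hmp2 : MeasurePreserving (fun x : V => x + h) volume volume := measurePreserving_add_right _ h
  have h2 := hmp2.setIntegral_preimage_emb (measurableEmbedding_addRight h) f
    ((fun x : V => x - h) ⁻¹' dom)
  have h3 : (fun x : V => x + h) ⁻¹' ((fun x : V => x - h) ⁻¹' dom) = dom := by
    ext x; simp
  rw [h3] at h2
  rw [← setIntegral_congr_set dom_ae, ← setIntegral_congr_set dom_ae, h2, h1]

lemma cube_cpt : IsCompact cube := isCompact_Icc

lemma cube_meas : MeasurableSet cube := measurableSet_Icc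

/-! ### Exchange of integrals -/

lemma swap {F : V → V → ℝ} (hF : Continuous (fun z : V × V => F z.1 z.2)) {K : Set V}
    (hK : IsCompact K) (h0 : ∀ x ∉ K, ∀ y ∈ cube, F x y = 0) :
    ∫ x, ∫ y in cube, F x y = ∫ y in cube, ∫ x, F x y := by
  have h1 : IntegrableOn (fun z : V × V => F z.1 z.2) (univ ×ˢ cube) (volume.prod volume) := by
    have h2 : IntegrableOn (fun z : V × V => F z.1 z.2) (K ×ˢ cube) (volume.prod volume) :=
      hF.continuousOn.integrableOn_compact (hK.prod cube_cpt)
    refine h2.of_forall_sdiff_eq_zero (MeasurableSet.univ.prod cube_meas) ?_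
    rintro ⟨x, y⟩ ⟨⟨-, hy⟩, hn⟩
    refine h0 x (fun hx => hn ⟨hx, hy⟩) y hy
  have h2 : Integrable (fun z : V × V => F z.1 z.2) (volume.prod (volume.restrict cube)) := by
    rw [IntegrableOn, ← Measure.prod_restrict, Measure.restrict_univ] at h1
    exact h1
  exact integral_integral_swap h2

/-- The convolution with the indicator function of the cell. -/
noncomputable def cg (g : V → ℝ) (x : V) : ℝ := ∫ y in cube, g (x - y)

/-- The integral of a periodic function against the convolution. -/
lemma mean {h g : V → ℝ} (hh : Continuous h) (hp : Per h) (hg : Continuous g)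
    (hc : HasCompactSupport g) : ∫ x, h x * cg g x = (∫ x in cube, h x) * ∫ x, g x := by
  have hK : IsCompact (tsupport g + cube) := IsCompact.add hc cube_cpt
  have e1 : ∫ x, h x * cg g x = ∫ x, ∫ y in cube, h x * g (x - y) := by
    refine integral_congr_ae (Filter.Eventually.of_forall fun x => ?_)
    show h x * cg g x = ∫ y in cube, h x * g (x - y)
    rw [integral_const_mul]
    rfl
  have e2 : ∫ x, ∫ y in cube, h x * g (x - y) = ∫ y in cube, ∫ x, h x * g (x - y) := by
    refine swap (by fun_prop) hK ?_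
    intro x hx y hy
    have h1 : g (x - y) = 0 := by
      refine image_eq_zero_of_notMem_tsupport fun h2 => hx ?_
      exact ⟨x - y, h2, y, hy, sub_add_cancel x y⟩
    rw [h1, mul_zero]
  have e3 : ∀ y : V, ∫ x, h x * g (x - y) = ∫ x, h (x + y) * g x := by
    intro y
    have h1 := integral_sub_right_eq_self (fun x => h (x + y) * g x) (μ := (volume : Measure V)) y
    rw [← h1]
    refine integral_congr_ae (Filter.Eventually.of_forall fun x => ?_)
    simp only [sub_add_cancel]
  have e4 : ∫ x, ∫ y in cube, h (x + y) * g x = ∫ y in cube, ∫ x, h (x + y) * g x := by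
    refine swap (by fun_prop) hc ?_
    intro x hx y hy
    rw [image_eq_zero_of_notMem_tsupport hx, mul_zero]
  rw [e1, e2]
  simp_rw [e3]
  rw [← e4, ← integral_const_mul]
  refine integral_congr_ae (Filter.Eventually.of_forall fun x => ?_)
  show ∫ y in cube, h (x + y) * g x = (∫ x in cube, h x) * g x
  rw [integral_mul_const]
  congr 1
  rw [← int_shift hp x]
  refine integral_congr_ae (Filter.Eventually.of_forall fun y => ?_)
  show h (x + y) = h (y + x)
  rw [add_comm]

/-! ### The cut-off function -/

lemma cg_eq (g : V → ℝ) : cg g =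
    convolution (cube.indicator (fun _ => (1 : ℝ))) g (ContinuousLinearMap.lsmul ℝ ℝ) volume := by
  ext x
  unfold cg convolution
  rw [← integral_indicator cube_meas]
  refine integral_congr_ae (Filter.Eventually.of_forall fun y => ?_)
  by_cases hy : y ∈ cube
  · simp [hy]
  · simp [hy]

lemma ind_li : LocallyIntegrable (cube.indicator (fun _ : V => (1 : ℝ))) volume := by
  refine Integrable.locallyIntegrable ?_
  rw [integrable_indicator_iff cube_meas]
  exact continuousOn_const.integrableOn_compact cube_cpt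

lemma cg_smooth {g : V → ℝ} (hg : ContDiff ℝ ∞ g) (hc : HasCompactSupport g) :
    ContDiff ℝ ∞ (cg g) := by
  rw [cg_eq]
  exact hc.contDiff_convolution_right _ ind_li hg

lemma cg_cpt {g : V → ℝ} (hc : HasCompactSupport g) : HasCompactSupport (cg g) := by
  have hK : IsCompact (tsupport g + cube) := IsCompact.add hc cube_cpt
  refine HasCompactSupport.intro hK fun x hx => ?_
  unfold cg
  rw [setIntegral_congr_fun cube_meas (g := fun _ => (0 : ℝ)), integral_zero]
  intro y hy
  refine image_eq_zero_of_notMem_tsupport fun h2 => hx ?_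
  exact ⟨x - y, h2, y, hy, sub_add_cancel x y⟩

lemma cg_pd {g : V → ℝ} (hg : ContDiff ℝ ∞ g) (hc : HasCompactSupport g) (j : Fin 3) :
    pd j (cg g) = cg (pd j g) := by
  have h1 : ContDiff ℝ 1 g := hg.of_le (by norm_cast)
  ext x
  unfold pd
  rw [cg_eq, cg_eq, (hc.hasFDerivAt_convolution_right (ContinuousLinearMap.lsmul ℝ ℝ) ind_li h1
    x).fderiv]
  exact convolution_precompR_apply _ ind_li (hc.fderiv (𝕜 := ℝ)) (h1.continuous_fderiv one_ne_zero) x _

lemma pd_smooth {g : V → ℝ} (hg : ContDiff ℝ ∞ g) (j : Fin 3) : ContDiff ℝ ∞ (pd j g) := by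
  unfold pd
  exact (hg.fderiv_right (m := ∞) (by norm_cast)).clm_apply contDiff_const

lemma pd_cpt {g : V → ℝ} (hc : HasCompactSupport g) (j : Fin 3) : HasCompactSupport (pd j g) := by
  have h1 := hc.fderiv (𝕜 := ℝ)
  exact h1.comp_left (g := fun A : V →L[ℝ] ℝ => A (Pi.single j 1)) (by simp)

lemma int_pd {g : V → ℝ} (hg : ContDiff ℝ ∞ g) (hc : HasCompactSupport g) (j : Fin 3) :
    ∫ x, pd j g x = 0 := by
  have h1 : Integrable g := hg.continuous.integrable_of_hasCompactSupport hc
  have h2 : Integrable (pd j g) :=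
    (pd_smooth hg j).continuous.integrable_of_hasCompactSupport (pd_cpt hc j)
  have h2' : Integrable (fun x => (1 : ℝ) * (fderiv ℝ g x) (Pi.single j 1)) := by
    simp only [one_mul]
    exact h2
  have h3 := integral_mul_fderiv_eq_neg_fderiv_mul_of_integrable (𝕜 := ℝ) (μ := (volume : Measure V))
    (f := fun _ : V => (1 : ℝ)) (g := g) (v := Pi.single j 1) (by simp) h2'
    (by simpa using h1) (fun x _ => differentiableAt_const _)
    (fun x _ => (hg.differentiable (by simp)) x)
  simp only [one_mul, fderiv_fun_const, Pi.zero_apply, zero_apply, zero_mul,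
    integral_zero, neg_zero] at h3
  exact h3

/-- The cut-off function. -/
noncomputable def ze : V → ℝ := cg th

lemma th_smooth : ContDiff ℝ ∞ th := bmp.contDiff_normed

lemma th_cpt : HasCompactSupport th := bmp.hasCompactSupport_normed

lemma th_nonneg (x : V) : 0 ≤ th x := bmp.nonneg_normed x

lemma th_int : ∫ x, th x = 1 := bmp.integral_normed

lemma ze_smooth : ContDiff ℝ ∞ ze := cg_smooth th_smooth th_cpt

lemma ze_cpt : HasCompactSupport ze := cg_cpt th_cpt

lemma ze_nonneg (x : V) : 0 ≤ ze x := integral_nonneg fun _ => th_nonneg _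

lemma ze_mean {h : V → ℝ} (hh : Continuous h) (hp : Per h) : ∫ x, h x * ze x = ∫ x in cube, h x := by
  unfold ze
  rw [mean hh hp th_smooth.continuous th_cpt, th_int, mul_one]

lemma ze_pd {h : V → ℝ} (hh : Continuous h) (hp : Per h) (j : Fin 3) : ∫ x, h x * pd j ze x = 0 := by
  unfold ze
  rw [cg_pd th_smooth th_cpt, mean hh hp (pd_smooth th_smooth j).continuous (pd_cpt th_cpt j),
    int_pd th_smooth th_cpt, mul_zero]

lemma ze_pdpd {h : V → ℝ} (hh : Continuous h) (hp : Per h) (j : Fin 3) :
    ∫ x, h x * pd j (pd j ze) x = 0 := by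
  unfold ze
  rw [cg_pd th_smooth th_cpt, cg_pd (pd_smooth th_smooth j) (pd_cpt th_cpt j),
    mean hh hp (pd_smooth (pd_smooth th_smooth j) j).continuous (pd_cpt (pd_cpt th_cpt j) j),
    int_pd (pd_smooth th_smooth j) (pd_cpt th_cpt j), mul_zero]

lemma mul_int {h g : V → ℝ} (hh : Continuous h) (hg : Continuous g) (hc : HasCompactSupport g) :
    Integrable (fun x => h x * g x) :=
  (hh.mul hg).integrable_of_hasCompactSupport hc.mul_left

lemma ze_lap {h : V → ℝ} (hh : Continuous h) (hp : Per h) : ∫ x, h x * lap ze x = 0 := by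
  unfold lap
  simp_rw [Finset.mul_sum]
  rw [integral_finsetSum]
  · exact Finset.sum_eq_zero fun j _ => ze_pdpd hh hp j
  · intro j _
    exact mul_int hh (pd_smooth (pd_smooth ze_smooth j) j).continuous (pd_cpt (pd_cpt ze_cpt j) j)

/-! ### The defect for the test functions `θ(t) ζ(x)` -/

section fields

lemma pd_per {f : V → ℝ} (hf : Per f) (j : Fin 3) : Per (pd j f) := by
  intro i x
  unfold pd
  have h1 : (fun y => f (y + Pi.single i 1)) = f := funext fun y => hf i y
  have h2 := fderiv_comp_add_right (𝕜 := ℝ) (f := f) (x := x) (Pi.single i 1)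
  rw [h1] at h2
  rw [h2]

variable {v : V → V} {q : V → ℝ}

lemma comp_smooth (hv : ContDiff ℝ ∞ v) (i : Fin 3) : ContDiff ℝ ∞ (fun y => v y i) :=
  (contDiff_pi.1 hv) i

lemma comp_per (hp : Per v) (i : Fin 3) : Per (fun y => v y i) := fun j x => by
  show v (x + Pi.single j 1) i = v x i
  rw [hp j x]

lemma nsq_cont (hv : ContDiff ℝ ∞ v) : Continuous (nsq v) := by
  unfold nsq
  exact continuous_finsetSum _ fun i _ => (comp_smooth hv i).continuous.pow 2

lemma gsq_cont (hv : ContDiff ℝ ∞ v) : Continuous (gsq v) := by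
  unfold gsq
  exact continuous_finsetSum _ fun i _ => continuous_finsetSum _ fun j _ =>
    (pd_smooth (comp_smooth hv i) j).continuous.pow 2

lemma nsq_per (hp : Per v) : Per (nsq v) := fun j x => by
  unfold nsq
  rw [hp j x]

lemma gsq_per (hp : Per v) : Per (gsq v) := fun j x => by
  unfold gsq
  refine Finset.sum_congr rfl fun i _ => Finset.sum_congr rfl fun k _ => ?_
  rw [pd_per (comp_per hp i) k j x]

lemma int_nsq (hv : ContDiff ℝ ∞ v) : ∫ x in cube, nsq v x = energy v := by
  unfold nsq energy
  exact integral_finsetSum _ fun i _ =>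
    (((comp_smooth hv i).continuous.pow 2).continuousOn.integrableOn_compact cube_cpt)

lemma int_gsq (hv : ContDiff ℝ ∞ v) : ∫ x in cube, gsq v x = enstrophy v := by
  unfold gsq enstrophy
  rw [integral_finsetSum]
  · refine Finset.sum_congr rfl fun i _ => integral_finsetSum _ fun j _ => ?_
    exact (((pd_smooth (comp_smooth hv i) j).continuous.pow 2).continuousOn.integrableOn_compact
      cube_cpt)
  · intro i _
    exact (continuous_finsetSum _ fun j _ =>
      (pd_smooth (comp_smooth hv i) j).continuous.pow 2).continuousOn.integrableOn_compact cube_cpt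

lemma pd_const (c : ℝ) {g : V → ℝ} (hg : ContDiff ℝ ∞ g) (j : Fin 3) (x : V) :
    pd j (fun y => c * g y) x = c * pd j g x := by
  unfold pd
  rw [fderiv_const_mul ((hg.differentiable (by simp)) x)]
  rfl

lemma lap_const (c : ℝ) {g : V → ℝ} (hg : ContDiff ℝ ∞ g) (x : V) :
    lap (fun y => c * g y) x = c * lap g x := by
  unfold lap
  rw [Finset.mul_sum]
  refine Finset.sum_congr rfl fun j _ => ?_
  have e : pd j (fun y => c * g y) = fun y => c * pd j g y := funext fun y => pd_const c hg j y
  rw [e, pd_const c (pd_smooth hg j)]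

end fields

/-- The value of the defect density. -/
lemma DD_val {T E D : ℝ} {G : Set ℝ} {u : ℝ → V → V} {p : ℝ → V → ℝ} (h : Turb 1 T E D G u p)
    {θ : ℝ → ℝ} (hθ : ContDiff ℝ ∞ θ) {t : ℝ} (ht : t ∈ G) :
    DD 1 u p (fun t x => θ t * ze x) t = deriv θ t * energy (u t) - 2 * θ t * enstrophy (u t) := by
  have su : ContDiff ℝ ∞ (u t) := by
    have h1 : (u t) = (fun z : ℝ × V => u z.1 z.2) ∘ fun x => (t, x) := rfl
    rw [h1, ← contDiffOn_univ]
    exact h.smooth_u.comp (by fun_prop) fun x _ => ⟨ht, trivial⟩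
  have sp : ContDiff ℝ ∞ (p t) := by
    have h1 : (p t) = (fun z : ℝ × V => p z.1 z.2) ∘ fun x => (t, x) := rfl
    rw [h1, ← contDiffOn_univ]
    exact h.smooth_p.comp (by fun_prop) fun x _ => ⟨ht, trivial⟩
  have pu := h.per_u t ht
  have pp := h.per_p t ht
  have cn := nsq_cont su
  have cg' := gsq_cont su
  have e1 : ∫ x, gsq (u t) x * (θ t * ze x) = θ t * enstrophy (u t) := by
    rw [← int_gsq su, ← ze_mean cg' (gsq_per pu), ← integral_const_mul]
    exact integral_congr_ae (Filter.Eventually.of_forall fun x => by ring)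
  have e2 : ∫ x, nsq (u t) x * (deriv (fun s => θ s * ze x) t + 1 * lap (fun y => θ t * ze y) x) =
      deriv θ t * energy (u t) := by
    have i1 : Integrable (fun x => deriv θ t * (nsq (u t) x * ze x)) :=
      (mul_int cn ze_smooth.continuous ze_cpt).const_mul _
    have cl : Continuous (lap ze) := continuous_finsetSum _ fun j _ =>
      (pd_smooth (pd_smooth ze_smooth j) j).continuous
    have hl : HasCompactSupport (lap ze) := by
      refine HasCompactSupport.intro ze_cpt fun x hx => ?_
      unfold lap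
      refine Finset.sum_eq_zero fun j _ => ?_
      have k1 : x ∉ tsupport (pd j (pd j ze)) := by
        intro k2
        apply hx
        have k3 : tsupport (pd j (pd j ze)) ⊆ tsupport ze := by
          have k4 : ∀ g : V → ℝ, tsupport (pd j g) ⊆ tsupport g := by
            intro g
            refine (tsupport_comp_subset (g := fun A : V →L[ℝ] ℝ => A (Pi.single j 1)) (by simp)
              (fderiv ℝ g)).trans ?_
            exact tsupport_fderiv_subset ℝ
          exact (k4 _).trans (k4 _)
        exact k3 k2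
      exact image_eq_zero_of_notMem_tsupport k1
    have i2 : Integrable (fun x => θ t * (nsq (u t) x * lap ze x)) :=
      (mul_int cn cl hl).const_mul _
    have e3 : ∀ x, nsq (u t) x * (deriv (fun s => θ s * ze x) t + 1 * lap (fun y => θ t * ze y) x) =
        deriv θ t * (nsq (u t) x * ze x) + θ t * (nsq (u t) x * lap ze x) := by
      intro x
      rw [lap_const _ ze_smooth, deriv_mul_const ((hθ.differentiable (by simp)) t)]
      ring
    simp_rw [e3]
    rw [integral_add i1 i2, integral_const_mul, integral_const_mul, ze_mean cn (nsq_per pu),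
      ze_lap cn (nsq_per pu), int_nsq su, mul_zero, add_zero]
  have e4 : ∫ x, (nsq (u t) x + 2 * p t x) * adv (u t) (fun y => θ t * ze y) x = 0 := by
    have ch : ∀ j, Continuous (fun x => (nsq (u t) x + 2 * p t x) * u t x j) := fun j =>
      (cn.add (sp.continuous.const_mul 2)).mul (comp_smooth su j).continuous
    have ph : ∀ j, Per (fun x => (nsq (u t) x + 2 * p t x) * u t x j) := by
      intro j i x
      show (nsq (u t) (x + Pi.single i 1) + 2 * p t (x + Pi.single i 1)) * u t (x + Pi.single i 1) j
        = _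
      rw [nsq_per pu i x, pp i x, pu i x]
    have e3 : ∀ x, (nsq (u t) x + 2 * p t x) * adv (u t) (fun y => θ t * ze y) x =
        ∑ j, θ t * (((nsq (u t) x + 2 * p t x) * u t x j) * pd j ze x) := by
      intro x
      unfold adv
      rw [Finset.mul_sum]
      refine Finset.sum_congr rfl fun j _ => ?_
      rw [pd_const _ ze_smooth]
      ring
    simp_rw [e3]
    rw [integral_finsetSum]
    · refine Finset.sum_eq_zero fun j _ => ?_
      rw [integral_const_mul, ze_pd (ch j) (ph j), mul_zero]
    · intro j _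
      exact (mul_int (ch j) (pd_smooth ze_smooth j).continuous (pd_cpt ze_cpt j)).const_mul _
  unfold DD
  rw [e1, e2, e4]
  ring

/-- The energy is continuous on `G`. -/
lemma energy_cont {T E D : ℝ} {G : Set ℝ} {u : ℝ → V → V} {p : ℝ → V → ℝ}
    (h : Turb 1 T E D G u p) : ContinuousOn (fun t => energy (u t)) G := by
  rw [continuousOn_iff_continuous_domRestrict]
  have : LocallyCompactSpace G := h.openG.locallyCompactSpace
  have h1 : Continuous (fun z : G × V => u z.1 z.2) := by
    have h2 := h.smooth_u.continuousOn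
    rw [continuousOn_iff_continuous_domRestrict] at h2
    have h3 : Continuous (fun z : G × V => (⟨(z.1.1, z.2), ⟨z.1.2, trivial⟩⟩ : (G ×ˢ univ : Set (ℝ × V)))) := by
      fun_prop
    exact h2.comp h3
  unfold energy
  refine continuous_finsetSum _ fun i _ => ?_
  refine continuous_parametric_integral_of_continuous (X := G)
    (f := fun (t : G) (x : V) => u t x i ^ 2) ?_ cube_cpt
  exact (((continuous_apply i).comp h1).pow 2)

lemma energy_nonneg (v : V → V) : 0 ≤ energy v :=
  Finset.sum_nonneg fun _ _ => integral_nonneg fun _ => sq_nonneg _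

/-- The test functions. -/
lemma test_prod {T : ℝ} {θ : ℝ → ℝ} (hθ : ContDiff ℝ ∞ θ) (hc : HasCompactSupport θ)
    (hs : tsupport θ ⊆ Ioo 0 T) : Test T (fun t x => θ t * ze x) := by
  have k1 : tsupport (fun z : ℝ × V => θ z.1 * ze z.2) ⊆ tsupport θ ×ˢ tsupport ze := by
    refine closure_minimal ?_ ((isClosed_tsupport θ).prod (isClosed_tsupport ze))
    rintro ⟨a, b⟩ hab
    rw [Function.mem_support] at hab
    exact ⟨subset_tsupport _ (left_ne_zero_of_mul hab), subset_tsupport _ (right_ne_zero_of_mul hab)⟩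
  refine ⟨?_, ?_, ?_⟩
  · exact (hθ.comp contDiff_fst).mul (ze_smooth.comp contDiff_snd)
  · exact (hc.prod ze_cpt).of_isClosed_subset (isClosed_tsupport _) k1
  · intro z hz
    exact ⟨hs (k1 hz).1, trivial⟩

lemma out_zero {θ : ℝ → ℝ} {s t τ : ℝ} (hs : tsupport θ ⊆ Ioo s t) (h : τ ∉ Ioo s t) :
    θ τ = 0 ∧ deriv θ τ = 0 := by
  have h1 : τ ∉ tsupport θ := fun h2 => h (hs h2)
  refine ⟨image_eq_zero_of_notMem_tsupport h1, ?_⟩
  have h2 : τ ∉ tsupport (deriv θ) := fun h3 => h1 (tsupport_deriv_subset h3)
  exact image_eq_zero_of_notMem_tsupport h2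

/-- **From the local energy equality to the energy equality.** -/
theorem main {T E D : ℝ} {G : Set ℝ} {u : ℝ → V → V} {p : ℝ → V → ℝ} (h : Turb 1 T E D G u p)
    (h0 : ∀ φ : ℝ → V → ℝ, Test T φ → (∀ t x, 0 ≤ φ t x) → LL G u p φ = 0)
    {s t : ℝ} (hs : s ∈ G) (ht : t ∈ G) (hst : s ≤ t) :
    energy (u t) - energy (u s) = -2 * ∫ τ in Ioo s t, enstrophy (u τ) := by
  have sub1 : Ioo s t ⊆ Ioo 0 T := Ioo_subset_Ioo (h.subG hs).1.le (h.subG ht).2.le
  have mG : MeasurableSet G := h.openG.measurableSet
  have key : ∀ θ : ℝ → ℝ, ContDiff ℝ ∞ θ → HasCompactSupport θ → tsupport θ ⊆ Ioo s t →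
      (∀ τ, 0 ≤ θ τ) → ∫ τ in Ioo s t ∩ G, (deriv θ τ * energy (u τ) +
        θ τ * (-2 * enstrophy (u τ))) = 0 := by
    intro θ h1 h2 h3 h4
    have k1 := h0 _ (test_prod h1 h2 (h3.trans sub1)) fun τ x => mul_nonneg (h4 τ) (ze_nonneg x)
    rw [LL, setIntegral_congr_fun mG (fun τ hτ => DD_val h h1 hτ)] at k1
    rw [inter_comm, ← k1]
    have k2 : ∀ τ ∈ G \ (G ∩ Ioo s t), deriv θ τ * energy (u τ) - 2 * θ τ * enstrophy (u τ) = 0 := by
      intro τ hτ
      have k3 : τ ∉ Ioo s t := fun k4 => hτ.2 ⟨hτ.1, k4⟩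
      rw [(out_zero h3 k3).1, (out_zero h3 k3).2]
      ring
    have k5 := setIntegral_eq_of_subset_of_forall_sdiff_eq_zero (μ := volume) mG inter_subset_left k2
    rw [k5]
    refine setIntegral_congr_fun (mG.inter measurableSet_Ioo) fun τ _ => ?_
    show deriv θ τ * energy (u τ) + θ τ * (-2 * enstrophy (u τ)) = _
    ring
  have cE := energy_cont h
  have iE : IntegrableOn (fun τ => energy (u τ)) (Ioo s t ∩ G) := by
    have f1 : volume (Ioo s t ∩ G) < ⊤ :=
      lt_of_le_of_lt (measure_mono inter_subset_left) measure_Ioo_lt_top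
    have f2 : IsFiniteMeasure (volume.restrict (Ioo s t ∩ G)) := ⟨by simpa using f1⟩
    refine Integrable.of_bound
      ((cE.mono inter_subset_right).aestronglyMeasurable (measurableSet_Ioo.inter mG)) (E ^ 2) ?_
    refine (ae_restrict_iff' (measurableSet_Ioo.inter mG)).2 (Filter.Eventually.of_forall ?_)
    intro τ hτ
    rw [Real.norm_eq_abs, abs_of_nonneg (energy_nonneg _)]
    exact h.energy_le τ hτ.2
  have iS : IntegrableOn (fun τ => -2 * enstrophy (u τ)) (Ioo s t ∩ G) :=
    (h.enst_int.mono_set inter_subset_right).const_mul _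
  have a1 := Pool.Agent.Y494.NS.t_TCUT G s t (fun τ => energy (u τ)) (fun τ => -2 * enstrophy (u τ))
    h.openG hs ht hst cE iE iS fun θ h1 h2 h3 h4 => (key θ h1 h2 h3 h4).ge
  have a2 := Pool.Agent.Y494.NS.t_TCUT G s t (fun τ => -energy (u τ))
    (fun τ => -(-2 * enstrophy (u τ))) h.openG hs ht hst cE.neg iE.neg iS.neg
    fun θ h1 h2 h3 h4 => by
      have k := key θ h1 h2 h3 h4
      have k1 : ∫ τ in Ioo s t ∩ G, (deriv θ τ * -energy (u τ) + θ τ * -(-2 * enstrophy (u τ))) =
          -∫ τ in Ioo s t ∩ G, (deriv θ τ * energy (u τ) + θ τ * (-2 * enstrophy (u τ))) := by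
        rw [← integral_neg]
        congr 1
        ext τ
        ring
      rw [k1, k, neg_zero]
  have a3 : ∫ τ in Ioo s t ∩ G, -(-2 * enstrophy (u τ)) =
      -∫ τ in Ioo s t ∩ G, -2 * enstrophy (u τ) := integral_neg _
  have a4 : ∫ τ in Ioo s t ∩ G, -2 * enstrophy (u τ) = -2 * ∫ τ in Ioo s t, enstrophy (u τ) := by
    rw [integral_const_mul]
    congr 1
    refine setIntegral_congr_set ?_
    refine (inter_subset_left).eventuallyLE.antisymm ?_
    rw [ae_le_set]
    refine measure_mono_null ?_ h.fullG
    rintro τ ⟨h1, h2⟩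
    exact ⟨sub1 h1, fun h3 => h2 ⟨h1, h3⟩⟩
  rw [← a4]
  have b1 : energy (u t) - energy (u s) ≤ ∫ τ in Ioo s t ∩ G, -2 * enstrophy (u τ) := a1
  have b2 : -energy (u t) - -energy (u s) ≤ ∫ τ in Ioo s t ∩ G, -(-2 * enstrophy (u τ)) := a2
  rw [a3] at b2
  linarith

end Pool.Agent.N976.EQ.E4

namespace Pool.Agent.N976.EQ

theorem t_E4 : S_E4 := fun _ _ _ _ _ _ h h0 _ hs _ ht hst => E4.main h h0 hs ht hst

end Pool.Agent.N976.EQ
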