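import Pool.Agent.N976.EQ.Stm
import Pool.Agent.N976.TL.C1
import Pool.Agent.N976.TL.C2
import Pool.Agent.N976.TL.D2

/-!
Project EQ (helper976), parts QC and EQ0 (helper593): the choice of the level, and the local energy
equality from the covers.
-/

set_option autoImplicit false

open MeasureTheory Set Metric
open scoped ContDiff ENNReal

namespace Pool.Agent.N976.EQ

open H459R3.NS W221.NS Pool.Agent.Y8 Pool.Agent.N977.H Pool.Agent.N976.TL

namespace EQ0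

open Filter in
lemma growth {M γ : ℝ} (hM : 1 ≤ M) (hγ0 : 0 ≤ γ) (hγ : γ < 2) {η : ℝ} (hη : 0 < η) :
    ∀ᶠ J : ℕ in atTop, M * (1 + (J : ℝ)) ^ γ * (1 + Real.log J) ^ 6 ≤ η * (J : ℝ) ^ 2 := by
  have hM0 : 0 < M := by linarith
  have he : 0 < Real.exp 1 := Real.exp_pos 1
  have h1 : ∀ᶠ x : ℝ in atTop, ‖Real.log x ^ (6 : ℝ)‖
      ≤ (η / (4 * M * Real.exp 1 ^ 2)) * ‖x ^ (2 - γ)‖ :=
    (isLittleO_log_rpow_rpow_atTop 6 (by linarith)).def (by positivity)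
  have h2 : Tendsto (fun J : ℕ => Real.exp 1 * (J : ℝ)) atTop atTop :=
    tendsto_natCast_atTop_atTop.const_mul_atTop (Real.exp_pos 1)
  filter_upwards [h2.eventually h1, eventually_ge_atTop 1] with J hJ hJ1
  have hJ1' : (1 : ℝ) ≤ J := by exact_mod_cast hJ1
  have hJ0 : (0 : ℝ) < J := by linarith
  have hl : 0 ≤ Real.log J := Real.log_nonneg hJ1'
  have h3 : Real.log (Real.exp 1 * J) = 1 + Real.log J := by
    rw [Real.log_mul (Real.exp_pos 1).ne' hJ0.ne', Real.log_exp]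
  rw [h3, Real.norm_of_nonneg (by positivity), Real.norm_of_nonneg (by positivity)] at hJ
  have h3' : (1 + Real.log J) ^ (6 : ℝ) = (1 + Real.log J) ^ 6 := by
    rw [← Real.rpow_natCast]
    norm_num
  rw [h3'] at hJ
  have h4 : (Real.exp 1 * J) ^ (2 - γ) ≤ Real.exp 1 ^ 2 * (J : ℝ) ^ (2 - γ) := by
    rw [Real.mul_rpow he.le hJ0.le]
    refine mul_le_mul_of_nonneg_right ?_ (by positivity)
    have : Real.exp 1 ^ (2 - γ) ≤ Real.exp 1 ^ (2 : ℝ) :=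
      Real.rpow_le_rpow_of_exponent_le (by linarith [Real.add_one_le_exp (1 : ℝ)]) (by linarith)
    refine this.trans (le_of_eq ?_)
    rw [← Real.rpow_natCast]
    norm_num
  have h5 : (1 + (J : ℝ)) ^ γ ≤ 4 * (J : ℝ) ^ γ := by
    calc (1 + (J : ℝ)) ^ γ ≤ (2 * (J : ℝ)) ^ γ :=
          Real.rpow_le_rpow (by positivity) (by linarith) hγ0
      _ = 2 ^ γ * (J : ℝ) ^ γ := Real.mul_rpow (by norm_num) hJ0.le
      _ ≤ 4 * (J : ℝ) ^ γ := by
          refine mul_le_mul_of_nonneg_right ?_ (by positivity)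
          calc (2 : ℝ) ^ γ ≤ 2 ^ (2 : ℝ) :=
                Real.rpow_le_rpow_of_exponent_le (by norm_num) hγ.le
            _ = 4 := by norm_num
  calc M * (1 + (J : ℝ)) ^ γ * (1 + Real.log J) ^ 6
      ≤ M * (4 * (J : ℝ) ^ γ) * (η / (4 * M * Real.exp 1 ^ 2) *
          (Real.exp 1 ^ 2 * (J : ℝ) ^ (2 - γ))) := by
        refine mul_le_mul (mul_le_mul_of_nonneg_left h5 hM0.le) (hJ.trans ?_) (by positivity)
          (by positivity)
        exact mul_le_mul_of_nonneg_left h4 (by positivity)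
    _ = η * ((J : ℝ) ^ γ * (J : ℝ) ^ (2 - γ)) := by
        field_simp
    _ = η * (J : ℝ) ^ 2 := by
        rw [← Real.rpow_add hJ0, ← Real.rpow_natCast]
        norm_num

/-- The density. -/
lemma dens' {C D M A : ℝ} (hC : 0 < C) (hM : 0 ≤ M) (hA : 1 ≤ A) {i : ℕ} (g : ℕ → ℝ≥0∞)
    (h1 : ∀ j < i, g j ≤ ENNReal.ofReal (M * A * rr j)) :
    ENNReal.ofReal C * (∑ j ∈ Finset.range i, ENNReal.ofReal ((1 / 8) ^ (i - j)) * g j
      + ENNReal.ofReal ((1 / 8) ^ i * D)) ≤ ENNReal.ofReal ((1 + C * (M + |D|)) * A * rr i) := by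
  have hri := rr0 i
  have hA0 : 0 < A := by linarith
  have h4 : ∀ j ∈ Finset.range i, ENNReal.ofReal ((1 / 8) ^ (i - j)) * g j
      ≤ ENNReal.ofReal ((1 / 2) ^ (i - j) * (M * A * rr i)) := by
    intro j hj
    rw [Finset.mem_range] at hj
    refine (mul_le_mul_right (h1 j hj) _).trans ?_
    rw [← ENNReal.ofReal_mul (by positivity)]
    apply ENNReal.ofReal_le_ofReal
    have e1 : rr i = (1 / 2) ^ (i - j) * rr j := D1.rr_mul hj.le
    have e2 : ((1 : ℝ) / 8) ^ (i - j) = (1 / 4) ^ (i - j) * (1 / 2) ^ (i - j) := by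
      rw [← mul_pow]
      norm_num
    have e3 : ((1 : ℝ) / 4) ^ (i - j) ≤ (1 / 2) ^ (i - j) :=
      pow_le_pow_left₀ (by norm_num) (by norm_num) _
    have e4 : (1 / 8) ^ (i - j) * (M * A * rr j) = (1 / 4) ^ (i - j) * (M * A * rr i) := by
      rw [e2, e1]
      ring
    rw [e4]
    exact mul_le_mul_of_nonneg_right e3 (by positivity)
  have h5 : ∑ j ∈ Finset.range i, ENNReal.ofReal ((1 / 8) ^ (i - j)) * g j
      ≤ ENNReal.ofReal (M * A * rr i) := by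
    refine (Finset.sum_le_sum h4).trans ?_
    rw [← ENNReal.ofReal_sum_of_nonneg (fun j _ => by positivity), ← Finset.sum_mul]
    apply ENNReal.ofReal_le_ofReal
    have := D2.sum_half i
    have h6 : 0 ≤ M * A * rr i := by positivity
    nlinarith
  have h6 : ENNReal.ofReal ((1 / 8) ^ i * D) ≤ ENNReal.ofReal (|D| * A * rr i) := by
    apply ENNReal.ofReal_le_ofReal
    have e1 : ((1 : ℝ) / 8) ^ i ≤ rr i := by
      unfold rr
      exact pow_le_pow_left₀ (by norm_num) (by norm_num) _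
    have e0 : |D| ≤ |D| * A := le_mul_of_one_le_right (abs_nonneg D) hA
    calc (1 / 8) ^ i * D ≤ (1 / 8) ^ i * |D| := by
          gcongr
          exact le_abs_self D
      _ ≤ rr i * |D| := by gcongr
      _ ≤ rr i * (|D| * A) := by gcongr
      _ = |D| * A * rr i := by ring
  calc _ ≤ ENNReal.ofReal C * (ENNReal.ofReal (M * A * rr i) + ENNReal.ofReal (|D| * A * rr i)) :=
        mul_le_mul_right (add_le_add h5 h6) _
    _ = ENNReal.ofReal (C * (M * A * rr i + |D| * A * rr i)) := by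
        rw [← ENNReal.ofReal_add (by positivity) (by positivity), ← ENNReal.ofReal_mul hC.le]
    _ ≤ _ := by
        apply ENNReal.ofReal_le_ofReal
        have : 0 ≤ A * rr i := by positivity
        nlinarith

lemma gr_mono {G : Set ℝ} {u : ℝ → V → V} {γ M M' : ℝ} {z : ℝ × V} (h : Gr G u γ M z)
    (hM : M ≤ M') : Gr G u γ M' z := by
  intro i
  refine (h i).trans (ENNReal.ofReal_le_ofReal ?_)
  have h0 := rr0 i
  have h1 : (0 : ℝ) ≤ (1 + (i : ℝ)) ^ γ := by positivity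
  gcongr

lemma ex_level {T : ℝ} {K : Set (ℝ × V)} (hK : IsCompact K) (hs : K ⊆ Ioo 0 T ×ˢ univ) :
    ∃ k₀ : ℕ, 3 ≤ k₀ ∧ ∀ z ∈ K, 2 * rr k₀ ^ 2 < z.1 ∧ z.1 + rr k₀ ^ 2 < T := by
  rcases K.eq_empty_or_nonempty with h | hne
  · exact ⟨3, le_rfl, fun z hz => by simp [h] at hz⟩
  · obtain ⟨a, ha, hmin⟩ := hK.exists_isMinOn hne continuous_fst.continuousOn
    obtain ⟨b, hb, hmax⟩ := hK.exists_isMaxOn hne continuous_fst.continuousOn
    have ha1 := (hs ha).1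
    have hb1 := (hs hb).1
    obtain ⟨n1, hn1⟩ := C2.c2_exists_rr (a := min (a.1 / 2) (T - b.1))
      (lt_min (by linarith [ha1.1]) (by linarith [hb1.2]))
    refine ⟨max 3 n1, le_max_left _ _, fun z hz => ?_⟩
    have h1 := hn1 (max 3 n1) (le_max_right _ _)
    have h2 := C2.c2_rr_sq (max 3 n1)
    have h3 := h1.trans_le (min_le_left _ _)
    have h4 := h1.trans_le (min_le_right _ _)
    have h5 : a.1 ≤ z.1 := hmin hz
    have h6 : z.1 ≤ b.1 := hmax hz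
    constructor <;> linarith

end EQ0

open EQ0

/-- **EQ/QC** -/
theorem t_QC : S_QC := by
  intro P B D M γ δ k₀ hP hB hD hM hγ0 hγ hδ
  obtain ⟨g, hg⟩ : ∃ g : ℕ → ℝ, g = fun J : ℕ => M * (1 + (J : ℝ)) ^ γ := ⟨_, rfl⟩
  have hg1 : ∀ J, 1 ≤ g J := by
    intro J
    rw [hg]
    have h1 : (1 : ℝ) ≤ (1 + (J : ℝ)) ^ γ :=
      Real.one_le_rpow (by linarith [Nat.cast_nonneg (α := ℝ) J]) hγ0
    show 1 ≤ M * (1 + (J : ℝ)) ^ γ
    nlinarith
  obtain ⟨J, hJ, Λ, hΛ, h1, h2, h3⟩ := t_C1 P B (max D 1) (min δ 1) k₀ k₀ g hP hB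
    (le_max_of_le_right zero_le_one) (lt_min hδ one_pos) (fun i => zero_le_one.trans (hg1 i))
    (by
      intro η hη n
      obtain ⟨N, hN⟩ := Filter.eventually_atTop.1 (growth hM hγ0 hγ hη)
      refine ⟨max n N, le_max_left _ _, ?_⟩
      have := hN (max n N) (le_max_right _ _)
      rw [hg]
      exact this)
  have hgJ := hg1 J
  have hgΛ : g J ≤ Λ := by
    have h4 : g J * (1 / Λ) ≤ 1 := by
      calc g J * (1 / Λ) ≤ g J * (max D 1 / Λ) := by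
            have : 0 ≤ g J := by linarith
            gcongr
            exact le_max_right _ _
        _ ≤ min δ 1 := h2
        _ ≤ 1 := min_le_right _ _
    rw [mul_one_div, div_le_one (by linarith)] at h4
    exact h4
  have hlg : Real.log (g J) ≤ Real.log Λ := Real.log_le_log (by linarith) hgΛ
  have hlg0 : 0 ≤ Real.log (g J) := Real.log_nonneg hgJ
  have hP0 : 0 < P := by linarith
  have hJ0 : (0 : ℝ) ≤ J := Nat.cast_nonneg J
  have hPl : P * (k₀ + 1 + Real.log B + Real.log (g J)) ≤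
      P * (k₀ + 1 + Real.log B + Real.log Λ) := by
    gcongr
  have egJ : g J = M * (1 + (J : ℝ)) ^ γ := by rw [hg]
  refine ⟨J, hJ, ?_, ?_⟩
  · rw [← egJ]
    linarith
  · rw [← egJ]
    have hE : Real.exp (-(J - P * (k₀ + 1 + Real.log B + Real.log (g J))) /
        (P * √(g J) * (1 + Real.log (g J)) ^ 2)) ≤
        Real.exp (-(J - P * (k₀ + 1 + Real.log B + Real.log Λ)) /
        (P * √Λ * (1 + Real.log Λ) ^ 2)) := by
      apply Real.exp_le_exp.2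
      rw [neg_div, neg_div, neg_le_neg_iff]
      have hs : 0 < √(g J) := Real.sqrt_pos.2 (by linarith)
      apply div_le_div₀
      · linarith
      · linarith
      · positivity
      · gcongr
    have hmd : (0 : ℝ) < max D 1 := lt_max_of_lt_right one_pos
    obtain ⟨Y, hY⟩ : ∃ Y, Y = Real.exp (-(J - P * (k₀ + 1 + Real.log B + Real.log Λ)) /
        (P * √Λ * (1 + Real.log Λ) ^ 2)) := ⟨_, rfl⟩
    obtain ⟨Z, hZ⟩ : ∃ Z, Z = Real.exp (-(J - P * (k₀ + 1 + Real.log B + Real.log (g J))) /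
        (P * √(g J) * (1 + Real.log (g J)) ^ 2)) := ⟨_, rfl⟩
    rw [← hY] at h3 hE
    rw [← hZ] at hE ⊢
    have hZ0 : 0 ≤ Z := by rw [hZ]; positivity
    have hY0 : 0 ≤ Y := by rw [hY]; positivity
    have hX : 0 ≤ P * Λ ^ P * max D 1 * Y := by positivity
    calc P * (g J) ^ P * D * Z ≤ P * Λ ^ P * max D 1 * Y := by
          have e1 : (g J) ^ P ≤ Λ ^ P := Real.rpow_le_rpow (by linarith) hgΛ hP0.le
          have e2 : 0 ≤ (g J) ^ P := Real.rpow_nonneg (by linarith) _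
          have e3 : D ≤ max D 1 := le_max_left _ _
          gcongr
      _ ≤ g J * (P * Λ ^ P * max D 1 * Y) := le_mul_of_one_le_left hX hgJ
      _ ≤ min δ 1 := h3
      _ ≤ δ := min_le_left _ _

/-- **EQ/EQ0** -/
theorem t_EQ0 : S_Q9 → S_QT → S_QC → S_EC → S_D1 → S_EQ0 := by
  classical
  rintro ⟨m, C, θ, hm, hC, hθ, h9⟩ hQT hQC hEC ⟨C₁, hC₁, hD1⟩ T E D G u p hN γ hγ0 hγ2 φ hφ hφ0
    hGr
  obtain ⟨P, hP, hT⟩ := hQT m C θ (by omega) hC hθ
  obtain ⟨B, hB, h9'⟩ := h9 T E D G u p hN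
  obtain ⟨Kφ, hKφ⟩ : ∃ K, K = tsupport (fun z : ℝ × V => φ z.1 z.2) := ⟨_, rfl⟩
  rw [← hKφ] at hGr
  have hKc : IsCompact Kφ := by rw [hKφ]; exact hφ.cpt
  have hKs : Kφ ⊆ Ioo 0 T ×ˢ univ := by rw [hKφ]; exact hφ.supp
  obtain ⟨k₀, hk3, hk⟩ := ex_level hKc hKs
  obtain ⟨L₀, hL₀⟩ := hKc.isBounded.exists_norm_le
  have hL : ∀ z ∈ Kφ, ‖z.2‖ < L₀ + 1 := fun z hz => by
    have h1 : ‖z.2‖ ≤ ‖z‖ := norm_snd_le z
    linarith [hL₀ z hz]
  obtain ⟨F, hF⟩ : ∃ F, F = Y7.FtG 16 G u := ⟨_, rfl⟩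
  have hFm : Measurable F := by rw [hF]; exact Y7.FtG_meas 16 hN
  have hfin : ∫⁻ q in Nb Kφ k₀, F q ≠ ⊤ := by
    rw [hF]
    exact D2.nb_fin hN hL k₀
  obtain ⟨D₀, hD₀⟩ : ∃ D₀, D₀ = (∫⁻ q in Nb Kφ k₀, F q).toReal := ⟨_, rfl⟩
  have hD0 : 0 ≤ D₀ := by rw [hD₀]; exact ENNReal.toReal_nonneg
  have hFD : ∫⁻ q in Nb Kφ k₀, F q ≤ ENNReal.ofReal D₀ := by
    rw [hD₀, ENNReal.ofReal_toReal hfin]
  refine hEC T E D G u p hN φ hφ hφ0 fun ε hε => ?_
  rw [← hKφ]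
  have hPX : ∀ z : ℝ × V, z ∈ Kφ ∧ SingPt G u z.1 z.2 → ∃ e X : ℕ → ℝ,
      PtD (Y7.FtG 16 G u) m C θ B k₀ z e X ∧
      ∀ i ≥ k₀, ∀ φ : ℝ → V → ℝ, Test T φ → (∀ t x, 0 ≤ φ t x) → (∀ t x, φ t x ≤ 1) →
        tsupport (fun z : ℝ × V => φ z.1 z.2) ⊆ Cy (i + 3) z →
        LL G u p φ ≤ C * rr i * ((1 + √(X i)) * e i + e i ^ 2) := fun z hz =>
    h9' k₀ z hk3 (hk z hz.1).1 (hk z hz.1).2 hz.2
  choose! e X hPD hLL using hPX
  have key : ∀ n : ℕ, ∃ (U : Set (ℝ × V)) (l : ℝ × V → ℕ), U.Countable ∧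
      U ⊆ {z | z ∈ Kφ ∧ SingPt G u z.1 z.2 ∧ Gr G u γ n z} ∧ (∀ z ∈ U, k₀ ≤ l z) ∧
      {z | z ∈ Kφ ∧ SingPt G u z.1 z.2 ∧ Gr G u γ n z} ⊆ ⋃ z ∈ U, Cy (l z + 3) z ∧
      ∑' z : U, ENNReal.ofReal (C * rr (l z) * ((1 + √(X z (l z))) * e z (l z) + e z (l z) ^ 2))
        ≤ ENNReal.ofReal (ε / 2 * (1 / 2) ^ n) := by
    intro n
    have hn0 : (0 : ℝ) ≤ n := Nat.cast_nonneg n
    have hMn : 1 ≤ 1 + C₁ * (n + |D|) := by
      have : 0 ≤ C₁ * (n + |D|) := by positivity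
      linarith
    obtain ⟨J, hJk, hJ1, hJ2⟩ := hQC P B D₀ (1 + C₁ * (n + |D|)) γ (ε / 2 * (1 / 2) ^ n / C) k₀
      hP hB hD0 hMn hγ0 hγ2 (by positivity)
    have hA : (1 : ℝ) ≤ (1 + (J : ℝ)) ^ γ :=
      Real.one_le_rpow (by linarith [Nat.cast_nonneg (α := ℝ) J]) hγ0
    have hΛ : 1 ≤ (1 + C₁ * (n + |D|)) * (1 + (J : ℝ)) ^ γ := by nlinarith
    obtain ⟨U, l, h1, h2, h3, h4, h5⟩ := hT F hFm
      {z | z ∈ Kφ ∧ SingPt G u z.1 z.2 ∧ Gr G u γ n z} B D₀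
      ((1 + C₁ * (n + |D|)) * (1 + (J : ℝ)) ^ γ) k₀ J e X hB hD0 hΛ
      (fun z hz => by
        rw [hF]
        exact hPD z ⟨hz.1, hz.2.1⟩)
      (fun z hz i _ hiJ => by
        rw [hF]
        refine (hD1 T E D G u p hN z i).trans (dens' hC₁ hn0 hA _ fun j hj => ?_)
        refine (hz.2.2 j).trans (ENNReal.ofReal_le_ofReal ?_)
        have h0 := rr0 j
        have h6 : (1 + (j : ℝ)) ^ γ ≤ (1 + (J : ℝ)) ^ γ := by
          apply Real.rpow_le_rpow (by positivity) _ hγ0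
          have : (j : ℝ) ≤ J := by exact_mod_cast (hj.le.trans hiJ)
          linarith
        gcongr)
      ((lintegral_mono_set (C2.c2_nb_mono (fun z hz => hz.1) k₀)).trans hFD) hJ1
    refine ⟨U, l, h1, h2, h3, h4, ?_⟩
    have e1 : ∀ z : U, ENNReal.ofReal (C * rr (l z) * ((1 + √(X z (l z))) * e z (l z)
        + e z (l z) ^ 2)) = ENNReal.ofReal C * ENNReal.ofReal (rr (l z) *
          ((1 + √(X z (l z))) * e z (l z) + e z (l z) ^ 2)) := by
      intro z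
      rw [← ENNReal.ofReal_mul hC.le, mul_assoc]
    simp_rw [e1]
    rw [ENNReal.tsum_mul_left]
    refine (mul_le_mul_right (h5.trans (ENNReal.ofReal_le_ofReal hJ2)) _).trans ?_
    rw [← ENNReal.ofReal_mul hC.le]
    apply ENNReal.ofReal_le_ofReal
    rw [mul_div_cancel₀ _ hC.ne']
  choose U l hUc hUK hUl hUcov hUsum using key
  haveI : ∀ n, Countable (U n) := fun n => (hUc n).to_subtype
  refine ⟨(n : ℕ) × (U n), inferInstance, fun i => Cy (l i.1 i.2 + 3) i.2,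
    fun i => C * rr (l i.1 i.2) * ((1 + √(X i.2 (l i.1 i.2))) * e i.2 (l i.1 i.2)
      + e i.2 (l i.1 i.2) ^ 2), ?_, ?_, ?_, ?_, ?_⟩
  · intro i
    exact isOpen_Ioo.prod isOpen_ball
  · rintro ⟨n, z, hz⟩
    have h1 := (hPD z ⟨(hUK n hz).1, (hUK n hz).2.1⟩).e0 (l n z)
    have h2 := rr0 (l n z)
    show 0 ≤ C * rr (l n z) * ((1 + √(X z (l n z))) * e z (l n z) + e z (l n z) ^ 2)
    positivity
  · rw [ENNReal.tsum_sigma']
    refine (ENNReal.tsum_le_tsum fun n => hUsum n).trans ?_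
    have hs : HasSum (fun n : ℕ => ε / 2 * (1 / 2) ^ n) (ε / 2 * 2) :=
      hasSum_geometric_two.mul_left (ε / 2)
    rw [← ENNReal.ofReal_tsum_of_nonneg (fun n => by positivity) hs.summable, hs.tsum_eq]
    apply ENNReal.ofReal_le_ofReal
    linarith
  · intro z hz hsing
    obtain ⟨M, hM⟩ := hGr z hz hsing
    obtain ⟨n, hn⟩ := exists_nat_ge M
    have h1 := hUcov n (show z ∈ {z | z ∈ Kφ ∧ SingPt G u z.1 z.2 ∧ Gr G u γ n z} from
      ⟨hz, hsing, gr_mono hM hn⟩)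
    obtain ⟨w, hw, hzw⟩ := mem_iUnion₂.1 h1
    exact ⟨⟨n, w, hw⟩, hzw⟩
  · rintro ⟨n, z, hz⟩ ψ hψ hψ0 hψ1 hψs
    exact hLL z ⟨(hUK n hz).1, (hUK n hz).2.1⟩ (l n z) (hUl n z hz) ψ hψ hψ0 hψ1 hψs

end Pool.Agent.N976.EQ
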