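import Pool.Agent.N976.EQ.Stm
import Pool.Agent.N976.TL.D2
import Pool.Agent.N976.TL.Fin2

/-!
The final form of the theorem on the energy equality: viscosity (helper976).
-/

set_option autoImplicit false

open MeasureTheory Set Metric
open scoped ContDiff ENNReal

namespace Pool.Agent.N976.EQ

open H459R3.NS W221.NS Pool.Agent.Y8 Pool.Agent.N977.H Pool.Agent.N976.TL Pool.Agent.Y96.NS

/-- Scaling of the test functions. -/
theorem test_div {ν T : ℝ} (hν : 0 < ν) {φ : ℝ → V → ℝ} (h : Test T φ) :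
    Test (ν * T) (fun s x => φ (s / ν) x) := by
  have h1 : Test (ν⁻¹ * (ν * T)) φ := by
    rwa [← mul_assoc, inv_mul_cancel₀ hν.ne', one_mul]
  have h2 := test_mul (inv_pos.2 hν) h1
  have e : (fun s x => φ (ν⁻¹ * s) x) = fun s x => φ (s / ν) x := by
    funext s x
    rw [div_eq_inv_mul]
  rwa [e] at h2

/-- The singular points of the rescaled solution. -/
theorem sing_div {ν : ℝ} (hν : 0 < ν) {G : Set ℝ} {u : ℝ → V → V} {t : ℝ} {x : V}
    (h : SingPt {t | t / ν ∈ G} (fun t x => ν⁻¹ • u (t / ν) x) t x) : SingPt G u (t / ν) x := by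
  intro δ hδ B
  obtain ⟨s, hsG, hst, y, hy, hB⟩ := h (min (ν * δ) δ) (by positivity) (ν⁻¹ * B)
  refine ⟨s / ν, hsG, ?_, y, ball_subset_ball (min_le_right _ _) hy, ?_⟩
  · rw [← sub_div, abs_div, abs_of_pos hν, div_lt_iff₀ hν, mul_comm]
    exact hst.trans_le (min_le_left _ _)
  · simp only [norm_smul, Real.norm_of_nonneg (inv_pos.2 hν).le] at hB
    exact lt_of_mul_lt_mul_left hB (inv_pos.2 hν).le

/-- The bound of the density. -/
theorem gr_of {ν T E D : ℝ} {G : Set ℝ} {u : ℝ → V → V} {p : ℝ → V → ℝ} (hν : 0 < ν)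
    (hN : Turb ν T E D G u p) {γ : ℝ} (t : ℝ) (x : V) {K r₀ : ℝ} (hr₀ : 0 < r₀)
    (h : ∀ r ∈ Ioo 0 r₀,
      ∫⁻ q in {q : ℝ × V | q.1 ∈ G ∧ ν * |q.1 - t| < r ^ 2 ∧ ‖q.2 - x‖ < r},
        ENNReal.ofReal (gsq (u q.1) q.2) ≤ ENNReal.ofReal (K * r * (1 + |Real.log r|) ^ γ)) :
    ∃ M : ℝ, Gr {t | t / ν ∈ G} (fun t x => ν⁻¹ • u (t / ν) x) (max γ 0) M (ν * t, x) := by
  have h1 := (t_WSCAL ν T E D G u p hν hN).1
  obtain ⟨C, hC, hb⟩ := D2.gG_bd
  obtain ⟨k, hk⟩ := ex_rr (half_pos hr₀)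
  set M₁ : ℝ := |K| / ν with hM₁
  set M₂ : ℝ := C * |D / ν| / rr k with hM₂
  have hrk := rr0 k
  have h10 : 0 ≤ M₁ := by positivity
  have h20 : 0 ≤ M₂ := by positivity
  refine ⟨M₁ + M₂, fun i => ?_⟩
  have hi : (1 : ℝ) ≤ 1 + i := by
    have := Nat.cast_nonneg (α := ℝ) i
    linarith
  have hg1 : (1 : ℝ) ≤ (1 + (i : ℝ)) ^ max γ 0 := Real.one_le_rpow hi (le_max_right _ _)
  have hri := rr0 i
  rcases le_or_gt k i with hki | hki
  · have h3 : rr i < r₀ := ((rr_anti hki).trans hk).trans_lt (half_lt_self hr₀)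
    have h4 := h (rr i) ⟨hri, h3⟩
    have hlog : |Real.log (rr i)| ≤ i := by
      have h5 : Real.log (rr i) = -(i * Real.log 2) := by
        unfold rr
        rw [Real.log_pow, one_div, Real.log_inv]
        ring
      rw [h5, abs_neg, abs_mul, Nat.abs_cast, abs_of_pos (Real.log_pos (by norm_num))]
      have h6 : Real.log 2 ≤ 1 := by
        have := Real.log_two_lt_d9
        linarith
      nlinarith [Nat.cast_nonneg (α := ℝ) i]
    have hlog1 : (1 + |Real.log (rr i)|) ^ γ ≤ (1 + (i : ℝ)) ^ max γ 0 := by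
      have h7 : 1 ≤ 1 + |Real.log (rr i)| := by linarith [abs_nonneg (Real.log (rr i))]
      exact (Real.rpow_le_rpow_of_exponent_le h7 (le_max_left γ 0)).trans
        (Real.rpow_le_rpow (by linarith) (by linarith) (le_max_right _ _))
    have h5 := dens_scale hν hN i t x (M := M₁ * (1 + (i : ℝ)) ^ max γ 0) (by positivity) (by
      refine h4.trans (ENNReal.ofReal_le_ofReal ?_)
      have e : M₁ * (1 + (i : ℝ)) ^ max γ 0 * ν * rr i = |K| * rr i * (1 + (i : ℝ)) ^ max γ 0 := by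
        rw [hM₁]
        field_simp
      rw [e]
      exact mul_le_mul (mul_le_mul_of_nonneg_right (le_abs_self K) hri.le) hlog1
        (by positivity) (by positivity))
    refine h5.trans (ENNReal.ofReal_le_ofReal ?_)
    have : 0 ≤ M₂ * (1 + (i : ℝ)) ^ max γ 0 * rr i := by positivity
    nlinarith
  · refine (hb _ _ _ _ _ _ h1 (ν * t, x) i).trans (ENNReal.ofReal_le_ofReal ?_)
    have h6 : rr k ≤ rr i := rr_anti hki.le
    have h7 : C * |D / ν| ≤ M₂ * rr i := by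
      rw [hM₂, div_mul_eq_mul_div, le_div_iff₀ hrk]
      exact mul_le_mul_of_nonneg_left h6 (by positivity)
    have h8 : M₂ * rr i ≤ M₂ * (1 + (i : ℝ)) ^ max γ 0 * rr i := by
      have : M₂ * 1 ≤ M₂ * (1 + (i : ℝ)) ^ max γ 0 := mul_le_mul_of_nonneg_left hg1 h20
      nlinarith
    have h9 : 0 ≤ M₁ * (1 + (i : ℝ)) ^ max γ 0 * rr i := by positivity
    nlinarith

/-- The local energy equality. -/
theorem fin_loc (h0 : S_EQ0) {ν T E D : ℝ} {G : Set ℝ} {u : ℝ → V → V} {p : ℝ → V → ℝ}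
    (hν : 0 < ν) (hN : Turb ν T E D G u p) {γ : ℝ} (hγ : γ < 2) {φ : ℝ → V → ℝ} (hφ : Test T φ)
    (hφ0 : ∀ t x, 0 ≤ φ t x)
    (hd : ∀ t x, (t, x) ∈ tsupport (fun z : ℝ × V => φ z.1 z.2) → SingPt G u t x →
      ∃ K : ℝ, ∃ r₀ > 0, ∀ r ∈ Ioo 0 r₀,
      ∫⁻ q in {q : ℝ × V | q.1 ∈ G ∧ ν * |q.1 - t| < r ^ 2 ∧ ‖q.2 - x‖ < r},
        ENNReal.ofReal (gsq (u q.1) q.2) ≤ ENNReal.ofReal (K * r * (1 + |Real.log r|) ^ γ)) :
    ∫ t in G, DD ν u p φ t = 0 := by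
  have h1 := (t_WSCAL ν T E D G u p hν hN).1
  have h2 := h0 _ _ _ _ _ _ h1 (max γ 0) (le_max_right _ _) (max_lt hγ (by norm_num))
    (fun s x => φ (s / ν) x) (test_div hν hφ) (fun t x => hφ0 _ _) (by
      intro z hz hs
      obtain ⟨t, x⟩ := z
      have h3 : (t / ν, x) ∈ tsupport (fun z : ℝ × V => φ z.1 z.2) := by
        set e : ℝ × V ≃ₜ ℝ × V :=
          (Homeomorph.mulLeft₀ ν⁻¹ (inv_ne_zero hν.ne')).prodCongr (Homeomorph.refl V) with he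
        have hfe : (fun z : ℝ × V => φ (z.1 / ν) z.2) = (fun z : ℝ × V => φ z.1 z.2) ∘ e := by
          funext z
          show φ (z.1 / ν) z.2 = φ (ν⁻¹ * z.1) z.2
          rw [div_eq_inv_mul]
        rw [hfe, tsupport_comp_eq_preimage] at hz
        have h4 : (ν⁻¹ * t, x) ∈ tsupport (fun z : ℝ × V => φ z.1 z.2) := hz
        rwa [← div_eq_inv_mul] at h4
      obtain ⟨K, r₀, hr₀, h5⟩ := hd _ _ h3 (sing_div hν hs)
      obtain ⟨M, hM⟩ := gr_of hν hN (t / ν) x hr₀ h5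
      rw [mul_div_cancel₀ t hν.ne'] at hM
      exact ⟨M, hM⟩)
  unfold LL at h2
  simp_rw [DD_sc hν] at h2
  rw [integral_const_mul, int_div hν hN.openG
    (fun t => DD ν u p (fun s x => φ (ν * s / ν) x) t)] at h2
  have e : (fun s x => φ (ν * s / ν) x) = φ := by
    funext s x
    rw [mul_div_cancel_left₀ s hν.ne']
  rw [e] at h2
  have h3 : (ν ^ 3)⁻¹ ≠ 0 := by positivity
  rcases mul_eq_zero.1 h2 with h4 | h4
  · exact absurd h4 h3
  · rcases mul_eq_zero.1 h4 with h5 | h5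
    · exact absurd h5 hν.ne'
    · exact h5

/-- The energy equality. -/
theorem fin_glob (h0 : S_EQ0) (h4 : S_E4) {ν T E D : ℝ} {G : Set ℝ} {u : ℝ → V → V}
    {p : ℝ → V → ℝ} (hν : 0 < ν) (hN : Turb ν T E D G u p) {γ : ℝ} (hγ : γ < 2)
    (hd : ∀ t ∈ Ioo 0 T, ∀ x, SingPt G u t x → ∃ K : ℝ, ∃ r₀ > 0, ∀ r ∈ Ioo 0 r₀,
      ∫⁻ q in {q : ℝ × V | q.1 ∈ G ∧ ν * |q.1 - t| < r ^ 2 ∧ ‖q.2 - x‖ < r},
        ENNReal.ofReal (gsq (u q.1) q.2) ≤ ENNReal.ofReal (K * r * (1 + |Real.log r|) ^ γ)) :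
    ∀ s ∈ G, ∀ t ∈ G, s ≤ t →
      energy (u t) - energy (u s) = -(2 * ν) * ∫ τ in Ioo s t, enstrophy (u τ) := by
  have h1 := (t_WSCAL ν T E D G u p hν hN).1
  have hmem : ∀ s ∈ G, ν * s ∈ {t | t / ν ∈ G} := by
    intro s hs
    show ν * s / ν ∈ G
    rwa [mul_div_cancel_left₀ s hν.ne']
  intro s hs t ht hst
  have h2 := h4 _ _ _ _ _ _ h1 (by
    intro φ hφ hφ0
    refine h0 _ _ _ _ _ _ h1 (max γ 0) (le_max_right _ _) (max_lt hγ (by norm_num)) φ hφ hφ0 ?_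
    intro z hz hs
    obtain ⟨t, x⟩ := z
    have hz1 : t ∈ Ioo 0 (ν * T) := (hφ.supp hz).1
    obtain ⟨K, r₀, hr₀, h5⟩ := hd (t / ν) ⟨div_pos hz1.1 hν, by
      rw [div_lt_iff₀ hν, mul_comm]
      exact hz1.2⟩ x (sing_div hν hs)
    obtain ⟨M, hM⟩ := gr_of hν hN (t / ν) x hr₀ h5
    rw [mul_div_cancel₀ t hν.ne'] at hM
    exact ⟨M, hM⟩) (ν * s) (hmem s hs) (ν * t) (hmem t ht)
    (mul_le_mul_of_nonneg_left hst hν.le)
  simp_rw [energy_sm, enstrophy_sm, mul_div_cancel_left₀ _ hν.ne'] at h2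
  rw [integral_const_mul] at h2
  have h3 : ∫ τ in Ioo (ν * s) (ν * t), enstrophy (u (τ / ν))
      = ν * ∫ τ in Ioo s t, enstrophy (u τ) := by
    have e : Ioo (ν * s) (ν * t) = {τ : ℝ | τ / ν ∈ Ioo s t} := by
      ext τ
      simp only [mem_Ioo, mem_setOf_eq, lt_div_iff₀ hν, div_lt_iff₀ hν, mul_comm s, mul_comm t]
    rw [e]
    exact int_div hν isOpen_Ioo (fun τ => enstrophy (u τ))
  rw [h3] at h2
  have h5 : (ν⁻¹ ^ 2) ≠ 0 := by positivity
  have h6 : ν⁻¹ ^ 2 * (energy (u t) - energy (u s))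
      = ν⁻¹ ^ 2 * (-(2 * ν) * ∫ τ in Ioo s t, enstrophy (u τ)) := by
    linear_combination h2
  exact mul_left_cancel₀ h5 h6

end Pool.Agent.N976.EQ
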