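import Pool.Agent.N976.EQ.Stm
import Pool.Agent.Y577.NS.WEN
import Pool.Agent.Y8.Cross

/-!
Project EQ (helper976), parts K3 and K4 (helper593): from `v` to `W` (adapted from
`Pool.Agent.Y577.NS.t_WEN`), and the bound of the defect on a short window (adapted from
`Pool.Agent.N976.TL.t_A1a` and `t_A1`).
-/

set_option autoImplicit false

open MeasureTheory Set Metric
open scoped ContDiff ENNReal Topology NNReal

namespace Pool.Agent.N976.EQ

open H459R3.NS W221.NS Pool.Agent.Y8 Pool.Agent.N977.H Pool.Agent.N976.TL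

namespace K34

open Filter Pool.Agent.Y577.NS in
theorem t_K3a (hA : S_ACX) : S_K3 := by
  intro H v W F q k hv hF hW heq α β ρ Ψ y y' hM s hs t ht hαs hst htβ hpos κ hκ
  -- the larger interval
  obtain ⟨a, ha1, ha2⟩ := exists_between hαs
  obtain ⟨b, hb1, hb2⟩ := exists_between htβ
  obtain ⟨K, hK0, hK⟩ := c_mod hv hF hM ha1 hb2
  set J : Set ℝ := H ∩ Ioo α β with hJ
  have hJo : IsOpen J := hv.openH.inter isOpen_Ioo
  -- joint smoothness
  have hmvJ : ContDiffOn ℝ ∞ (fun z : ℝ × V => mv Ψ y z.1 z.2) (J ×ˢ univ) := by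
    have h1 : ContDiffOn ℝ ∞ (fun z : ℝ × V => ((z.1, z.2 - y z.1) : ℝ × V)) (J ×ˢ univ) := by
      refine contDiffOn_fst.prodMk (contDiffOn_snd.sub ?_)
      exact hM.ysm.comp contDiffOn_fst (fun z hz => hz.1)
    exact hM.sm.comp h1 (fun z hz => ⟨hz.1.2, mem_univ _⟩)
  have hvJ : ContDiffOn ℝ ∞ (fun z : ℝ × V => v z.1 z.2) (J ×ˢ univ) :=
    hv.smooth_v.mono (prod_mono inter_subset_left subset_rfl)
  have hWJ : ContDiffOn ℝ ∞ (fun z : ℝ × V => W z.1 z.2) (J ×ˢ univ) :=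
    hW.mono (prod_mono inter_subset_left subset_rfl)
  have hFJ : ContDiffOn ℝ ∞ (fun z : ℝ × V => F z.1 z.2) (J ×ˢ univ) :=
    hF.smH.mono (prod_mono inter_subset_left subset_rfl)
  have hmz : ∀ τ ∈ J, ∀ z ∉ ball (0 : V) 1, mv Ψ y τ z = 0 := by
    intro τ hτ x hx
    refine hM.supp τ hτ.2 _ fun h' => hx ?_
    rw [mem_ball_zero_iff] at h' ⊢
    have h2 := hM.ins τ hτ.2
    have h3 : ‖x‖ ≤ ‖x - y τ‖ + ‖y τ‖ := by
      have := norm_add_le (x - y τ) (y τ)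
      rwa [sub_add_cancel] at this
    linarith
  have hdv : ∀ τ ∈ J, HasDerivAt (EW v Ψ y) (deriv (EW v Ψ y) τ) τ := by
    intro τ hτ
    exact (hd_int (F := fun t z => nsq (v t) z * mv Ψ y t z) (a := 0) (R := 1) hJo
      ((nsq_joint hvJ).mul hmvJ)
      (fun t ht z hz => by rw [hmz t ht z hz, mul_zero]) hτ).differentiableAt.hasDerivAt
  have hdc : ∀ τ ∈ J, HasDerivAt (cc v F Ψ y) (deriv (cc v F Ψ y) τ) τ := by
    intro τ hτ
    have h1 := (hd_int (F := fun t z => nsq (F t) z * mv Ψ y t z) (a := 0) (R := 1) hJo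
      ((nsq_joint hFJ).mul hmvJ)
      (fun t ht z hz => by rw [hmz t ht z hz, mul_zero]) hτ)
    have h2 : ∀ i, HasDerivAt (fun t => ∫ z, v t z i * (F t z i * mv Ψ y t z)) _ τ := fun i =>
      (hd_int (F := fun t z => v t z i * (F t z i * mv Ψ y t z)) (a := 0) (R := 1) hJo
      ((comp_joint hvJ i).mul ((comp_joint hFJ i).mul hmvJ))
      (fun t ht z hz => by rw [hmz t ht z hz, mul_zero, mul_zero]) hτ)
    have h3 := h1.sub ((HasDerivAt.fun_sum fun i (_ : i ∈ Finset.univ) => h2 i).const_mul 2)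
    exact h3.differentiableAt.hasDerivAt
  -- the identity
  have hid : ∀ τ ∈ J, EW W Ψ y τ = EW v Ψ y τ + cc v F Ψ y τ := by
    intro τ hτ
    have c0 := (sl_sm hmvJ hτ).continuous
    have c1 := (sl_sm (F := fun t z => nsq (v t) z) (nsq_joint hvJ) hτ).continuous
    have c2 := (sl_sm (F := fun t z => nsq (F t) z) (nsq_joint hFJ) hτ).continuous
    have c3 : ∀ i, Continuous fun z => v τ z i := fun i =>
      (sl_sm (F := fun t z => v t z i) (comp_joint hvJ i) hτ).continuous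
    have c4 : ∀ i, Continuous fun z => F τ z i := fun i =>
      (sl_sm (F := fun t z => F t z i) (comp_joint hFJ i) hτ).continuous
    have i1 : Integrable fun z => nsq (v τ) z * mv Ψ y τ z :=
      int_csR (c1.mul c0) (a := 0) (R := 1) fun z hz => by rw [hmz τ hτ z hz, mul_zero]
    have i2 : Integrable fun z => nsq (F τ) z * mv Ψ y τ z :=
      int_csR (c2.mul c0) (a := 0) (R := 1) fun z hz => by rw [hmz τ hτ z hz, mul_zero]
    have i3 : ∀ i, Integrable fun z => v τ z i * (F τ z i * mv Ψ y τ z) := fun i =>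
      int_csR ((c3 i).mul ((c4 i).mul c0)) (a := 0) (R := 1) fun z hz => by
        rw [hmz τ hτ z hz, mul_zero, mul_zero]
    unfold EW cc
    have i4 : Integrable fun z => 2 * ∑ i, v τ z i * (F τ z i * mv Ψ y τ z) :=
      (integrable_finsetSum _ fun i _ => i3 i).const_mul 2
    have i5 : Integrable fun z => nsq (F τ) z * mv Ψ y τ z -
        2 * ∑ i, v τ z i * (F τ z i * mv Ψ y τ z) := i2.sub i4
    rw [← integral_finsetSum _ fun i _ => i3 i, ← integral_const_mul, ← integral_sub i2 i4,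
      ← integral_add i1 i5]
    congr 1
    funext z
    by_cases hz : z ∈ ball (0 : V) 1
    · have e : ∀ i, W τ z i = v τ z i - F τ z i := fun i => by
        rw [heq τ hτ.1 z hz i]; ring
      simp only [nsq, e, Fin.sum_univ_three]
      ring
    · simp only [hmz τ hτ z hz, mul_zero, Finset.sum_const_zero, sub_zero, add_zero]
  have hdW : ∀ τ ∈ J, deriv (EW W Ψ y) τ = deriv (EW v Ψ y) τ + deriv (cc v F Ψ y) τ := by
    intro τ hτ
    have h1 : EW W Ψ y =ᶠ[𝓝 τ] fun τ => EW v Ψ y τ + cc v F Ψ y τ := by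
      filter_upwards [hJo.mem_nhds hτ] with σ hσ
      exact hid σ hσ
    rw [h1.deriv_eq]
    exact ((hdv τ hτ).add (hdc τ hτ)).deriv
  -- the extension
  set G : Set ℝ := H ∩ Ioo a b with hG
  have hGo : IsOpen G := hv.openH.inter isOpen_Ioo
  have hGJ : G ⊆ J := fun τ hτ => ⟨hτ.1, ha1.trans hτ.2.1, hτ.2.2.trans hb2⟩
  have hab : a ≤ b := by linarith
  have hkK : Integrable fun t => K * k t := hv.kint.const_mul K
  obtain ⟨cb, hcb1, hcb2, hcb3⟩ := hA a b G (cc v F Ψ y) (fun t => K * k t) hab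
    inter_subset_right hkK.integrableOn (fun t => mul_nonneg hK0 (hv.knn t))
    (fun σ hσ τ hτ hστ => by
      rw [integral_const_mul]
      exact hK σ hσ.1 (Ioo_subset_Icc_self hσ.2) τ hτ.1 (Ioo_subset_Icc_self hτ.2) hστ)
  have hsG : s ∈ G := ⟨hs, ha2, hst.trans_lt hb1⟩
  have htG : t ∈ G := ⟨ht, ha2.trans_le hst, hb1⟩
  obtain ⟨f1, f2⟩ := ftc_mod (F := cb) hkK hst (fun σ hσ τ hτ hστ =>
    hcb3 σ ⟨ha2.le.trans hσ.1, hσ.2.trans hb1.le⟩ τ ⟨ha2.le.trans hτ.1, hτ.2.trans hb1.le⟩ hστ)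
  rw [hcb1 s hsG, hcb1 t htG] at f2
  obtain ⟨e1, e2⟩ := hv.en α β ρ Ψ y y' hM s hs t ht hαs hst htβ hpos
  have hae : ∀ᵐ τ ∂(volume.restrict (Ioo s t)),
      deriv (EW v Ψ y) τ + deriv cb τ = deriv (EW W Ψ y) τ := by
    have h1 : ∀ᵐ τ ∂(volume.restrict (Ioo s t)), τ ∈ H := by
      rw [ae_restrict_iff' measurableSet_Ioo, ae_iff]
      refine measure_mono_null ?_ hv.fullH
      intro τ hτ
      simp only [mem_ofPred_eq, Classical.not_imp] at hτ
      refine ⟨⟨?_, ?_⟩, hτ.2⟩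
      · have := hM.low
        linarith [hτ.1.1]
      · have := hM.up
        linarith [hτ.1.2]
    filter_upwards [h1, ae_restrict_mem measurableSet_Ioo] with τ hτH hτ
    have hτG : τ ∈ G := ⟨hτH, ha2.trans hτ.1, hτ.2.trans hb1⟩
    have h2 : cb =ᶠ[𝓝 τ] cc v F Ψ y := by
      filter_upwards [hGo.mem_nhds hτG] with σ hσ
      exact hcb1 σ hσ
    rw [h2.deriv_eq, hdW τ (hGJ hτG)]
  rw [← integral_congr_ae hae, integral_add e1 f1, ← f2, hid s (hGJ hsG), hid t (hGJ htG)]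
  linarith



end K34

/-- **EQ/K3** -/
theorem t_K3 : S_K3 := K34.t_K3a Pool.Agent.Y8.B.p_acx

end Pool.Agent.N976.EQ

namespace Pool.Agent.N976.EQ.K34

open H459R3.NS W221.NS W356.ME Pool.Agent.Y7 Pool.Agent.Y8 Pool.Agent.N976.TL
open Pool.Agent.N976.TL.A1a

/-- The bound of the defect on a short window (slices). -/
theorem k4a : ∃ C : ℝ, 0 < C ∧ ∀ h ε : ℝ, 0 < h → h ≤ 1 → 0 < ε →
    ∀ (H : Set ℝ) (v W : ℝ → V → V) (G : ℝ → ℝ), IsOpen H → H ⊆ Ioo (-1) 0 →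
    volume (Ioo (-1 : ℝ) 0 \ H) = 0 →
    ContDiffOn ℝ ∞ (fun z : ℝ × V => v z.1 z.2) (H ×ˢ univ) →
    ContDiffOn ℝ ∞ (fun z : ℝ × V => W z.1 z.2) (H ×ˢ univ) →
    (∀ t ∈ H, ∃ P, Y7.Sl (v t) (W t) (fun x i => deriv (fun s => W s x i) t) P (G t)) →
    IntegrableOn G (Ioo (-h) 0) → ∫ t in Ioo (-h) 0, G t ≤ ε →
    (∃ B : ℝ, ∀ t ∈ H, A2 0 1 (W t) ≤ B) → EnW H W →
    ∀ t' ∈ H, ∀ t₁ ∈ H, -h < t' → t' < -(3 / 4 * h) → t' < t₁ → ∀ κ : ℝ,
    EW W (PHh h) (fun _ => 0) t₁ - EW W (PHh h) (fun _ => 0) t'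
        ≤ (∫ τ in Ioo t' t₁, deriv (EW W (PHh h) (fun _ => 0)) τ) - κ →
      κ ≤ C * (ε / h + ε ^ 2) := by
  obtain ⟨C₁, hC₁, hD⟩ := deriv_boundC
  refine ⟨2 * C₁ + C₁ ^ 2, by positivity, ?_⟩
  intro h ε hh hh1 hε H v W G hO hH hfull hvs hWs hsl hGi hGe hbdd hen t' ht' t₁ ht₁ ht'1 ht'2
    htt₁ κ hκ
  have hinv : 1 ≤ 1 / h := by
    rw [le_div_iff₀ hh]
    linarith
  have hG0 : ∀ t ∈ H, 0 ≤ G t := fun t ht => by
    obtain ⟨P, hP⟩ := hsl t ht
    exact hP.pos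
  have hW : ∀ t ∈ H, ContDiff ℝ ∞ (W t) := fun t ht => by
    obtain ⟨P, hP⟩ := hsl t ht
    exact hP.sW
  have hae : ∀ᵐ t : ℝ, t ∈ Ioo (-1 : ℝ) 0 → t ∈ H := by
    have h1 := hfull
    rw [← compl_mem_ae_iff] at h1
    filter_upwards [h1] with t ht ht2
    by_contra h3
    exact ht ⟨ht2, h3⟩
  have hsubh : Ioo (-h) 0 ⊆ Ioo (-1 : ℝ) 0 := Ioo_subset_Ioo_left (by linarith)
  have hG0' : ∀ᵐ t ∂(volume.restrict (Ioo (-h) 0)), 0 ≤ G t := by
    filter_upwards [ae_restrict_of_ae hae, ae_restrict_mem measurableSet_Ioo] with t h1 h2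
    exact hG0 t (h1 (hsubh h2))
  have hEW' : EW W (PHh h) (fun _ => 0) = EC h W := by
    funext t
    unfold EW mv EC
    simp only [sub_zero]
  have hder : ∀ t ∈ H, -h < t → deriv (EC h W) t ≤
      -2 * (∫ z, gsq (W t) z * PHh h t z) + C₁ * G t * (1 / h + √(EC h W t)) := by
    intro t ht hth
    obtain ⟨D, hD1, hD2⟩ := hD h hh hh1 H v W G hO hH hWs hsl t ht hth
    rw [hD1.deriv]
    exact hD2
  have hdis0 : ∀ t, 0 ≤ ∫ z, gsq (W t) z * PHh h t z := fun t =>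
    integral_nonneg fun z => mul_nonneg (W605.MD.gsq_nonneg _ z) (PHh_nonneg h t z)
  have hE' : EC h W t' = 0 := by
    rw [EC_eq, cH_zero hh (by linarith)]; ring
  -- the supremum of the energy
  obtain ⟨B, hB⟩ := hbdd
  obtain ⟨X, hX⟩ : ∃ X : Set ℝ, X = (fun t => EC h W t) '' (H ∩ Ici t') := ⟨_, rfl⟩
  have hXb : BddAbove X := by
    refine ⟨B, ?_⟩
    rw [hX]
    rintro _ ⟨t, ht, rfl⟩
    exact (EC_le h W t (hW t ht.1)).trans (hB t ht.1)
  have hXn : X.Nonempty := by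
    rw [hX]
    exact ⟨_, t', ⟨ht', mem_Ici.2 le_rfl⟩, rfl⟩
  obtain ⟨S, hS⟩ : ∃ S, S = sSup X := ⟨_, rfl⟩
  have hle : ∀ t ∈ H, t' ≤ t → EC h W t ≤ S := by
    intro t ht h
    rw [hS]
    apply le_csSup hXb
    rw [hX]
    exact ⟨t, ⟨ht, h⟩, rfl⟩
  have hS0 : 0 ≤ S := (EC_nonneg h W _).trans (hle t' ht' le_rfl)
  have hMT : MT H (-1) 0 (PHh h) (fun _ => (0 : V)) (fun _ => (0 : V)) 1 :=
    { low := le_rfl
      up := le_rfl
      sm := (PHh_smooth h).contDiffOn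
      rho := one_pos
      supp := fun t _ z hz => PHh_zero h t hz
      der := fun t _ => hasDerivAt_const t (0 : V)
      cont := continuousOn_const
      ysm := contDiffOn_const
      ins := fun t _ => by simp }
  have hEn : ∀ t ∈ H, t' ≤ t → IntegrableOn (deriv (EC h W)) (Ioo t' t) ∧
      EC h W t - EC h W t' ≤ ∫ τ in Ioo t' t, deriv (EC h W) τ := by
    intro t ht htt
    have h1 := hen (-1) 0 1 (PHh h) (fun _ => 0) (fun _ => 0) hMT t' ht' t ht
      (by linarith) htt (hH ht).2 (fun τ _ z => PHh_nonneg h τ z)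
    rwa [hEW'] at h1
  have hGle : ∀ t ≤ 0, ∫ τ in Ioo t' t, G τ ≤ ε := by
    intro t ht
    have hsub : Ioo t' t ⊆ Ioo (-h) 0 := Ioo_subset_Ioo ht'1.le ht
    exact (setIntegral_mono_set hGi hG0' hsub.eventuallyLE).trans hGe
  have hint : ∀ t ∈ H, t' ≤ t →
      ∫ τ in Ioo t' t, deriv (EC h W) τ ≤ C₁ * (1 / h + √S) * ε := by
    intro t ht htt
    have ht2 := hH ht
    have hsub : Ioo t' t ⊆ Ioo (-h) 0 := Ioo_subset_Ioo ht'1.le ht2.2.le
    obtain ⟨hi, hen'⟩ := hEn t ht htt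
    have hgi : IntegrableOn (fun τ => C₁ * (1 / h + √S) * G τ) (Ioo t' t) :=
      (hGi.mono_set hsub).const_mul _
    have h1 : ∫ τ in Ioo t' t, deriv (EC h W) τ
        ≤ ∫ τ in Ioo t' t, C₁ * (1 / h + √S) * G τ := by
      apply integral_mono_ae hi hgi
      filter_upwards [ae_restrict_of_ae hae, ae_restrict_mem measurableSet_Ioo] with τ h4 hτ2
      have hτ := h4 (hsubh (hsub hτ2))
      have h5 := hder τ hτ (by linarith [hτ2.1])
      have h6 := hdis0 τ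
      refine (by linarith : _ ≤ C₁ * G τ * (1 / h + √(EC h W τ))).trans ?_
      have e1 : √(EC h W τ) ≤ √S := Real.sqrt_le_sqrt (hle τ hτ hτ2.1.le)
      have e2 := hG0 τ hτ
      calc C₁ * G τ * (1 / h + √(EC h W τ)) ≤ C₁ * G τ * (1 / h + √S) :=
            mul_le_mul_of_nonneg_left (by linarith) (by positivity)
        _ = _ := by ring
    rw [integral_const_mul] at h1
    have h4 : C₁ * (1 / h + √S) * (∫ t in Ioo t' t, G t) ≤ C₁ * (1 / h + √S) * ε :=
      mul_le_mul_of_nonneg_left (hGle t ht2.2.le) (by positivity)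
    linarith
  have hkey : ∀ t ∈ H, t' ≤ t → EC h W t ≤ C₁ * (1 / h + √S) * ε := by
    intro t ht htt
    obtain ⟨hi, hen'⟩ := hEn t ht htt
    have h4 := hint t ht htt
    rw [hE'] at hen'
    linarith
  have hS1 : S ≤ C₁ * (1 / h + √S) * ε := by
    conv_lhs => rw [hS]
    apply csSup_le hXn
    rw [hX]
    rintro _ ⟨t, ht, rfl⟩
    exact hkey t ht.1 ht.2
  obtain ⟨K, hK⟩ : ∃ K, K = √S := ⟨_, rfl⟩
  have hK0 : 0 ≤ K := by rw [hK]; exact Real.sqrt_nonneg _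
  have hKS : K ^ 2 = S := by rw [hK]; exact Real.sq_sqrt hS0
  have hS2 : S ≤ 2 * C₁ * (ε / h) + C₁ ^ 2 * ε ^ 2 := by
    rw [← hK, ← hKS] at hS1
    rw [← hKS]
    have e3 : 0 ≤ (C₁ * ε - K) ^ 2 := sq_nonneg _
    have e5 : (C₁ * ε - K) ^ 2 = C₁ ^ 2 * ε ^ 2 - 2 * (C₁ * ε * K) + K ^ 2 := by ring
    have e6 : C₁ * (1 / h + K) * ε = C₁ * (ε / h) + C₁ * ε * K := by ring
    rw [e6] at hS1
    rw [e5] at e3
    linarith
  have hKe : C₁ * K * ε ≤ C₁ * (ε / h) + C₁ ^ 2 * ε ^ 2 := by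
    have e3 : 0 ≤ (C₁ * ε - K) ^ 2 := sq_nonneg _
    have e5 : (C₁ * ε - K) ^ 2 = C₁ ^ 2 * ε ^ 2 - 2 * (C₁ * K * ε) + K ^ 2 := by ring
    rw [e5, hKS] at e3
    linarith
  -- the defect
  rw [hEW', hE'] at hκ
  have hκ2 : κ ≤ ∫ τ in Ioo t' t₁, deriv (EC h W) τ := by
    have h4 := EC_nonneg h W t₁
    linarith
  have hder2 := hint t₁ ht₁ htt₁.le
  rw [← hK] at hder2
  have e6 : C₁ * (1 / h + K) * ε = C₁ * (ε / h) + C₁ * K * ε := by ring
  have b1 : 0 ≤ ε / h := by positivity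
  have b2 : 0 ≤ ε ^ 2 := by positivity
  have b3 : 0 ≤ C₁ ^ 2 * (ε / h) := by positivity
  have b4 : 0 ≤ C₁ * ε ^ 2 := by positivity
  nlinarith

end Pool.Agent.N976.EQ.K34

namespace Pool.Agent.N976.EQ.K34

open H459R3.NS W221.NS Pool.Agent.Y7 Pool.Agent.Y8 Pool.Agent.W327.ME Pool.Agent.N976.TL
open Pool.Agent.N976.TL.A1a
open Pool.Agent.Y458.NS.HY (sliceH sliceH1 dtH_smooth A2_diff)
open Pool.Agent.Y8.W4

theorem k4b (h3 : S_K3) : S_K4 := by
  obtain ⟨g, Cg, hCg, hg⟩ := Pool.Agent.Y8.B.p_green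
  obtain ⟨CD, hCD, hdec⟩ := Pool.Agent.Y8.B.p_dec g Cg hg
  obtain ⟨CT, hCT, hdect⟩ := Dect.dect Pool.Agent.Y8.B.p_td Pool.Agent.Y8.B.p_harm hg
  obtain ⟨C1, hC1, hbase⟩ := k4a
  set C' : ℝ := 2 + 257 * CD ^ 2 + 257 * CT ^ 2 + CT with hC'
  have e1 : 0 < 257 * CD ^ 2 := by positivity
  have e3 : 0 < 257 * CT ^ 2 := by positivity
  have hC'pos : 0 < C' := by rw [hC']; linarith
  have hC'1 : 1 ≤ C' := by rw [hC']; linarith
  refine ⟨C1 * C' ^ 2, by positivity, ?_⟩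
  intro H v q k hL h ε hh hh1 hε hint hle t' ht' t₁ ht₁ ht'1 ht'2 htt₁ κ hκ
  obtain ⟨hWs, hWt⟩ := Pool.Agent.Y8.B.p_tsmh g Cg hg H v hL.openH hL.smooth_v
  obtain ⟨F, hF, hFe⟩ := Pool.Agent.Y8.B.p_fld g Cg hg H v q k hL
  have hen : EnW H (fun t => TT g (v t)) :=
    Pool.Agent.Y8.B.p_wen H v (fun t => TT g (v t)) F q k hL hF hWs hFe
  have hsub : ∀ t ∈ H, t ∈ Icc (-1 : ℝ) 0 := fun t ht =>
    ⟨(hL.subH ht).1.le, (hL.subH ht).2.le⟩
  have hsl : ∀ t ∈ H, ∃ P, Sl (v t) (TT g (v t))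
      (fun x i => deriv (fun s => TT g (v s) x i) t) P (C' * √(L4 0 4 (v t))) := by
    intro t ht
    have hv : ContDiff ℝ ∞ (v t) := sliceH hL.smooth_v ht
    have hq : ContDiff ℝ ∞ (q t) := sliceH1 hL.smooth_q ht
    have hN : ContDiff ℝ ∞ (fun x i => deriv (fun s => v s x i) t) :=
      dtH_smooth hL.openH hL.smooth_v ht
    set B := √(L4 0 4 (v t)) with hB
    have hB0 : 0 ≤ B := Real.sqrt_nonneg _
    have hs0 : 0 ≤ √B := Real.sqrt_nonneg B
    have hL40 : 0 ≤ L4 0 4 (v t) := integral_nonneg fun z => by positivity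
    have hBB : L4 0 4 (v t) = B ^ 2 := (Real.sq_sqrt hL40).symm
    have hA2 : A2 0 4 (v t) ≤ 257 * B := A2_le hv
    have hA20 : 0 ≤ A2 0 4 (v t) := integral_nonneg fun z => nsq_nonneg _ z
    obtain ⟨hW1, hW2, hW3, hW4⟩ := hdec (v t) hv (fun x _ => hL.divfree t ht x)
    obtain ⟨P, hP1, hP2, hP3, hP4⟩ := hdect (v t) (fun x i => deriv (fun s => v s x i) t) (q t)
      hv hN hq (fun x _ => hL.divfree t ht x) (fun x _ i => hL.momentum t ht x i)
    have hb12 : ball (0 : V) 1 ⊆ ball 0 2 := ball_subset_ball (by norm_num)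
    have hgen : ∀ D : ℝ, 0 < D → 257 * D ^ 2 ≤ C' → D * √(A2 0 4 (v t)) ≤ √(C' * B) := by
      intro D hD hle
      have : D * √(A2 0 4 (v t)) = √(D ^ 2 * A2 0 4 (v t)) := by
        rw [Real.sqrt_mul (by positivity), Real.sqrt_sq hD.le]
      rw [this]
      apply Real.sqrt_le_sqrt
      calc D ^ 2 * A2 0 4 (v t) ≤ D ^ 2 * (257 * B) :=
            mul_le_mul_of_nonneg_left hA2 (by positivity)
        _ = (257 * D ^ 2) * B := by ring
        _ ≤ C' * B := mul_le_mul_of_nonneg_right hle hB0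
    have hsq := hgen CD hCD (by rw [hC']; linarith)
    have hsq2 := hgen CT hCT (by rw [hC']; linarith)
    refine ⟨P, ?_⟩
    refine
      { sv := hv
        sW := hW1
        sN := (dtH_smooth hL.openH hWs ht).continuous
        sP := hP1
        divv := fun x _ => hL.divfree t ht x
        divW := fun x _ => hW2 x
        pos := by positivity
        l4 := ?_
        dD := fun z hz i => ((hW4 z hz i).1).trans hsq
        gD := fun z hz i j => ((hW4 z hz i).2 j).trans hsq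
        lapD := fun z hz i => hW3 z (hb12 hz) i
        eqP := hP2
        nP := ?_
        evo := ?_ }
    · calc B = 1 * B := by rw [one_mul]
        _ ≤ C' * B := mul_le_mul_of_nonneg_right (by rw [hC']; linarith) hB0
    · refine hP3.trans ?_
      rw [hBB, mul_pow]
      apply mul_le_mul_of_nonneg_right _ (by positivity)
      have h5 : 1 ≤ C' := by rw [hC']; linarith
      have h6 : CT ≤ C' := by rw [hC']; linarith
      nlinarith
    · intro x hx i
      have h5 := hP4 x hx i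
      have h6 : deriv (fun s => TT g (v s) x i) t =
          TT g (fun y i => deriv (fun s => v s y i) t) x i := hWt t ht x i
      show |deriv (fun s => TT g (v s) x i) t + adv (v t) (fun y => v t y i) x -
        lap (fun y => v t y i) x + pd i P x| ≤ √(C' * B) + C' * B
      rw [h6]
      refine h5.trans ?_
      have h9 : CT * B ≤ C' * B := by
        apply mul_le_mul_of_nonneg_right _ hB0
        rw [hC']
        linarith
      calc CT * (√(A2 0 4 (v t)) + √(L4 0 4 (v t))) = CT * √(A2 0 4 (v t)) + CT * B := by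
            rw [mul_add]
        _ ≤ √(C' * B) + C' * B := add_le_add hsq2 h9
  have hbd : ∃ B : ℝ, ∀ t ∈ H, A2 0 1 (TT g (v t)) ≤ B := by
    obtain ⟨B0, hB0⟩ := hL.bdd
    obtain ⟨M, hM⟩ := hF.bd
    refine ⟨2 * B0 + 48 * M ^ 2, ?_⟩
    intro t ht
    have h7 : A2 0 1 (TT g (v t)) ≤ 2 * A2 0 8 (v t) + 48 * M ^ 2 := by
      apply A2_diff (sliceH hL.smooth_v ht).continuous (sliceH hWs ht).continuous
      intro x hx i
      rw [← hFe t ht x hx i]
      exact (norm_le_pi_norm (F t x) i).trans (hM t (hsub t ht) x)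
    have h8 := hB0 t ht
    linarith
  have hle' : ∫ t in Ioo (-h) 0, C' * √(L4 0 4 (v t)) ≤ C' * ε := by
    rw [integral_const_mul]
    exact mul_le_mul_of_nonneg_left hle hC'pos.le
  have hMT : MT H (-1) 0 (PHh h) (fun _ => (0 : V)) (fun _ => (0 : V)) 1 :=
    { low := le_rfl
      up := le_rfl
      sm := (PHh_smooth h).contDiffOn
      rho := one_pos
      supp := fun t _ z hz => PHh_zero h t hz
      der := fun t _ => hasDerivAt_const t (0 : V)
      cont := continuousOn_const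
      ysm := contDiffOn_const
      ins := fun t _ => by simp }
  have hκ' := h3 H v (fun t => TT g (v t)) F q k hL hF hWs hFe (-1) 0 1 (PHh h) (fun _ => 0)
    (fun _ => 0) hMT t' ht' t₁ ht₁ (by linarith) htt₁.le (hL.subH ht₁).2
    (fun τ _ z => PHh_nonneg h τ z) κ hκ
  have hfin0 := hbase h (C' * ε) hh hh1 (by positivity) H v (fun t => TT g (v t))
    (fun t => C' * √(L4 0 4 (v t))) hL.openH hL.subH hL.fullH hL.smooth_v hWs hsl
    (hint.const_mul C') hle' hbd hen t' ht' t₁ ht₁ ht'1 ht'2 htt₁ κ hκ'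
  refine hfin0.trans ?_
  have e5 : 0 < ε / h := by positivity
  have e6 : 0 < ε ^ 2 := by positivity
  have e7 : C' * ε / h + (C' * ε) ^ 2 ≤ C' ^ 2 * (ε / h + ε ^ 2) := by
    have e8 : C' * ε / h = C' * (ε / h) := by ring
    have e9 : C' * (ε / h) ≤ C' ^ 2 * (ε / h) := by
      apply mul_le_mul_of_nonneg_right _ e5.le
      nlinarith
    rw [e8]
    nlinarith
  calc C1 * (C' * ε / h + (C' * ε) ^ 2) ≤ C1 * (C' ^ 2 * (ε / h + ε ^ 2)) :=
        mul_le_mul_of_nonneg_left e7 hC1.le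
    _ = C1 * C' ^ 2 * (ε / h + ε ^ 2) := by ring

end Pool.Agent.N976.EQ.K34

namespace Pool.Agent.N976.EQ

/-- **EQ/K4** -/
theorem t_K4 : S_K3 → S_K4 := K34.k4b

end Pool.Agent.N976.EQ
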