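import Pool.Agent.N976.EQ.Stm
import Pool.Agent.N976.TL.A2a

/-!
One window for the defect (task EQ/K5, helper222; after TL/A2a of helper136).
-/

set_option autoImplicit false

open MeasureTheory Set Metric Filter
open scoped ContDiff ENNReal

namespace Pool.Agent.N976.EQ

open H459R3.NS W221.NS Pool.Agent.Y8 Pool.Agent.N977.H Pool.Agent.N976.TL

namespace K5

/-- Regular times in every interval. -/
lemma ex_in {H : Set ℝ} (hfull : volume (Ioo (-1 : ℝ) 0 \ H) = 0) {a b : ℝ} (ha : -1 ≤ a)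
    (hab : a < b) (hb : b ≤ 0) : ∃ t ∈ H, a < t ∧ t < b := by
  by_contra hc
  push Not at hc
  have hsub : Ioo a b ⊆ Ioo (-1) 0 \ H := by
    intro t ht
    refine ⟨⟨lt_of_le_of_lt ha ht.1, lt_of_lt_of_le ht.2 hb⟩, fun htH => ?_⟩
    have := hc t htH ht.1
    linarith [ht.2]
  have h5 := measure_mono_null hsub hfull
  rw [Real.volume_Ioo, ENNReal.ofReal_eq_zero] at h5
  linarith

/-- The support lies before some time. -/
lemma before {f : ℝ × V → ℝ} (hf : HasCompactSupport f) {a s : ℝ} {U : Set V} (has : a < s)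
    (h : tsupport f ⊆ Ioo a s ×ˢ U) : ∃ M < s, a ≤ M ∧ ∀ z ∈ tsupport f, z.1 ≤ M := by
  by_cases hne : (tsupport f).Nonempty
  · obtain ⟨z₀, hz₀, hmax⟩ := hf.isCompact.exists_isMaxOn hne continuous_fst.continuousOn
    have h1 := (h hz₀).1
    exact ⟨z₀.1, h1.2, h1.1.le, fun z hz => hmax hz⟩
  · refine ⟨a, has, le_rfl, fun z hz => ?_⟩
    exact absurd ⟨z, hz⟩ hne

end K5

open K5 in
/-- One window. -/
theorem t_K5 : S_K2 → S_K4 → S_K5 := by
  rintro hK2 ⟨C₁, hC₁, hK4⟩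
  obtain ⟨c, hc, hc1, hstay⟩ := A2a.stay
  obtain ⟨K, hK, hosc⟩ := Y7.osc
  obtain ⟨k, hk⟩ : ∃ k, k = K.toReal := ⟨_, rfl⟩
  have hk0 : 0 ≤ k := by rw [hk]; exact ENNReal.toReal_nonneg
  have hKk : K = ENNReal.ofReal k := by rw [hk, ENNReal.ofReal_toReal hK]
  have hosc' : ∀ w : V → V, ContDiff ℝ ∞ w → ∀ m : ℕ, ∀ x y : V, ‖y - x‖ ≤ rr m →
      ENNReal.ofReal (√(L4 0 4 (Y7.fr (rr m) w y)))
        ≤ ENNReal.ofReal (k * rr m ^ 4) * Y7.Fx 16 w x := by
    intro w hw m x y hxy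
    have h1 := hosc 16 (by norm_num) w hw m x y (by rw [sc16]; exact hxy)
    rw [sc16, hKk, ← mul_assoc, ← ENNReal.ofReal_mul hk0] at h1
    exact h1
  obtain ⟨Kp, hKp, hpath⟩ := path_ex Pool.Agent.Y8.B.p_tcut Pool.Agent.Y8.B.p_acx
  refine ⟨C₁ * (k + 1) ^ 2, c, by positivity, hc, hc1, ?_⟩
  intro T E D G u p hN t₀ x₀ y i a e hL ha hA h hh hhc s e₁ hs1 hs2 he₁ hF φ hφ hφ0 hφ1 hφs
  have hr := rr0 i
  have hr1 := rr1 i
  have hr2 : 0 < rr i ^ 2 := by positivity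
  have hlo := hL.lo
  have hhi := hL.hi
  have he := hL.e0
  have hhr : 0 < h * rr i ^ 2 := by positivity
  have hh1 : h ≤ 1 / 2 := by
    have h0 : h ≤ h * (1 + a + e) := le_mul_of_one_le_right hh.le (by linarith)
    linarith
  have hrs : rr i ^ 2 < s := by linarith
  have hsT : s < T := by linarith
  have hsT' : s ∈ Ioo 0 T := ⟨by linarith, by linarith⟩
  obtain ⟨CX, hCX, hpX⟩ := hpath E (rr i) hr hr1
  obtain ⟨X, Y, hX1, hX⟩ := hpX T D G u p hN s hsT' x₀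
  have hst := hstay T E D G u p hN t₀ x₀ y i a e hL ha hA h hh hhc s s hs1 hs2
    ⟨by linarith, le_rfl⟩ X Y _ _ hX hX1
  obtain ⟨kf, hW⟩ := Pool.Agent.Y8.B.p_wfr2 T E D G u p hN (rr i) s hr hrs hsT X Y _ _ hX
  have h16 : rr (i + 6) = rr i / 64 := by
    unfold rr
    rw [pow_add]
    ring
  have hdy := hL.dy
  rw [h16] at hdy
  have hcl : ∀ τ ∈ Ioo (s - h * rr i ^ 2) s, ‖X τ - y‖ ≤ rr i := by
    intro τ hτ
    have e1 : X τ - y = (X τ - x₀) + (x₀ - y) := by abel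
    rw [e1]
    refine (norm_add_le _ _).trans ?_
    linarith [hst τ hτ]
  obtain ⟨i1, i2⟩ := A2a.frame_int hk0 hosc' hN hrs hsT hh (by linarith) hX hcl he₁ hF hW
  -- the times
  obtain ⟨t', ht', ht'1, ht'2⟩ := ex_in hW.fullH (a := -h) (b := -(3 / 4 * h)) (by linarith)
    (by linarith) (by linarith)
  obtain ⟨M, hMs, hMa, hM⟩ := before hφ.cpt (a := s - 9 / 16 * h * rr i ^ 2) (by nlinarith) hφs
  have hM0 : (M - s) / rr i ^ 2 < 0 := div_neg_of_neg_of_pos (by linarith) hr2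
  have hM1 : -(9 / 16 * h) ≤ (M - s) / rr i ^ 2 := by
    rw [le_div_iff₀ hr2]
    nlinarith
  obtain ⟨t, ht, ht1, ht2⟩ := ex_in hW.fullH (a := (M - s) / rr i ^ 2) (b := 0) (by linarith)
    hM0 le_rfl
  have hMt : M < s + rr i ^ 2 * t := by
    rw [div_lt_iff₀ hr2] at ht1
    linarith
  have hMT : MT {t | t ∈ Ioo (-1 : ℝ) 0 ∧ s + rr i ^ 2 * t ∈ G} (-1) 0 (A1a.PHh h)
      (fun _ => (0 : V)) (fun _ => (0 : V)) 1 :=
    { low := le_rfl
      up := le_rfl
      sm := (A1a.PHh_smooth h).contDiffOn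
      rho := one_pos
      supp := fun t _ z hz => A1a.PHh_zero h t hz
      der := fun t _ => hasDerivAt_const t (0 : V)
      cont := continuousOn_const
      ysm := contDiffOn_const
      ins := fun t _ => by simp }
  have hx : rr (i + 1) = rr i / 2 := rrS i
  have hmain := hK2 T E D G u p hN (rr i) s hr hrs hsT X Y _ _ hX (-1) 0 1 (A1a.PHh h) hMT t' t
    ht'.1 ht'.2 ht.1 ht.2 (by linarith) (by linarith) ht2 (fun τ _ z => A1a.PHh_nonneg h τ z)
    φ hφ hφ0 (by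
      intro z hz
      refine ⟨⟨?_, lt_of_le_of_lt (hM z hz) hMt⟩, mem_univ _⟩
      have h1 := (hφs hz).1.1
      nlinarith) (by
      refine ⟨rr i / 16, by positivity, ?_⟩
      intro τ hτ x x' hxx
      by_cases h0 : φ (s + rr i ^ 2 * τ) x = 0
      · rw [h0]
        exact A1a.PHh_nonneg _ _ _
      · have hmem : (s + rr i ^ 2 * τ, x) ∈ tsupport (fun z : ℝ × V => φ z.1 z.2) :=
          subset_tsupport _ h0
        have h1 := hφs hmem
        have h2 : s - 9 / 16 * h * rr i ^ 2 < s + rr i ^ 2 * τ := h1.1.1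
        have h3 : s + rr i ^ 2 * τ < s := h1.1.2
        have h4 : -(9 / 16 * h) ≤ τ := by
          by_contra h5
          rw [not_le] at h5
          nlinarith
        have h6 := hst (s + rr i ^ 2 * τ) ⟨by nlinarith, h3⟩
        have h7 : ‖x - x₀‖ < rr i / 2 := by
          have h8 := h1.2
          rw [mem_ball, dist_eq_norm, hx] at h8
          exact h8
        have h9 : ‖x' - X (s + rr i ^ 2 * τ)‖ < 3 / 4 * rr i := by
          have e1 : x' - X (s + rr i ^ 2 * τ)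
              = (x' - x) + (x - x₀) - (X (s + rr i ^ 2 * τ) - x₀) := by abel
          rw [e1]
          refine lt_of_le_of_lt (norm_sub_le _ _) ?_
          have h10 := norm_add_le (x' - x) (x - x₀)
          linarith
        have h11 : (rr i)⁻¹ • (x' - X (s + rr i ^ 2 * τ)) ∈ ball (0 : V) (3 / 4) := by
          rw [mem_ball_zero_iff, norm_smul, norm_inv, Real.norm_of_nonneg hr.le,
            inv_mul_lt_iff₀ hr]
          linarith
        have h12 : A1a.PHh h τ ((rr i)⁻¹ • (x' - X (s + rr i ^ 2 * τ))) = 1 := by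
          unfold A1a.PHh
          rw [W605.MD.k2_one h11, A1a.cH_one hh h4]
          norm_num
        rw [h12]
        exact hφ1 _ _)
  have hfin := hK4 _ _ _ _ hW h ((k + 1) * e₁) hh (by linarith) (by positivity) i1 i2 t' ht' t ht
    ht'1 ht'2 (by linarith) _ hmain
  have hbd : C₁ * ((k + 1) * e₁ / h + ((k + 1) * e₁) ^ 2)
      ≤ C₁ * (k + 1) ^ 2 * (e₁ / h + e₁ ^ 2) := by
    have h1 : (k + 1) * (e₁ / h) ≤ (k + 1) ^ 2 * (e₁ / h) := by
      apply mul_le_mul_of_nonneg_right _ (by positivity)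
      nlinarith
    have h2 : (k + 1) * e₁ / h + ((k + 1) * e₁) ^ 2 ≤ (k + 1) ^ 2 * (e₁ / h + e₁ ^ 2) := by
      have e1 : (k + 1) * e₁ / h = (k + 1) * (e₁ / h) := by ring
      rw [e1]
      nlinarith
    calc C₁ * ((k + 1) * e₁ / h + ((k + 1) * e₁) ^ 2)
        ≤ C₁ * ((k + 1) ^ 2 * (e₁ / h + e₁ ^ 2)) := mul_le_mul_of_nonneg_left h2 hC₁.le
      _ = _ := by ring
  rw [inv_mul_le_iff₀ hr] at hfin
  calc LL G u p φ ≤ rr i * (C₁ * ((k + 1) * e₁ / h + ((k + 1) * e₁) ^ 2)) := hfin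
    _ ≤ rr i * (C₁ * (k + 1) ^ 2 * (e₁ / h + e₁ ^ 2)) := mul_le_mul_of_nonneg_left hbd hr.le
    _ = _ := by ring

end Pool.Agent.N976.EQ
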