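import Pool.Agent.N976.EQ.Stm
import Pool.Agent.N976.TL.A2

/-!
# EQ/K6 (project EQ of helper976, subtask 6225, by helper456): the bound of the defect at one level

A smooth partition of unity in time, subordinate to overlapping windows of the length
`9 / 16 * h * rr i ^ 2`, `h = c / (1 + a + e)`.
-/

set_option autoImplicit false

open MeasureTheory Set Metric
open scoped ContDiff ENNReal

namespace Pool.Agent.N976.EQ

open H459R3.NS W221.NS Pool.Agent.Y8 Pool.Agent.N977.H Pool.Agent.N976.TL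

namespace K6

/-! ### The partition of unity in time -/

/-- the step functions -/
noncomputable def st (b d : ℝ) (j : ℕ) (t : ℝ) : ℝ :=
  Real.smoothTransition (2 * (t - (b + j * d)) / d - 1 / 2)

lemma st_smooth (b d : ℝ) (j : ℕ) : ContDiff ℝ ∞ (st b d j) := by
  unfold st
  apply Real.smoothTransition.contDiff.comp
  exact ((contDiff_const.mul (contDiff_id.sub contDiff_const)).div_const d).sub contDiff_const

lemma st_nonneg (b d : ℝ) (j : ℕ) (t : ℝ) : 0 ≤ st b d j t := Real.smoothTransition.nonneg _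

lemma st_le_one (b d : ℝ) (j : ℕ) (t : ℝ) : st b d j t ≤ 1 := Real.smoothTransition.le_one _

lemma st_zero {b d : ℝ} (hd : 0 < d) {j : ℕ} {t : ℝ} (h : t ≤ b + j * d + d / 4) :
    st b d j t = 0 := by
  unfold st
  apply Real.smoothTransition.zero_of_nonpos
  have h1 : 2 * (t - (b + j * d)) / d ≤ 1 / 2 := by
    rw [div_le_iff₀ hd]
    linarith
  linarith

lemma st_one {b d : ℝ} (hd : 0 < d) {j : ℕ} {t : ℝ} (h : b + j * d + 3 * d / 4 ≤ t) :
    st b d j t = 1 := by
  unfold st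
  apply Real.smoothTransition.one_of_one_le
  have h1 : 3 / 2 ≤ 2 * (t - (b + j * d)) / d := by
    rw [le_div_iff₀ hd]
    linarith
  linarith

/-- the members of the partition of unity -/
noncomputable def th (b d : ℝ) (j : ℕ) (t : ℝ) : ℝ := st b d j t - st b d (j + 1) t

lemma th_smooth (b d : ℝ) (j : ℕ) : ContDiff ℝ ∞ (th b d j) :=
  (st_smooth b d j).sub (st_smooth b d (j + 1))

lemma th_nonneg {b d : ℝ} (hd : 0 < d) (j : ℕ) (t : ℝ) : 0 ≤ th b d j t := by
  unfold th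
  rcases le_total t (b + ((j + 1 : ℕ) : ℝ) * d + d / 4) with h | h
  · rw [st_zero hd h, sub_zero]
    exact st_nonneg _ _ _ _
  · rw [st_one hd (j := j) (by push_cast at h; linarith)]
    linarith [st_le_one b d (j + 1) t]

lemma th_le_one (b d : ℝ) (j : ℕ) (t : ℝ) : th b d j t ≤ 1 := by
  unfold th
  linarith [st_le_one b d j t, st_nonneg b d (j + 1) t]

lemma th_supp {b d : ℝ} (hd : 0 < d) {j : ℕ} {t : ℝ} (h : th b d j t ≠ 0) :
    t ∈ Icc (b + j * d + d / 4) (b + (j + 2) * d - d / 4) := by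
  constructor
  · by_contra hc
    push Not at hc
    apply h
    unfold th
    rw [st_zero hd hc.le, st_zero hd (j := j + 1) (by push_cast; linarith), sub_zero]
  · by_contra hc
    push Not at hc
    apply h
    unfold th
    rw [st_one hd (j := j) (by linarith), st_one hd (j := j + 1) (by push_cast; linarith),
      sub_self]

lemma th_sum (b d : ℝ) (N : ℕ) (t : ℝ) :
    ∑ j ∈ Finset.range N, th b d j t = st b d 0 t - st b d N t := by
  unfold th
  exact Finset.sum_range_sub' (fun j => st b d j t) N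

/-! ### Test functions -/

lemma test_mul {T : ℝ} {φ : ℝ → V → ℝ} (hφ : Test T φ) {θ : ℝ → ℝ} (hθ : ContDiff ℝ ∞ θ) :
    Test T (fun t x => θ t * φ t x) where
  smooth := (hθ.comp contDiff_fst).mul hφ.smooth
  cpt := hφ.cpt.mul_left (f := fun z : ℝ × V => θ z.1)
  supp := (tsupport_mul_subset_right (f := fun z : ℝ × V => θ z.1)
    (g := fun z : ℝ × V => φ z.1 z.2)).trans hφ.supp

lemma tsupp_mul {φ : ℝ → V → ℝ} {θ : ℝ → ℝ} {A B : Set ℝ} {K : Set V} (hA : IsClosed A)
    (hθ : ∀ t, θ t ≠ 0 → t ∈ A) (hφ : tsupport (fun z : ℝ × V => φ z.1 z.2) ⊆ B ×ˢ K) :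
    tsupport (fun z : ℝ × V => θ z.1 * φ z.1 z.2) ⊆ A ×ˢ K := by
  intro z hz
  have h1 : z ∈ tsupport (fun z : ℝ × V => φ z.1 z.2) :=
    tsupport_mul_subset_right (f := fun z : ℝ × V => θ z.1) (g := fun z : ℝ × V => φ z.1 z.2) hz
  have h2 : tsupport (fun z : ℝ × V => θ z.1 * φ z.1 z.2) ⊆ A ×ˢ (univ : Set V) := by
    apply closure_minimal _ (hA.prod isClosed_univ)
    intro w hw
    exact ⟨hθ _ fun h3 => hw (by simp only [h3, zero_mul]), mem_univ _⟩
  exact ⟨(h2 hz).1, (hφ h1).2⟩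

lemma LL_sum (hL0 : S_L0) {T E D : ℝ} {G : Set ℝ} {u : ℝ → V → V} {p : ℝ → V → ℝ}
    (hT : Turb 1 T E D G u p) {f : ℕ → ℝ → V → ℝ} (hf : ∀ j, Test T (f j)) (n : ℕ) :
    Test T (fun t x => ∑ j ∈ Finset.range (n + 1), f j t x) ∧
      LL G u p (fun t x => ∑ j ∈ Finset.range (n + 1), f j t x) =
        ∑ j ∈ Finset.range (n + 1), LL G u p (f j) := by
  induction n with
  | zero =>
    simp only [zero_add, Finset.sum_range_one]
    exact ⟨hf 0, trivial⟩
  | succ n ih =>
    have h1 := (hL0 T E D G u p hT _ ih.1).2.2 (f (n + 1)) (hf (n + 1))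
    have h2 : (fun t x => ∑ j ∈ Finset.range (n + 1 + 1), f j t x) =
        fun t x => (∑ j ∈ Finset.range (n + 1), f j t x) + f (n + 1) t x := by
      funext t x
      rw [Finset.sum_range_succ]
    rw [h2]
    refine ⟨h1.1, ?_⟩
    rw [h1.2, ih.2, Finset.sum_range_succ _ (n + 1)]

lemma shift_sum (A : ℕ → ℝ≥0∞) {N k m : ℕ} (h : k + N ≤ m) :
    ∑ j ∈ Finset.range N, A (k + j) ≤ ∑ l ∈ Finset.range m, A l := by
  have h1 : ∑ l ∈ Finset.range (k + N), A l =
      ∑ l ∈ Finset.range k, A l + ∑ j ∈ Finset.range N, A (k + j) := Finset.sum_range_add _ _ _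
  calc ∑ j ∈ Finset.range N, A (k + j) ≤ ∑ l ∈ Finset.range (k + N), A l := by
        rw [h1]
        exact le_add_self
    _ ≤ ∑ l ∈ Finset.range m, A l :=
        Finset.sum_le_sum_of_subset (Finset.range_mono h)

end K6

open K6 in
theorem t_K6 (hL0 : S_L0) (hK5 : S_K5) : S_K6 := by
  obtain ⟨C, c, hC, hc, hc2, H⟩ := hK5
  have hK : 0 < 7 / c + 49 := by positivity
  refine ⟨C * (7 / c + 49), mul_pos hC hK, ?_⟩
  intro T E D G u p hT t₀ x₀ y i a e hL ha hmo φ hφ hφ0 hφ1 hsupp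
  have he := hL.e0
  have hr := rr0 i
  obtain ⟨R, hR⟩ : ∃ R, R = rr i ^ 2 := ⟨_, rfl⟩
  have hR0 : 0 < R := by rw [hR]; positivity
  have h1ae : 0 < 1 + a + e := by linarith
  obtain ⟨h, hh⟩ : ∃ h, h = c / (1 + a + e) := ⟨_, rfl⟩
  have hh0 : 0 < h := by rw [hh]; positivity
  have hhc : h * (1 + a + e) = c := by rw [hh]; field_simp
  have hh2 : h ≤ 1 / 2 := by
    have : h ≤ c := by
      rw [hh, div_le_iff₀ h1ae]
      nlinarith
    linarith
  have hq : (1 + a) * e + e ^ 2 = e * (1 + a + e) := by ring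
  have heh : e / h = ((1 + a) * e + e ^ 2) / c := by
    rw [hq, ← hhc]
    field_simp
  have hS : rr (i + 1) ^ 2 = R / 4 := by rw [rrS, hR]; ring
  have hL' := hL.hF
  rw [← hR] at hL'
  have hWi : Wi t₀ i = Ioo (t₀ - R) (t₀ + R) := by unfold Wi; rw [hR]
  have hWi1 : Wi t₀ (i + 1) = Ioo (t₀ - R / 4) (t₀ + R / 4) := by unfold Wi; rw [hS]
  have hHR := H T E D G u p hT t₀ x₀ y i a e hL ha hmo h hh0 hhc.le
  simp only [← hR] at hHR
  have hQ0 : 0 ≤ (1 + a) * e + e ^ 2 := by rw [hq]; positivity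
  have hhR : h * R ≤ R / 2 := by nlinarith
  have hhR0 : 0 < h * R := mul_pos hh0 hR0
  have hsupp' : tsupport (fun z : ℝ × V => φ z.1 z.2) ⊆
      Ioo (t₀ - R / 4) (t₀ + R / 4) ×ˢ ball x₀ (rr (i + 1)) := by
    rw [← hWi1]
    exact hsupp
  obtain ⟨M, hM⟩ : ∃ M : ℕ, M = ⌈16 / (9 * h)⌉₊ := ⟨_, rfl⟩
  obtain ⟨d, hd⟩ : ∃ d, d = 9 / 32 * h * R := ⟨_, rfl⟩
  have hd0 : 0 < d := by rw [hd]; positivity
  have hM1 : 16 / (9 * h) ≤ M := by rw [hM]; exact Nat.le_ceil _
  have hM2 : (M : ℝ) < 16 / (9 * h) + 1 := by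
    rw [hM]; exact Nat.ceil_lt_add_one (by positivity)
  have e1 : 16 / (9 * h) * d = R / 2 := by rw [hd]; field_simp; ring
  have hMd1 : R / 2 ≤ M * d := by rw [← e1]; exact mul_le_mul_of_nonneg_right hM1 hd0.le
  have hMd2 : M * d ≤ R / 2 + d := by
    have := mul_le_mul_of_nonneg_right hM2.le hd0.le
    rw [add_mul, e1, one_mul] at this
    exact this
  obtain ⟨b, hb⟩ : ∃ b, b = t₀ - R / 4 - d := ⟨_, rfl⟩
  have hdR : d ≤ 9 / 64 * R := by rw [hd]; nlinarith
  have hhd : h * R ≤ 4 * d := by rw [hd]; nlinarith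
  -- the partition of unity
  have hfT : ∀ j, Test T (fun t x => th b d j t * φ t x) := fun j => test_mul hφ (th_smooth b d j)
  have hsum : (fun t x => ∑ j ∈ Finset.range (M + 1), th b d j t * φ t x) = φ := by
    funext t x
    rw [← Finset.sum_mul, th_sum]
    by_cases h1 : φ t x = 0
    · rw [h1, mul_zero]
    · have h2 : (t, x) ∈ tsupport (fun z : ℝ × V => φ z.1 z.2) := subset_tsupport _ h1
      have h3 := (hsupp' h2).1
      simp only at h3
      rw [st_one hd0 (by rw [hb]; push_cast; linarith [h3.1]),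
        st_zero hd0 (by rw [hb]; push_cast; linarith [h3.2]), sub_zero, one_mul]
  have hLL : LL G u p φ = ∑ j ∈ Finset.range (M + 1), LL G u p (fun t x => th b d j t * φ t x) := by
    have h1 := (LL_sum hL0 hT hfT M).2
    rw [hsum] at h1
    exact h1
  -- the integrals of F
  obtain ⟨F, hF⟩ : ∃ F : ℝ → ℝ≥0∞, F = fun τ => Y7.FtG 16 G u (τ, y) := ⟨_, rfl⟩
  obtain ⟨s, hs⟩ : ∃ s : ℕ → ℝ, s = fun j : ℕ => b + ((j : ℝ) + 2) * d := ⟨_, rfl⟩
  obtain ⟨I, hI⟩ : ∃ I : ℕ → ℝ≥0∞, I = fun j => ∫⁻ τ in Ioo (s j - h * R) (s j), F τ := ⟨_, rfl⟩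
  obtain ⟨b', hb'⟩ : ∃ b', b' = b - 2 * d := ⟨_, rfl⟩
  obtain ⟨A, hA⟩ : ∃ A : ℕ → ℝ≥0∞, A = fun l : ℕ => ∫⁻ τ in Ioc (b' + l * d) (b' + (l + 1) * d), F τ :=
    ⟨_, rfl⟩
  have hIle : ∀ j, I j ≤ ∑ k ∈ Finset.range 4, A (k + j) := by
    intro j
    have h1 := A2.sum_Ioc F (b' + j * d) d hd0.le 4
    have h2 : ∑ k ∈ Finset.range 4, A (k + j) = ∑ k ∈ Finset.range 4,
        ∫⁻ t in Ioc (b' + j * d + k * d) (b' + j * d + (k + 1) * d), F t := by
      refine Finset.sum_congr rfl fun k _ => ?_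
      rw [hA]
      simp only
      have h3 : b' + ((k + j : ℕ) : ℝ) * d = b' + j * d + k * d := by push_cast; ring
      have h4 : b' + (((k + j : ℕ) : ℝ) + 1) * d = b' + j * d + (k + 1) * d := by push_cast; ring
      rw [h3, h4]
    rw [h2, h1, hI]
    refine lintegral_mono_set ?_
    intro x hx
    simp only [hs] at hx
    rw [hb']
    push_cast
    exact ⟨by linarith [hx.1], by linarith [hx.2]⟩
  have hcov : Ioc b' (b' + ((M + 4 : ℕ) : ℝ) * d) ⊆ Wi t₀ i := by
    rw [hWi]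
    intro x hx
    rw [hb', hb] at hx
    push_cast at hx
    constructor
    · linarith [hx.1]
    · linarith [hx.2]
  have hsumF : ∑ l ∈ Finset.range (M + 4), A l ≤ ENNReal.ofReal (e / R) := by
    rw [hA, A2.sum_Ioc F b' d hd0.le]
    refine (lintegral_mono_set hcov).trans ?_
    rw [hF]
    exact hL'
  have hsumI : ∑ j ∈ Finset.range (M + 1), I j ≤ 4 * ENNReal.ofReal (e / R) := by
    calc ∑ j ∈ Finset.range (M + 1), I j
        ≤ ∑ j ∈ Finset.range (M + 1), ∑ k ∈ Finset.range 4, A (k + j) :=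
          Finset.sum_le_sum fun j _ => hIle j
      _ = ∑ k ∈ Finset.range 4, ∑ j ∈ Finset.range (M + 1), A (k + j) := Finset.sum_comm
      _ ≤ ∑ _k ∈ Finset.range 4, ENNReal.ofReal (e / R) := by
          refine Finset.sum_le_sum fun k hk => (shift_sum A ?_).trans hsumF
          have := Finset.mem_range.1 hk
          omega
      _ = _ := by
          rw [Finset.sum_const, Finset.card_range, nsmul_eq_mul]
          norm_num
  have h4fin : (4 : ℝ≥0∞) * ENNReal.ofReal (e / R) < ⊤ :=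
    ENNReal.mul_lt_top (by norm_num) ENNReal.ofReal_lt_top
  have hfin : ∀ j ∈ Finset.range (M + 1), I j ≠ ⊤ := by
    intro j hj
    have h1 := Finset.single_le_sum (f := I) (fun _ _ => bot_le) hj
    exact ((h1.trans hsumI).trans_lt h4fin).ne
  have hsumR : ∑ j ∈ Finset.range (M + 1), (I j).toReal ≤ 4 * (e / R) := by
    rw [← ENNReal.toReal_sum hfin]
    have h1 := ENNReal.toReal_mono h4fin.ne hsumI
    rwa [ENNReal.toReal_mul, ENNReal.toReal_ofNat, ENNReal.toReal_ofReal (by positivity)] at h1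
  obtain ⟨g, hg⟩ : ∃ g : ℕ → ℝ, g = fun j => R * (I j).toReal + e * h := ⟨_, rfl⟩
  have hg0 : ∀ j, 0 < g j := by
    intro j
    rw [hg]
    have : 0 ≤ R * (I j).toReal := by positivity
    have := mul_pos he hh0
    show 0 < R * (I j).toReal + e * h
    linarith
  have hNh : ((M + 1 : ℕ) : ℝ) * h ≤ 3 := by
    have h1 : (16 / (9 * h) + 1) * h = 16 / 9 + h := by field_simp
    have h2 := mul_le_mul_of_nonneg_right hM2.le hh0.le
    rw [h1] at h2
    push_cast
    linarith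
  have hsumg : ∑ j ∈ Finset.range (M + 1), g j ≤ 7 * e := by
    rw [hg, Finset.sum_add_distrib, ← Finset.mul_sum, Finset.sum_const, Finset.card_range,
      nsmul_eq_mul]
    have h1 : R * ∑ j ∈ Finset.range (M + 1), (I j).toReal ≤ R * (4 * (e / R)) :=
      mul_le_mul_of_nonneg_left hsumR hR0.le
    have h2 : R * (4 * (e / R)) = 4 * e := by field_simp
    have h3 : ((M + 1 : ℕ) : ℝ) * (e * h) ≤ 3 * e := by
      have := mul_le_mul_of_nonneg_right hNh he.le
      linarith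
    linarith
  -- the windows
  have hwin : ∀ j ∈ Finset.range (M + 1), LL G u p (fun t x => th b d j t * φ t x) ≤
      C * rr i * (g j / h + g j ^ 2) := by
    intro j hj
    have hjN : (j : ℝ) + 1 ≤ M + 1 := by exact_mod_cast Finset.mem_range.1 hj
    have hj0 : (0 : ℝ) ≤ j := Nat.cast_nonneg j
    have hsj : s j = b + ((j : ℝ) + 2) * d := by rw [hs]
    have hjd0 : 0 ≤ (j : ℝ) * d := by positivity
    have hjd1 : (j : ℝ) * d ≤ M * d := mul_le_mul_of_nonneg_right (by linarith) hd0.le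
    have h1 : t₀ - R ≤ s j - h * R := by
      rw [hsj, hb]
      linarith
    have h2 : s j < t₀ + R := by
      rw [hsj, hb]
      linarith
    have h3 : ∫⁻ τ in Ioo (s j - h * R) (s j), Y7.FtG 16 G u (τ, y) ≤
        ENNReal.ofReal (g j / R) := by
      have h4 : I j = ∫⁻ τ in Ioo (s j - h * R) (s j), Y7.FtG 16 G u (τ, y) := by
        rw [hI, hF]
      rw [← h4, ← ENNReal.ofReal_toReal (hfin j hj)]
      refine ENNReal.ofReal_le_ofReal ?_
      rw [le_div_iff₀ hR0, hg]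
      have := mul_pos he hh0
      show (I j).toReal * R ≤ R * (I j).toReal + e * h
      linarith
    refine hHR (s j) (g j) h1 h2 (hg0 j) h3 _ (hfT j)
      (fun t x => mul_nonneg (th_nonneg hd0 j t) (hφ0 t x))
      (fun t x => mul_le_one₀ (th_le_one b d j t) (hφ0 t x) (hφ1 t x)) ?_
    refine (tsupp_mul isClosed_Icc (fun t => th_supp hd0 (j := j) (t := t)) hsupp').trans ?_
    refine prod_mono ?_ subset_rfl
    intro x hx
    have h5 : 9 / 16 * h * R = 2 * d := by rw [hd]; ring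
    rw [h5, hsj]
    constructor
    · linarith [hx.1]
    · linarith [hx.2]
  rw [hLL]
  refine (Finset.sum_le_sum hwin).trans ?_
  rw [← Finset.mul_sum, Finset.sum_add_distrib, ← Finset.sum_div]
  have h8 : ∑ j ∈ Finset.range (M + 1), g j ^ 2 ≤ (7 * e) ^ 2 := by
    have h13 : ∑ j ∈ Finset.range (M + 1), g j ^ 2 ≤
        ∑ j ∈ Finset.range (M + 1), g j * ∑ l ∈ Finset.range (M + 1), g l := by
      refine Finset.sum_le_sum fun j hj => ?_
      rw [sq]
      exact mul_le_mul_of_nonneg_left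
        (Finset.single_le_sum (fun l _ => (hg0 l).le) hj) (hg0 j).le
    rw [← Finset.sum_mul, ← sq] at h13
    exact h13.trans
      (pow_le_pow_left₀ (Finset.sum_nonneg fun j _ => (hg0 j).le) hsumg 2)
  have h9 : (∑ j ∈ Finset.range (M + 1), g j) / h ≤ 7 * e / h :=
    div_le_div_of_nonneg_right hsumg hh0.le
  have h10 : 7 * e / h = 7 / c * ((1 + a) * e + e ^ 2) := by
    rw [mul_div_assoc, heh]; ring
  have h11 : (7 * e) ^ 2 ≤ 49 * ((1 + a) * e + e ^ 2) := by
    nlinarith [mul_nonneg ha he.le, sq_nonneg e]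
  have h12 : C * (7 / c + 49) * rr i * ((1 + a) * e + e ^ 2) =
    C * rr i * (7 / c * ((1 + a) * e + e ^ 2) + 49 * ((1 + a) * e + e ^ 2)) := by ring
  rw [h12]
  refine mul_le_mul_of_nonneg_left ?_ (by positivity)
  linarith

end Pool.Agent.N976.EQ
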