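import Pool.Agent.N976.EQ.Stm

/-!
Project EQ (helper976), part Q9 (helper27, after the part A9 of TL by helper40): the properties of the
singular points with the defect.
-/

set_option autoImplicit false

open MeasureTheory Set Metric
open scoped ContDiff ENNReal

namespace Pool.Agent.N976.EQ

open H459R3.NS W221.NS Pool.Agent.Y8 Pool.Agent.N977.H Pool.Agent.N976.TL

namespace Q9

theorem lim_le {α : Type*} [TopologicalSpace α] [Preorder α] [OrderClosedTopology α]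
    {g : ℝ → α} (hg : Continuous g) {a : α} {e : ℝ} (h : ∀ e' > e, a ≤ g e') : a ≤ g e := by
  have h1 : Filter.Tendsto g (nhdsWithin e (Ioi e)) (nhds (g e)) :=
    (hg.tendsto e).mono_left nhdsWithin_le_nhds
  refine ge_of_tendsto h1 ?_
  filter_upwards [self_mem_nhdsWithin] with e' he'
  exact h e' he'

theorem XX_nonneg (w : V → V) (x : V) (i : ℕ) : 0 ≤ XX w x i := by
  unfold XX
  refine add_nonneg (sq_nonneg _) ?_
  unfold A2
  refine integral_nonneg fun z => ?_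
  exact Finset.sum_nonneg fun j _ => sq_nonneg _

/-- the supremum of the size -/
noncomputable def Xs (G : Set ℝ) (u : ℝ → V → V) (t₀ : ℝ) (x₀ : V) (i : ℕ) : ℝ :=
  sSup ((fun t => XX (u t) x₀ i) '' (Wi t₀ i ∩ G))

theorem Xs_nonneg (G : Set ℝ) (u : ℝ → V → V) (t₀ : ℝ) (x₀ : V) (i : ℕ) :
    0 ≤ Xs G u t₀ x₀ i := by
  apply Real.sSup_nonneg
  rintro _ ⟨t, _, rfl⟩
  exact XX_nonneg _ _ _

theorem Xs_le {G : Set ℝ} {u : ℝ → V → V} {t₀ : ℝ} {x₀ : V} {i : ℕ} {M : ℝ} (hM : 0 ≤ M)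
    (h : ∀ t ∈ Wi t₀ i ∩ G, XX (u t) x₀ i ≤ M) : Xs G u t₀ x₀ i ≤ M := by
  apply Real.sSup_le _ hM
  rintro _ ⟨t, ht, rfl⟩
  exact h t ht

theorem le_Xs {G : Set ℝ} {u : ℝ → V → V} {t₀ : ℝ} {x₀ : V} {i : ℕ} {M : ℝ}
    (h : ∀ t ∈ Wi t₀ i ∩ G, XX (u t) x₀ i ≤ M) : ∀ t ∈ Wi t₀ i ∩ G,
    XX (u t) x₀ i ≤ Xs G u t₀ x₀ i := by
  intro t ht
  apply le_csSup
  · refine ⟨M, ?_⟩
    rintro _ ⟨s, hs, rfl⟩
    exact h s hs
  · exact ⟨t, ht, rfl⟩

theorem mo_le {w : V → V} {x : V} {i : ℕ} {M : ℝ} (h : XX w x i ≤ M) :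
    rr i * ‖mo (rr i) w x‖ ≤ √M := by
  apply Real.le_sqrt_of_sq_le
  refine le_trans ?_ h
  unfold XX
  have h1 : 0 ≤ A2 0 4 (Y7.fr (rr i) w x) := by
    unfold A2
    refine integral_nonneg fun z => ?_
    exact Finset.sum_nonneg fun j _ => sq_nonneg _
  linarith

theorem Cy_sub3 (i : ℕ) (z : ℝ × V) : Cy (i + 3) z ⊆ Cy (i + 1) z := by
  have h1 : rr (i + 3) ≤ rr (i + 1) := rr_anti (by omega)
  have h2 : rr (i + 3) ^ 2 ≤ rr (i + 1) ^ 2 := pow_le_pow_left₀ (rr0 _).le h1 2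
  unfold Cy Wi
  exact prod_mono (Ioo_subset_Ioo (by linarith) (by linarith)) (ball_subset_ball h1)

end Q9

theorem t_Q9 : S_K6 → S_A4 → S_A5 → S_A6 → S_A7 → S_A8 → S_Q9 := by
  rintro ⟨C₆, hC₆, h66⟩ ⟨m, C₄, hm, hC₄, h4⟩ ⟨C₅, hC₅, h5⟩ ⟨θ₆, hθ₆, h6⟩ ⟨C₇, hC₇, h7⟩ h8
  refine ⟨m, max (max C₄ (C₅ * (C₄ + 1))) C₆, θ₆ / 2, hm,
    lt_max_of_lt_left (lt_max_of_lt_left hC₄), half_pos hθ₆, ?_⟩
  intro T E D G u p hN
  refine ⟨max 1 (C₇ * E ^ 2), le_max_left _ _, ?_⟩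
  intro i₀ z hi₀ hlo hhi hsing
  have h8' := fun i => h8 T E D G u p hN z.1 z.2 i
  choose e he0 helow heup using h8'
  have hspv : ∀ t ∈ G, SPV (u t) := fun t ht => hN.spv ht
  have hbd : ∀ i, 3 ≤ i → ∀ t ∈ Wi z.1 i ∩ G, XX (u t) z.2 i ≤ C₇ * E ^ 2 * 2 ^ i :=
    fun i hi t ht => h7 (u t) E (hspv t ht.2) (hN.energy_le t ht.2) i z.2 hi
  set X : ℕ → ℝ := fun i => Q9.Xs G u z.1 z.2 i with hX
  have hX0 : ∀ i, 0 ≤ X i := fun i => Q9.Xs_nonneg G u z.1 z.2 i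
  have hXle : ∀ i, 3 ≤ i → ∀ t ∈ Wi z.1 i ∩ G, XX (u t) z.2 i ≤ X i :=
    fun i hi => Q9.le_Xs (hbd i hi)
  have hLv : ∀ i ≥ i₀, ∀ e' > e i, ∃ y, LvD T G u z.1 z.2 y i e' := by
    intro i hi e' he'
    obtain ⟨y, hy1, hy2⟩ := heup i e' he'
    have h1 : rr i ^ 2 ≤ rr i₀ ^ 2 := pow_le_pow_left₀ (rr0 i).le (rr_anti hi) 2
    exact ⟨y, ⟨by linarith, by linarith, hy1, lt_of_le_of_lt (he0 i) he', hy2⟩⟩
  refine ⟨e, X, ⟨he0, hX0, fun i _ => helow i, ?_, ?_, ?_, ?_⟩, ?_⟩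
  · -- the recursion
    intro i hi
    have hC : C₄ ≤ max (max C₄ (C₅ * (C₄ + 1))) C₆ := (le_max_left _ _).trans (le_max_left _ _)
    have hee : 0 ≤ e i + e i ^ 2 := add_nonneg (he0 i) (sq_nonneg _)
    have h1 : X (i + m) ≤ X i / 4 + C₄ * (e i + e i ^ 2) := by
      apply Q9.Xs_le (by have := hX0 i; positivity)
      intro t ht
      refine Q9.lim_le (g := fun e' : ℝ => X i / 4 + C₄ * (e' + e' ^ 2)) (by fun_prop) ?_
      intro e' he'
      obtain ⟨y, hy⟩ := hLv i hi e' he'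
      exact (h4 T E D G u p hN z.1 z.2 y i e' (X i) hy (hX0 i) (hXle i (by omega))).1 t ht
    refine h1.trans ?_
    have := mul_le_mul_of_nonneg_right hC hee
    linarith
  · -- the criterion
    intro i hi
    by_contra hcon
    push Not at hcon
    obtain ⟨y, hy⟩ := hLv i hi θ₆ (by linarith [hcon.2])
    exact h6 T E D G u p hN z.1 z.2 y i hy
      (fun t ht => (hXle i (by omega) t ht).trans (by linarith [hcon.1])) hsing
  · -- the mass
    intro i hi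
    have hr := rr0 i
    have h1 : ∫⁻ q in Cy (i + 3) z, Y7.FtG 16 G u q ≤
        ENNReal.ofReal (C₅ * (C₄ * rr i * ((1 + √(X i)) * e i + e i ^ 2) + rr i * e i)) := by
      refine Q9.lim_le (g := fun e' : ℝ => ENNReal.ofReal
        (C₅ * (C₄ * rr i * ((1 + √(X i)) * e' + e' ^ 2) + rr i * e')))
        (ENNReal.continuous_ofReal.comp (by fun_prop)) ?_
      intro e' he'
      have he'0 : 0 < e' := lt_of_le_of_lt (he0 i) he'
      obtain ⟨y, hy⟩ := hLv i hi e' he'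
      have h2 := (h4 T E D G u p hN z.1 z.2 y i e' (X i) hy (hX0 i) (hXle i (by omega))).2
      exact h5 T E D G u p hN z.1 z.2 y i e' _ hy (by positivity) h2
    refine h1.trans (ENNReal.ofReal_le_ofReal ?_)
    have hs : 0 ≤ √(X i) := Real.sqrt_nonneg _
    have he := he0 i
    have h2 : e i ≤ (1 + √(X i)) * e i + e i ^ 2 := by nlinarith [mul_nonneg hs he]
    have hQ : 0 ≤ (1 + √(X i)) * e i + e i ^ 2 := le_trans he h2
    calc C₅ * (C₄ * rr i * ((1 + √(X i)) * e i + e i ^ 2) + rr i * e i)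
        ≤ C₅ * (C₄ * rr i * ((1 + √(X i)) * e i + e i ^ 2) +
            rr i * ((1 + √(X i)) * e i + e i ^ 2)) := by gcongr
      _ = (C₅ * (C₄ + 1)) * (rr i * ((1 + √(X i)) * e i + e i ^ 2)) := by ring
      _ ≤ max (max C₄ (C₅ * (C₄ + 1))) C₆ * (rr i * ((1 + √(X i)) * e i + e i ^ 2)) :=
          mul_le_mul_of_nonneg_right ((le_max_right _ _).trans (le_max_left _ _)) (by positivity)
      _ = _ := by ring
  · -- the bound by the energy
    intro i hi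
    have h1 : X i ≤ C₇ * E ^ 2 * 2 ^ i := Q9.Xs_le (by positivity) (hbd i (by omega))
    exact h1.trans (mul_le_mul_of_nonneg_right (le_max_right _ _) (by positivity))
  · -- the defect
    intro i hi φ hφ hφ0 hφ1 hφs
    have hr := rr0 i
    have h1 : LL G u p φ ≤ C₆ * rr i * ((1 + √(X i)) * e i + e i ^ 2) := by
      refine Q9.lim_le (g := fun e' : ℝ => C₆ * rr i * ((1 + √(X i)) * e' + e' ^ 2))
        (by fun_prop) ?_
      intro e' he'
      obtain ⟨y, hy⟩ := hLv i hi e' he'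
      exact h66 T E D G u p hN z.1 z.2 y i (√(X i)) e' hy (Real.sqrt_nonneg _)
        (fun t ht => Q9.mo_le (hXle i (by omega) t ht)) φ hφ hφ0 hφ1
        (hφs.trans (Q9.Cy_sub3 i z))
    refine h1.trans ?_
    have hs : 0 ≤ √(X i) := Real.sqrt_nonneg _
    have he := he0 i
    have hQ : 0 ≤ (1 + √(X i)) * e i + e i ^ 2 := by positivity
    have h2 : C₆ ≤ max (max C₄ (C₅ * (C₄ + 1))) C₆ := le_max_right _ _
    gcongr

end Pool.Agent.N976.EQ
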