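import Pool.Agent.N976.EQ.Stm
import Pool.Agent.N976.TL.BM
import Pool.Agent.N976.TL.B4
import Pool.Agent.N976.TL.B2

/-!
Project EQ (helper976), part QT: the covers by good cylinders (by helper619). The iteration is the
one of `TL/BM.lean`; at the final level the good levels of `S_B1` are used directly.
-/

set_option autoImplicit false

open MeasureTheory Set Metric
open scoped ContDiff ENNReal

namespace Pool.Agent.N976.EQ

open H459R3.NS W221.NS Pool.Agent.Y8 Pool.Agent.N977.H Pool.Agent.N976.TL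

namespace QT

/-- The sum of the integrals over the cylinders. -/
lemma ovl {F : ℝ × V → ℝ≥0∞} (hF : Measurable F) {K U : Set (ℝ × V)} (hU : U ⊆ K) {l w : ℕ}
    (hl : 1 ≤ l) (lv : ℝ × V → ℕ) (h1 : ∀ b ∈ U, l ≤ lv b) (h2 : ∀ b ∈ U, lv b ≤ l + w)
    (hd : U.PairwiseDisjoint (fun b => Cy (lv b + 6) b)) (hc : U.Countable) :
    ∑' b : U, ∫⁻ q in Cy (lv b) b, F q
      ≤ ((2 ^ 35 * (w + 1) : ℕ) : ℝ≥0∞) * ∫⁻ q in Nb K l, F q := by
  have := hc.to_subtype
  have hm : ∀ b : U, MeasurableSet (Cy (lv b) (b : ℝ × V)) := fun b =>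
    (B4.Cy_open _ _).measurableSet
  have hm' : MeasurableSet (Nb K l) := (B4.Nb_open _ _).measurableSet
  have e1 : ∑' b : U, ∫⁻ q in Cy (lv b) (b : ℝ × V), F q
      = ∫⁻ q, ∑' b : U, (Cy (lv b) (b : ℝ × V)).indicator F q := by
    rw [lintegral_tsum fun b => (hF.indicator (hm b)).aemeasurable]
    exact tsum_congr fun b => (lintegral_indicator (hm b) F).symm
  rw [e1, ← lintegral_indicator hm', ← lintegral_const_mul _ (hF.indicator hm')]
  refine lintegral_mono fun p => ?_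
  by_cases hp : p ∈ Nb K l
  · rw [indicator_of_mem hp]
    rw [ENNReal.tsum_eq_iSup_sum]
    refine iSup_le fun T => ?_
    classical
    have e2 : ∑ b ∈ T, (Cy (lv b) (b : ℝ × V)).indicator F p
        = ((T.filter fun b : U => p ∈ Cy (lv b) (b : ℝ × V)).card : ℝ≥0∞) * F p := by
      rw [← nsmul_eq_mul, ← Finset.sum_const, Finset.sum_filter]
      refine Finset.sum_congr rfl fun b _ => ?_
      by_cases hb : p ∈ Cy (lv b) (b : ℝ × V)
      · rw [if_pos hb, indicator_of_mem hb]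
      · rw [if_neg hb, indicator_of_notMem hb]
    rw [e2]
    gcongr
    rw [← Finset.card_map (Function.Embedding.subtype (· ∈ U))]
    refine B4.cnt hl lv _ ?_ ?_ ?_ ?_ (p := p)
    · intro b hb
      obtain ⟨c, _, rfl⟩ := Finset.mem_map.1 hb
      exact h1 _ c.2
    · intro b hb
      obtain ⟨c, _, rfl⟩ := Finset.mem_map.1 hb
      exact h2 _ c.2
    · intro b hb
      obtain ⟨c, hc', rfl⟩ := Finset.mem_map.1 hb
      exact (Finset.mem_filter.1 hc').2
    · refine hd.subset ?_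
      intro b hb
      obtain ⟨c, _, rfl⟩ := Finset.mem_map.1 (Finset.mem_coe.1 hb)
      exact c.2
  · have e3 : ∀ b : U, (Cy (lv b) (b : ℝ × V)).indicator F p = 0 := by
      intro b
      refine indicator_of_notMem (fun h => hp ?_) _
      exact mem_iUnion₂.2 ⟨b, hU b.2, B4.Cy_anti (h1 b b.2) _ h⟩
    simp only [e3, tsum_zero]
    exact zero_le

/-- The bound of the weight of a good cylinder. -/
lemma wt {P₁ M e X : ℝ} (hP : 0 ≤ P₁) (hP1 : 1 ≤ P₁) (he : 0 ≤ e) (heM : e ≤ M)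
    (hX : X ≤ P₁ * e ^ 2) : (1 + √X) * e + e ^ 2 ≤ (1 + (P₁ + 1) * M) * e := by
  have h6 : √X ≤ P₁ * e := by
    rw [Real.sqrt_le_left (by positivity)]
    nlinarith [sq_nonneg e, mul_nonneg (mul_nonneg hP (sub_nonneg.2 hP1)) (sq_nonneg e)]
  have h7 : (P₁ + 1) * e ≤ (P₁ + 1) * M := mul_le_mul_of_nonneg_left heM (by linarith)
  calc (1 + √X) * e + e ^ 2 = (1 + √X + e) * e := by ring
    _ ≤ (1 + (P₁ + 1) * M) * e := by
        apply mul_le_mul_of_nonneg_right _ he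
        linarith

/-- The cover at one level. -/
lemma cover {F : ℝ × V → ℝ≥0∞} (hF : Measurable F) {K : Set (ℝ × V)} {e X : ℝ × V → ℕ → ℝ}
    {l w : ℕ} {P₁ M : ℝ} (hl : 1 ≤ l) (hP1 : 1 ≤ P₁) (hM : 0 ≤ M)
    (h : ∀ z ∈ K, ∃ i, l ≤ i ∧ i ≤ l + w ∧ 0 ≤ e z i ∧ X z i ≤ P₁ * e z i ^ 2 ∧ e z i ≤ M ∧
      ENNReal.ofReal (rr i * e z i / 32768) ≤ ∫⁻ q in Cy i z, F q) :
    ∃ (U : Set (ℝ × V)) (lv : ℝ × V → ℕ), U.Countable ∧ U ⊆ K ∧ (∀ z ∈ U, l ≤ lv z) ∧
      K ⊆ ⋃ z ∈ U, Cy (lv z + 3) z ∧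
      ∑' z : U, ENNReal.ofReal (rr (lv z) *
        ((1 + √(X z (lv z))) * e z (lv z) + e z (lv z) ^ 2))
        ≤ ENNReal.ofReal (32768 * (1 + (P₁ + 1) * M) * (2 ^ 35 * (w + 1))) *
          ∫⁻ q in Nb K l, F q := by
  choose! lv g1 g2 g3 g4 g5 g6 using h
  obtain ⟨U, hU, hd, hcov⟩ := Vitali.exists_disjoint_subfamily_covering_enlargement
    (fun z : ℝ × V => Cy (lv z + 6) z) K (fun z => rr (lv z)) (3 / 2) (by norm_num)
    (fun z _ => (rr0 _).le) 1 (fun z _ => rr1 _) (fun z _ => ⟨z, B4.Cy_self _ _⟩)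
  have hc : U.Countable := hd.countable_of_isOpen (fun z _ => B4.Cy_open _ _)
    (fun z _ => ⟨z, B4.Cy_self _ _⟩)
  refine ⟨U, lv, hc, hU, fun z hz => g1 z (hU hz), ?_, ?_⟩
  · intro z hz
    obtain ⟨u, hu, ⟨p, hp1, hp2⟩, hr⟩ := hcov z hz
    refine mem_iUnion₂.2 ⟨u, hu, ?_⟩
    refine B4.cov (i := lv z) (i' := lv u) (j := lv u + 4) ?_ le_rfl (B4.Cy_self _ z) hp1 hp2
    by_contra hlt
    have h1 : rr (lv u) ≤ rr (lv z + 1) := rr_anti (Nat.lt_of_not_le hlt)
    rw [rrS] at h1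
    have h2 := rr0 (lv z)
    linarith
  · have hc0 : 0 ≤ 1 + (P₁ + 1) * M := by nlinarith
    calc ∑' z : U, ENNReal.ofReal (rr (lv z) *
          ((1 + √(X z (lv z))) * e z (lv z) + e z (lv z) ^ 2))
        ≤ ∑' z : U, ENNReal.ofReal (32768 * (1 + (P₁ + 1) * M)) *
            ∫⁻ q in Cy (lv z) (z : ℝ × V), F q := by
          refine ENNReal.tsum_le_tsum fun z => ?_
          have hz := hU z.2
          refine le_trans ?_ (mul_le_mul_right (g6 z hz) _)
          rw [← ENNReal.ofReal_mul (by positivity)]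
          apply ENNReal.ofReal_le_ofReal
          have h1 := wt (by linarith) hP1 (g3 z hz) (g5 z hz) (g4 z hz)
          have h2 := mul_le_mul_of_nonneg_left h1 (rr0 (lv z)).le
          refine h2.trans (le_of_eq ?_)
          ring
      _ = ENNReal.ofReal (32768 * (1 + (P₁ + 1) * M)) *
            ∑' z : U, ∫⁻ q in Cy (lv z) (z : ℝ × V), F q := ENNReal.tsum_mul_left
      _ ≤ ENNReal.ofReal (32768 * (1 + (P₁ + 1) * M)) *
            (((2 ^ 35 * (w + 1) : ℕ) : ℝ≥0∞) * ∫⁻ q in Nb K l, F q) := by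
          gcongr
          exact ovl hF hU hl lv (fun b hb => g1 b (hU hb)) (fun b hb => g2 b (hU hb)) hd hc
      _ = ENNReal.ofReal (32768 * (1 + (P₁ + 1) * M) * (2 ^ 35 * (w + 1))) *
            ∫⁻ q in Nb K l, F q := by
          rw [← mul_assoc, ← ENNReal.ofReal_natCast, ← ENNReal.ofReal_mul (by positivity)]
          congr 2
          push_cast
          ring

end QT

open QT

theorem t_QT : TL.S_B1 → TL.S_B2 → TL.S_B4 → S_QT := by
  intro hB1 hB2 hB4 m C θ hm hC hθ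
  obtain ⟨P1, θ', hP1, hθ', key⟩ := hB1 m (max C 32768) θ hm (lt_max_of_lt_left hC) hθ
  obtain ⟨P2, hP2, hB2⟩ := hB2 m C θ hm hC hθ
  obtain ⟨C4, hC4, hB4⟩ := hB4
  set C' : ℝ := max C 32768 with hC'
  have hC'1 : 1 ≤ C' := le_trans (by norm_num) (le_max_right _ _)
  set P3 : ℝ := P1 + P2 with hP3
  have hP3' : 1 ≤ P3 := by linarith
  have hl2 : 0 ≤ Real.log (28311552 * P2) := Real.log_nonneg (by nlinarith)
  set cs : ℝ := 2 * P3 + 4 + (Real.log (28311552 * P2) + (P2 + 1) + 1) with hcs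
  have hcs1 : 1 ≤ cs := by rw [hcs]; linarith
  set cq : ℝ := 1 + C4 * P2 * (2 * P3 + 1) with hcq
  have hcq1 : 1 ≤ cq := by
    rw [hcq]
    have : 0 ≤ C4 * P2 * (2 * P3 + 1) := by positivity
    linarith
  set ce : ℝ := 32768 * (1 + (P1 + 1) * C') * (2 ^ 35 * (2 * P3 + 1)) with hce
  have hce0 : 0 ≤ ce := by positivity
  set P : ℝ := 8 * P3 + 8 + 2 * cs + cs * cq + 3 * ce with hP
  have hcc : 1 ≤ cs * cq := by nlinarith
  have hPp : 8 ≤ P := by rw [hP]; nlinarith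
  have hP1' : 1 ≤ P := by linarith
  refine ⟨P, hP1', fun F hF K B D Λ k₀ J e X hB hD hΛ hPt hd hDk hJ => ?_⟩
  have hΛ0 : 0 < Λ := by linarith
  have hlB : 0 ≤ Real.log B := Real.log_nonneg hB
  have hlΛ : 0 ≤ Real.log Λ := Real.log_nonneg hΛ
  set lam : ℝ := 1 + Real.log Λ with hlam
  have hlam1 : 1 ≤ lam := by linarith
  have hlamΛ : lam ≤ Λ := by
    have := Real.log_le_sub_one_of_pos hΛ0
    linarith
  set κ : ℝ := k₀ + 1 + Real.log B + Real.log Λ with hκ
  have hk0 : (0 : ℝ) ≤ k₀ := Nat.cast_nonneg _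
  have hκ1 : 1 ≤ κ := by rw [hκ]; linarith
  have hκlam : lam ≤ κ := by rw [hκ, hlam]; linarith
  have hκk : k₀ + 1 + Real.log B ≤ κ := by rw [hκ]; linarith
  have hs1 : 1 ≤ √Λ := Real.one_le_sqrt.2 hΛ
  -- the parameters
  set k : ℕ := ⌈P3 * (k₀ + 1 + Real.log B)⌉₊ with hk
  have hk1 : P3 * (k₀ + 1 + Real.log B) ≤ k := Nat.le_ceil _
  have hk2 : (k : ℝ) ≤ P3 * (k₀ + 1 + Real.log B) + 1 := (Nat.ceil_lt_add_one (by positivity)).le
  set w : ℕ := ⌈P3 * lam⌉₊ with hw
  have hw1 : P3 * lam ≤ w := Nat.le_ceil _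
  have hw2 : (w : ℝ) ≤ P3 * lam + 1 := (Nat.ceil_lt_add_one (by positivity)).le
  have hPl : 1 ≤ P3 * lam := by nlinarith
  obtain ⟨r, hr1, hr2⟩ := BM.choose_r P2 Λ hP2 hΛ
  set s : ℕ := w + 4 + r with hs
  have hscs : (s : ℝ) ≤ cs * lam := by
    have h1 : (s : ℝ) = w + 4 + r := by rw [hs]; push_cast; ring
    rw [h1, hcs]
    have h2 : (w : ℝ) ≤ 2 * P3 * lam := by linarith
    have h3 : (4 : ℝ) ≤ 4 * lam := by linarith
    nlinarith
  have hspos : (0 : ℝ) < s := by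
    have : 0 < s := by omega
    exact_mod_cast this
  set a : ℝ := P2 * √Λ with ha
  set b : ℝ := 1 / (P2 * Λ ^ P2) with hb
  have hΛP : 0 < Λ ^ P2 := Real.rpow_pos_of_pos hΛ0 _
  have ha0 : 0 < a := by positivity
  have hb0 : 0 < b := by positivity
  have hkB : 0 ≤ k₀ + 1 + Real.log B := by positivity
  have hGd : ∀ z ∈ K, Gd F a b Λ w k J z := by
    intro z hz
    refine hB2 F hF z (e z) (X z) B Λ k₀ J hB hΛ (hPt z hz) (hd z hz) k w ?_ ?_
    · exact (mul_le_mul_of_nonneg_right (by linarith) hkB).trans hk1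
    · exact (mul_le_mul_of_nonneg_right (by linarith) (by linarith)).trans hw1
  have hkk0 : k₀ ≤ k := by
    have : (k₀ : ℝ) ≤ k := by nlinarith
    exact_mod_cast this
  -- the good levels
  have hlow : ∀ z ∈ K, ∀ i, k₀ ≤ i →
      ENNReal.ofReal (rr i * e z i / 32768) ≤ ∫⁻ q in Cy i z, F q :=
    fun z hz i hi => B2.low_int hF z i ((hPt z hz).e0 i) ((hPt z hz).low i hi)
  have hebd : ∀ z ∈ K, ∀ i, k₀ ≤ i → i ≤ J → e z i ≤ C' * Λ := by
    intro z hz i hi hiJ
    have h1 := (hlow z hz i hi).trans (hd z hz i hi hiJ)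
    have h2 := rr0 i
    rw [ENNReal.ofReal_le_ofReal_iff (by positivity)] at h1
    have h3 : rr i * e z i ≤ rr i * (32768 * Λ) := by
      rw [div_le_iff₀ (by norm_num)] at h1
      linarith
    have h4 : e z i ≤ 32768 * Λ := le_of_mul_le_mul_left h3 h2
    have h5 : 32768 * Λ ≤ C' * Λ := mul_le_mul_of_nonneg_right (le_max_right _ _) hΛ0.le
    linarith
  have hgood : ∀ l, k ≤ l → l + w ≤ J → ∀ z ∈ K, ∃ i, l ≤ i ∧ i ≤ l + w ∧ 0 ≤ e z i ∧
      X z i ≤ P1 * e z i ^ 2 ∧ e z i ≤ C' * Λ ∧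
      ENNReal.ofReal (rr i * e z i / 32768) ≤ ∫⁻ q in Cy i z, F q := by
    intro l hl hlJ z hz
    have hD' := hPt z hz
    have hrcs : ∀ i ≥ k₀, X z (i + m) ≤ X z i / 4 + C' * (e z i + e z i ^ 2) := by
      intro i hi
      have h1 := hD'.rcs i hi
      have h2 := hD'.e0 i
      have h3 : C * (e z i + e z i ^ 2) ≤ C' * (e z i + e z i ^ 2) :=
        mul_le_mul_of_nonneg_right (le_max_left _ _) (by positivity)
      linarith
    obtain ⟨i, i1, i2, i3, i4⟩ := key (e z) (X z) B Λ k₀ J hD'.e0 hD'.X0 hB hΛ hrcs hD'.crit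
      hD'.base (hebd z hz) l w
      (by
        have h1 : P1 * (k₀ + 1 + Real.log B) ≤ P3 * (k₀ + 1 + Real.log B) :=
          mul_le_mul_of_nonneg_right (by linarith) hkB
        have h2 : (k : ℝ) ≤ l := by exact_mod_cast hl
        linarith)
      (by
        have h1 : P1 * lam ≤ P3 * lam := mul_le_mul_of_nonneg_right (by linarith) (by linarith)
        linarith) hlJ
    exact ⟨i, i1, i2, hD'.e0 i, i4, hebd z hz i (by omega) (by omega),
      hlow z hz i (by omega)⟩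
  set l₀ : ℕ := k + 1 with hl₀
  have hT0 : ∫⁻ q in Nb K l₀, F q ≤ ENNReal.ofReal D :=
    (lintegral_mono_set (BM.Nb_anti K (by omega))).trans hDk
  set Q : ℝ := C4 * a * (w + 1) with hQ
  have hQ0 : 0 ≤ Q := by positivity
  have hl0w : (l₀ : ℝ) + w ≤ P * κ := by
    have h1 : (l₀ : ℝ) = k + 1 := by rw [hl₀]; push_cast; ring
    have h2 : P3 * (k₀ + 1 + Real.log B) ≤ P3 * κ := mul_le_mul_of_nonneg_left hκk (by linarith)
    have h3 : P3 * lam ≤ P3 * κ := mul_le_mul_of_nonneg_left hκlam (by linarith)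
    have h4 : (2 * P3 + 3) * κ ≤ P * κ := by
      apply mul_le_mul_of_nonneg_right _ (by linarith)
      rw [hP]
      nlinarith
    nlinarith
  have hl0wJ : l₀ + w ≤ J := by
    have : ((l₀ + w : ℕ) : ℝ) ≤ J := by
      push_cast
      exact hl0w.trans hJ
    exact_mod_cast this
  have hstep : ∀ l, l₀ ≤ l → l + s ≤ J - w →
      ∫⁻ q in Nb K (l + s), F q ≤ ENNReal.ofReal Q * ∫⁻ q in Nb K l \ Nb K (l + s), F q := by
    intro l hl hls
    refine hB4 F hF K a b Λ w k J ha0 hb0 hΛ hGd l (l + s) (by omega) (by omega) (by omega) ?_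
    have h1 := BM.rr_pow l w s (by omega)
    have h2 : s - w = 4 + r := by omega
    rw [h2] at h1
    have h3 : (4 : ℝ) ^ r ≤ 4 ^ (4 + r) := pow_le_pow_right₀ (by norm_num) (by omega)
    have h4 : 28311552 * Λ ≤ b * 4 ^ (4 + r) := by
      rw [hb, div_mul_eq_mul_div, one_mul, le_div_iff₀ (by positivity)]
      exact hr1.trans h3
    calc 28311552 * Λ * rr (l + s) ^ 2 ≤ b * 4 ^ (4 + r) * rr (l + s) ^ 2 :=
          mul_le_mul_of_nonneg_right h4 (sq_nonneg _)
      _ = b * rr (l + w) ^ 2 := by rw [← h1]; ring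
  have hs0 : 0 < s := by omega
  set n : ℕ := (J - w - l₀) / s with hn
  have hns : n * s ≤ J - w - l₀ := Nat.div_mul_le_self _ _
  have hns2 : J - w - l₀ < (n + 1) * s := by
    have := Nat.lt_div_mul_add (a := J - w - l₀) hs0
    rw [add_mul, one_mul]
    exact this
  set j : ℕ := l₀ + n * s with hj
  have hjw : j + w ≤ J := by omega
  have hj1 : 1 ≤ j := by omega
  have hIt := BM.iter F K l₀ s (J - w) Q D hQ0 hD hT0 hstep n (by omega)
  obtain ⟨U, lv, u1, u2, u3, u4, u5⟩ := cover hF (w := w) (M := C' * Λ) hj1 hP1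
    (by positivity) (hgood j (by omega) hjw)
  refine ⟨U, lv, u1, u2, fun z hz => ?_, u4, u5.trans ?_⟩
  · have := u3 z hz
    omega
  · -- the weight of the cylinders
    refine (mul_le_mul_right hIt _).trans ?_
    rw [← ENNReal.ofReal_mul (by positivity)]
    apply ENNReal.ofReal_le_ofReal
    have h2 := BM.pow_exp Q hQ0 n
    -- the exponent
    have hs1Q : (s : ℝ) * (1 + Q) ≤ P * √Λ * lam ^ 2 := by
      have h3 : 1 + Q ≤ cq * (√Λ * lam) := by
        have h4 : (w : ℝ) + 1 ≤ (2 * P3 + 1) * lam := by nlinarith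
        have h5 : Q ≤ C4 * a * ((2 * P3 + 1) * lam) :=
          mul_le_mul_of_nonneg_left h4 (by positivity)
        have h6 : 1 ≤ √Λ * lam := by nlinarith
        rw [hcq]
        calc 1 + Q ≤ √Λ * lam + C4 * a * ((2 * P3 + 1) * lam) := add_le_add h6 h5
          _ = (1 + C4 * P2 * (2 * P3 + 1)) * (√Λ * lam) := by rw [ha]; ring
      calc (s : ℝ) * (1 + Q) ≤ (cs * lam) * (cq * (√Λ * lam)) :=
            mul_le_mul hscs h3 (by positivity) (by positivity)
        _ = (cs * cq) * (√Λ * lam ^ 2) := by ring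
        _ ≤ P * (√Λ * lam ^ 2) := by
            apply mul_le_mul_of_nonneg_right _ (by positivity)
            rw [hP]
            linarith
        _ = P * √Λ * lam ^ 2 := by ring
    have hnum : (0 : ℝ) ≤ J - P * κ := by linarith
    have hexp : (J - P * κ) / (P * √Λ * lam ^ 2) - 1 ≤ n / (1 + Q) := by
      have h3 : (J : ℝ) - P * κ ≤ (n + 1) * s := by
        have h4 : J < (n + 1) * s + w + l₀ := by omega
        have h5 : (J : ℝ) < (n + 1) * s + w + l₀ := by exact_mod_cast h4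
        linarith
      have h6 : (J - P * κ) / (P * √Λ * lam ^ 2) ≤ (J - P * κ) / (s * (1 + Q)) :=
        div_le_div_of_nonneg_left hnum (by positivity) hs1Q
      have h7 : (J - P * κ) / (s * (1 + Q)) ≤ (n + 1) / (1 + Q) := by
        rw [div_le_div_iff₀ (by positivity) (by positivity)]
        have : (J - P * κ) * (1 + Q) ≤ ((n + 1) * s) * (1 + Q) :=
          mul_le_mul_of_nonneg_right h3 (by positivity)
        linarith
      have h8 : ((n : ℝ) + 1) / (1 + Q) ≤ n / (1 + Q) + 1 := by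
        rw [add_div]
        have : 1 / (1 + Q) ≤ 1 := by
          rw [div_le_one (by positivity)]
          linarith
        linarith
      linarith
    have h3 : Real.exp (-(n / (1 + Q))) ≤
        Real.exp 1 * Real.exp (-(J - P * κ) / (P * √Λ * lam ^ 2)) := by
      rw [← Real.exp_add]
      apply Real.exp_le_exp.2
      rw [neg_div]
      linarith
    have hE : 0 < Real.exp (-(J - P * κ) / (P * √Λ * lam ^ 2)) := Real.exp_pos _
    set E := Real.exp (-(J - P * κ) / (P * √Λ * lam ^ 2)) with hEdef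
    have h4 : (Q / (1 + Q)) ^ n ≤ 3 * E := by
      refine h2.trans (h3.trans ?_)
      apply mul_le_mul_of_nonneg_right _ hE.le
      have := Real.exp_one_lt_d9
      linarith
    have h5 : Λ * Λ ≤ Λ ^ P := by
      have h6 : Λ ^ (2 : ℝ) ≤ Λ ^ P := Real.rpow_le_rpow_of_exponent_le hΛ (by linarith)
      have h7 : Λ ^ (2 : ℝ) = Λ * Λ := by
        rw [show (2 : ℝ) = ((2 : ℕ) : ℝ) by norm_num, Real.rpow_natCast, sq]
      rwa [h7] at h6
    have hΛPP : 0 < Λ ^ P := Real.rpow_pos_of_pos hΛ0 _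
    have h8 : 32768 * (1 + (P1 + 1) * (C' * Λ)) * (2 ^ 35 * ((w : ℝ) + 1)) ≤ ce * (Λ * Λ) := by
      have h9 : (w : ℝ) + 1 ≤ (2 * P3 + 1) * lam := by nlinarith
      have h10 : 1 + (P1 + 1) * (C' * Λ) ≤ (1 + (P1 + 1) * C') * Λ := by nlinarith
      have h11 : (2 * P3 + 1) * lam ≤ (2 * P3 + 1) * Λ :=
        mul_le_mul_of_nonneg_left hlamΛ (by linarith)
      calc 32768 * (1 + (P1 + 1) * (C' * Λ)) * (2 ^ 35 * ((w : ℝ) + 1))
          ≤ 32768 * ((1 + (P1 + 1) * C') * Λ) * (2 ^ 35 * ((2 * P3 + 1) * Λ)) := by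
            apply mul_le_mul _ _ (by positivity) (by positivity)
            · exact mul_le_mul_of_nonneg_left h10 (by norm_num)
            · exact mul_le_mul_of_nonneg_left (h9.trans h11) (by norm_num)
        _ = ce * (Λ * Λ) := by rw [hce]; ring
    have h12 : 3 * ce ≤ P := by
      have h13 : 0 ≤ cs * cq := by linarith
      rw [hP]
      linarith
    calc 32768 * (1 + (P1 + 1) * (C' * Λ)) * (2 ^ 35 * ((w : ℝ) + 1)) * ((Q / (1 + Q)) ^ n * D)
        ≤ (ce * (Λ * Λ)) * ((3 * E) * D) := by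
          apply mul_le_mul h8 _ (by positivity) (by positivity)
          exact mul_le_mul_of_nonneg_right h4 hD
      _ ≤ (ce * Λ ^ P) * ((3 * E) * D) := by
          apply mul_le_mul_of_nonneg_right _ (by positivity)
          exact mul_le_mul_of_nonneg_left h5 hce0
      _ = (3 * ce) * Λ ^ P * D * E := by ring
      _ ≤ P * Λ ^ P * D * E := by gcongr

end Pool.Agent.N976.EQ
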