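import Pool.Agent.N976.EQ.K1
import Pool.Agent.N976.EQ.K34
import Pool.Agent.N976.EQ.K5
import Pool.Agent.N976.EQ.K6
import Pool.Agent.N976.EQ.E3a
import Pool.Agent.N976.EQ.E3
import Pool.Agent.N976.EQ.EC
import Pool.Agent.N976.EQ.QT
import Pool.Agent.N976.EQ.Q9
import Pool.Agent.N976.EQ.EQ0
import Pool.Agent.N976.EQ.E4
import Pool.Agent.N976.EQ.Fin
import Pool.Agent.N976.TL.Asm

/-!
The assembly of the project EQ (helper976).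
-/

set_option autoImplicit false

namespace Pool.Agent.N976.EQ

theorem p_K4 : S_K4 := t_K4 t_K3
theorem p_K6 (h : S_K2) : S_K6 := t_K6 t_L0 (t_K5 h p_K4)
theorem p_Q9 (h : S_K2) : S_Q9 := t_Q9 (p_K6 h) TL.p_A4 TL.t_A5 TL.p_A6 TL.t_A7 TL.t_A8
theorem p_QT : S_QT := t_QT TL.t_B1 TL.p_B2 TL.p_B4
theorem p_EC : S_EC := t_EC t_L0 (t_E3 t_E3a)
theorem p_EQ0 (h : S_K2) : S_EQ0 := t_EQ0 (p_Q9 h) p_QT t_QC p_EC TL.t_D1

end Pool.Agent.N976.EQ
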