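import Pool.Agent.N976.EQ.Stm
import Pool.Agent.Y494.NS.TCUT

/-!
Project EQ, parts L0 and K1: linearity of the defect, and the energy inequality with a moving test
function and the defect (adapted from Pool.Agent.Y496.NS.Mov3).
-/

set_option autoImplicit false

open MeasureTheory Set Metric
open scoped ContDiff NNReal

namespace Pool.Agent.N976.EQ

open H459R3.NS W221.NS Pool.Agent.Y8 Filter Topology

namespace K1

section lin

variable {H : Set ℝ} {u : ℝ → V → V} {p : ℝ → V → ℝ} {F₁ F₂ : ℝ → V → ℝ}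

theorem pd_lin {f g : V → ℝ} (hf : ContDiff ℝ ∞ f) (hg : ContDiff ℝ ∞ g) (c : ℝ) (j : Fin 3) :
    pd j (fun y => f y + c * g y) = fun x => pd j f x + c * pd j g x := by
  funext x
  have h1 : DifferentiableAt ℝ f x := (hf.differentiable (by simp)) x
  have h2 : DifferentiableAt ℝ g x := (hg.differentiable (by simp)) x
  unfold pd
  have h3 : fderiv ℝ (fun y => f y + c * g y) x = fderiv ℝ f x + c • fderiv ℝ g x :=
    (h1.hasFDerivAt.add (h2.hasFDerivAt.const_mul c)).fderiv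
  rw [h3]
  simp

theorem lap_lin {f g : V → ℝ} (hf : ContDiff ℝ ∞ f) (hg : ContDiff ℝ ∞ g) (c : ℝ) :
    lap (fun y => f y + c * g y) = fun x => lap f x + c * lap g x := by
  funext x
  unfold lap
  rw [Finset.mul_sum, ← Finset.sum_add_distrib]
  refine Finset.sum_congr rfl fun j _ => ?_
  rw [pd_lin hf hg, pd_lin (Pool.Agent.W583.MD.sm_pd hf j) (Pool.Agent.W583.MD.sm_pd hg j)]

theorem adv_lin (w : V → V) {f g : V → ℝ} (hf : ContDiff ℝ ∞ f) (hg : ContDiff ℝ ∞ g) (c : ℝ)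
    (x : V) : adv w (fun y => f y + c * g y) x = adv w f x + c * adv w g x := by
  unfold adv
  rw [Finset.mul_sum, ← Finset.sum_add_distrib]
  refine Finset.sum_congr rfl fun j _ => ?_
  rw [pd_lin hf hg]
  ring

theorem ed_lin (hH : IsOpen H)
    (h1 : ContDiffOn ℝ ∞ (fun z : ℝ × V => F₁ z.1 z.2) (H ×ˢ univ))
    (h2 : ContDiffOn ℝ ∞ (fun z : ℝ × V => F₂ z.1 z.2) (H ×ˢ univ)) (c : ℝ) {τ : ℝ} (hτ : τ ∈ H)
    (x : V) : ed 1 u p (fun t x => F₁ t x + c * F₂ t x) τ x =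
      ed 1 u p F₁ τ x + c * ed 1 u p F₂ τ x := by
  have s1 := sl_sm h1 hτ
  have s2 := sl_sm h2 hτ
  have d1 := dt_hd' hH h1 hτ x
  have d2 := dt_hd' hH h2 hτ x
  have d3 : deriv (fun s => F₁ s x + c * F₂ s x) τ =
      deriv (fun s => F₁ s x) τ + c * deriv (fun s => F₂ s x) τ :=
    (d1.add (d2.const_mul c)).deriv
  unfold ed
  rw [d3, lap_lin s1 s2, adv_lin _ s1 s2]
  ring

theorem DD_lin (hH : IsOpen H)
    (hu : ContDiffOn ℝ ∞ (fun z : ℝ × V => u z.1 z.2) (H ×ˢ univ))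
    (hp : ContDiffOn ℝ ∞ (fun z : ℝ × V => p z.1 z.2) (H ×ˢ univ))
    (h1 : ContDiffOn ℝ ∞ (fun z : ℝ × V => F₁ z.1 z.2) (H ×ˢ univ))
    (h2 : ContDiffOn ℝ ∞ (fun z : ℝ × V => F₂ z.1 z.2) (H ×ˢ univ)) {R : ℝ} (hR : 0 < R)
    (k1 : ∀ t ∈ H, ∀ z ∉ ball (0 : V) R, F₁ t z = 0)
    (k2 : ∀ t ∈ H, ∀ z ∉ ball (0 : V) R, F₂ t z = 0) (c : ℝ) {τ : ℝ} (hτ : τ ∈ H) :
    DD 1 u p (fun t x => F₁ t x + c * F₂ t x) τ = DD 1 u p F₁ τ + c * DD 1 u p F₂ τ := by
  have h3 : ContDiffOn ℝ ∞ (fun z : ℝ × V => F₁ z.1 z.2 + c * F₂ z.1 z.2) (H ×ˢ univ) :=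
    h1.add (contDiffOn_const.mul h2)
  rw [DD_eq 1 hH hu hp h1 hR k1 hτ, DD_eq 1 hH hu hp h2 hR k2 hτ,
    DD_eq (φ := fun t x => F₁ t x + c * F₂ t x) 1 hH hu hp h3 hR
      (fun t ht z hz => by rw [k1 t ht z hz, k2 t ht z hz]; ring) hτ]
  have i1 : Integrable fun x => ed 1 u p F₁ τ x :=
    int_csR (sl_ct (ed_joint 1 hH hu hp h1).continuousOn hτ) (a := 0) (R := R)
      fun z hz => ed_zero 1 hH h1 hR k1 hτ hz
  have i2 : Integrable fun x => ed 1 u p F₂ τ x :=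
    int_csR (sl_ct (ed_joint 1 hH hu hp h2).continuousOn hτ) (a := 0) (R := R)
      fun z hz => ed_zero 1 hH h2 hR k2 hτ hz
  simp only [ed_lin hH h1 h2 c hτ]
  rw [integral_add i1 (i2.const_mul c), integral_const_mul]

end lin

section test

variable {T E D : ℝ} {G : Set ℝ} {u : ℝ → V → V} {p : ℝ → V → ℝ} {φ ψ : ℝ → V → ℝ}

theorem test_rad (hφ : Test T φ) : ∃ R : ℝ, 0 < R ∧ ∀ t, ∀ z ∉ ball (0 : V) R, φ t z = 0 := by
  obtain ⟨R, hR, hsub⟩ := hφ.cpt.isCompact.isBounded.subset_ball_lt 0 (0 : ℝ × V)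
  refine ⟨R, hR, fun t z hz => ?_⟩
  by_contra hcon
  have h1 : (t, z) ∈ tsupport (fun z : ℝ × V => φ z.1 z.2) := subset_tsupport _ hcon
  have h2 := hsub h1
  rw [mem_ball, dist_zero_right] at h2
  apply hz
  rw [mem_ball, dist_zero_right]
  exact (norm_snd_le (t, z)).trans_lt h2

theorem test_time {a b : ℝ} (hsup : tsupport (fun z : ℝ × V => φ z.1 z.2) ⊆ Ioo a b ×ˢ univ)
    {τ : ℝ} (hτ : τ ∉ Ioo a b) (x : V) : φ τ x = 0 := by
  by_contra hcon
  have h1 : (τ, x) ∈ tsupport (fun z : ℝ × V => φ z.1 z.2) := subset_tsupport _ hcon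
  exact hτ (hsup h1).1

theorem DD_zero {a b : ℝ} (hsup : tsupport (fun z : ℝ × V => φ z.1 z.2) ⊆ Ioo a b ×ˢ univ)
    {τ : ℝ} (hτ : τ ∉ Ioo a b) : DD 1 u p φ τ = 0 := by
  have e0 : φ τ = fun _ => 0 := funext fun x => test_time hsup hτ x
  have e2 : ∀ x, deriv (fun s => φ s x) τ = 0 := by
    intro x
    have h1 : (τ, x) ∉ tsupport (fun z : ℝ × V => φ z.1 z.2) := fun h => hτ (hsup h).1
    have h2 := notMem_tsupport_iff_eventuallyEq.1 h1
    have h3 : ContinuousAt (fun s : ℝ => ((s, x) : ℝ × V)) τ := by fun_prop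
    have h4 : (fun s => φ s x) =ᶠ[𝓝 τ] fun _ => 0 := h3.eventually h2
    rw [h4.deriv_eq, deriv_const]
  have e4 : ∀ j, pd j (fun _ : V => (0 : ℝ)) = fun _ => 0 := fun j => funext fun x =>
    Pool.Agent.W135.MD.pd_const' 0 j x
  unfold DD lap adv
  simp only [e2, e0, e4]
  simp

theorem dd_int (h : Turb 1 T E D G u p) (hφ : Test T φ) : IntegrableOn (DD 1 u p φ) G := by
  obtain ⟨R, hR, hs⟩ := test_rad hφ
  have hc : ContDiffOn ℝ ∞ (fun z : ℝ × V => φ z.1 z.2) (G ×ˢ univ) := hφ.smooth.contDiffOn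
  obtain ⟨M, hM0, hM⟩ := tbd (α := -1) (β := T + 1) (s := 0) (t := T) (φ := φ)
    hφ.smooth.contDiffOn hR (fun t _ => hs t) (by norm_num) (by linarith)
  refine IntegrableOn.congr_fun (f := fun τ => ∫ x, ed 1 u p φ τ x) ?_
    (fun τ hτ => (DD_eq 1 h.openG h.smooth_u h.smooth_p hc hR (fun t _ => hs t) hτ).symm)
    h.openG.measurableSet
  refine tint (a := 0) (R := R) (C := 8 * M) h h.openG subset_rfl
    (ed_joint 1 h.openG h.smooth_u h.smooth_p hc).continuousOn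
    (fun τ hτ z hz => ed_zero 1 h.openG hc hR (fun t _ => hs t) hτ hz) h.openG.measurableSet
    subset_rfl (by positivity) fun τ hτ x => ?_
  obtain ⟨m0, m1, m2, m3⟩ := hM τ (Ioo_subset_Icc_self (h.subG hτ)) x
  exact ed_abs hM0 m0 m1 m2 m3

theorem DD_mul (h : Turb 1 T E D G u p) (hφ : Test T φ) (c : ℝ) {τ : ℝ} (hτ : τ ∈ G) :
    DD 1 u p (fun t x => c * φ t x) τ = c * DD 1 u p φ τ := by
  obtain ⟨R, hR, hs⟩ := test_rad hφ
  have hc : ContDiffOn ℝ ∞ (fun z : ℝ × V => φ z.1 z.2) (G ×ˢ univ) := hφ.smooth.contDiffOn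
  have h0 : ContDiffOn ℝ ∞ (fun z : ℝ × V => (fun (_ : ℝ) (_ : V) => (0 : ℝ)) z.1 z.2)
    (G ×ˢ univ) := contDiffOn_const
  have h1 := DD_lin (F₁ := fun _ _ => 0) h.openG h.smooth_u h.smooth_p h0 hc hR
    (fun _ _ _ _ => rfl) (fun t _ => hs t) c hτ
  have h2 : DD 1 u p (fun (_ : ℝ) (_ : V) => (0 : ℝ)) τ = 0 := by
    apply DD_zero (a := 0) (b := 0) (φ := fun (_ : ℝ) (_ : V) => (0 : ℝ)) _ (by simp)
    have : tsupport (fun _ : ℝ × V => (0 : ℝ)) = ∅ := by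
      rw [tsupport_eq_empty_iff]; rfl
    intro z hz
    rw [this] at hz
    exact absurd hz (notMem_empty z)
  rw [h2, zero_add] at h1
  simpa only [zero_add] using h1

theorem test_add (hφ : Test T φ) (hψ : Test T ψ) : Test T (fun t x => φ t x + ψ t x) := by
  have hsub : Function.support (fun z : ℝ × V => φ z.1 z.2 + ψ z.1 z.2) ⊆
      tsupport (fun z : ℝ × V => φ z.1 z.2) ∪ tsupport (fun z : ℝ × V => ψ z.1 z.2) := by
    intro z hz
    by_contra hcon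
    rw [mem_union, not_or] at hcon
    apply hz
    have h1 : φ z.1 z.2 = 0 := by
      by_contra h1
      exact hcon.1 (subset_tsupport _ h1)
    have h2 : ψ z.1 z.2 = 0 := by
      by_contra h2
      exact hcon.2 (subset_tsupport _ h2)
    simp only [h1, h2, add_zero]
  refine ⟨hφ.smooth.add hψ.smooth, ?_, ?_⟩
  · exact HasCompactSupport.of_support_subset_isCompact
      (hφ.cpt.isCompact.union hψ.cpt.isCompact) hsub
  · exact (closure_minimal hsub ((isClosed_tsupport _).union (isClosed_tsupport _))).trans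
      (union_subset hφ.supp hψ.supp)

theorem DD_add (h : Turb 1 T E D G u p) (hφ : Test T φ) (hψ : Test T ψ) {τ : ℝ} (hτ : τ ∈ G) :
    DD 1 u p (fun t x => φ t x + ψ t x) τ = DD 1 u p φ τ + DD 1 u p ψ τ := by
  obtain ⟨R, hR, hs⟩ := test_rad hφ
  obtain ⟨R', hR', hs'⟩ := test_rad hψ
  have h1 := DD_lin (F₁ := φ) (F₂ := ψ) h.openG h.smooth_u h.smooth_p hφ.smooth.contDiffOn
    hψ.smooth.contDiffOn (R := max R R') (lt_max_of_lt_left hR)
    (fun t _ z hz => hs t z fun h' => hz (ball_subset_ball (le_max_left _ _) h'))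
    (fun t _ z hz => hs' t z fun h' => hz (ball_subset_ball (le_max_right _ _) h')) 1 hτ
  simpa only [one_mul] using h1

theorem LL_eq (h : Turb 1 T E D G u p) {s t : ℝ} (hs : s ∈ G) (ht : t ∈ G)
    (hsup : tsupport (fun z : ℝ × V => φ z.1 z.2) ⊆ Ioo s t ×ˢ univ) :
    LL G u p φ = ∫ τ in Ioo s t, DD 1 u p φ τ := by
  unfold LL
  rw [← setIntegral_congr_set (aeG h hs ht)]
  refine setIntegral_eq_of_subset_of_forall_sdiff_eq_zero h.openG.measurableSet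
    inter_subset_right fun τ hτ => ?_
  exact DD_zero hsup fun h' => hτ.2 ⟨h', hτ.1⟩

end test

end K1

open K1 in
/-- The defect is linear. -/
theorem t_L0 : S_L0 := by
  intro T E D G u p h φ hφ
  refine ⟨dd_int h hφ, fun c => ?_, fun ψ hψ => ⟨test_add hφ hψ, ?_⟩⟩
  · unfold LL
    rw [← integral_const_mul]
    exact setIntegral_congr_fun h.openG.measurableSet fun τ hτ => DD_mul h hφ c hτ
  · unfold LL
    rw [← integral_add (dd_int h hφ) (dd_int h hψ)]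
    exact setIntegral_congr_fun h.openG.measurableSet fun τ hτ => DD_add h hφ hψ hτ

open K1 in
/-- The energy inequality with a moving test function and the defect. -/
theorem t_K1 : S_K1 := by
  intro T E D G u p h α β Ψ hΨ R hR hs X Y s t hsG htG hαs hst htβ hX hY φ hφ hdom
  obtain ⟨hφ0, hφs, δ, hδ, hφd⟩ := hdom
  have hT : S_TCUT := Pool.Agent.Y494.NS.t_TCUT
  have pos : ∀ τ ∈ Icc s t, ∀ z, 0 ≤ Ψ τ z := by
    intro τ hτ z
    have h1 := hφd τ hτ (z + X τ) (z + X τ) (by simpa using hδ.le)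
    rw [add_sub_cancel_right] at h1
    exact (hφ0 τ _).trans h1
  refine ⟨(Pool.Agent.Y496.NS.WFR2.lei_mov2 hT h hΨ hR hs hsG htG hαs hst htβ hX hY pos).1, ?_⟩
  have hsT := h.subG hsG
  have htT := h.subG htG
  have hIT : Icc s t ⊆ Ioo 0 T := fun τ hτ => ⟨hsT.1.trans_le hτ.1, hτ.2.trans_lt htT.2⟩
  have hIab : Icc s t ⊆ Ioo α β := fun τ hτ => ⟨hαs.trans_le hτ.1, hτ.2.trans_lt htβ⟩
  obtain ⟨B, hB⟩ := isCompact_Icc.exists_bound_of_continuousOn hY
  have hB0 : 0 ≤ B := (norm_nonneg _).trans (hB s ⟨le_rfl, hst⟩)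
  obtain ⟨M, hM0, hM⟩ := tbd hΨ hR hs hαs htβ
  obtain ⟨C', hC', hm⟩ := maj E (R + 1)
  set C1 : ℝ := (8 + 3 * (B + 1)) * M with hC1
  have hC10 : 0 ≤ C1 := by positivity
  -- approximating paths
  have hZ : ∀ n : ℕ, ∃ Z Z' : ℝ → V, ContDiff ℝ ∞ Z ∧ (∀ τ, HasDerivAt Z (Z' τ) τ) ∧
      ∀ τ ∈ Icc s t, ‖Z τ - X τ‖ ≤ 1 / ((n : ℝ) + 1) ∧ ‖Z' τ - Y τ‖ ≤ 1 / ((n : ℝ) + 1) := fun n =>
    path_approx hst (fun τ hτ => hX τ hτ) hY (by positivity)
  choose Z Z' hZs hZd hZc using hZ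
  have h1n : ∀ n : ℕ, 1 / ((n : ℝ) + 1) ≤ 1 := fun n => by
    rw [div_le_one (by positivity)]
    have : (0 : ℝ) ≤ n := Nat.cast_nonneg n
    linarith
  have hZX : ∀ τ ∈ Icc s t, Tendsto (fun n => Z n τ) atTop (𝓝 (X τ)) := fun τ hτ => by
    rw [tendsto_iff_norm_sub_tendsto_zero]
    exact squeeze_zero (fun n => norm_nonneg _) (fun n => (hZc n τ hτ).1)
      tendsto_one_div_add_atTop_nhds_zero_nat
  have hZY : ∀ τ ∈ Icc s t, Tendsto (fun n => Z' n τ) atTop (𝓝 (Y τ)) := fun τ hτ => by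
    rw [tendsto_iff_norm_sub_tendsto_zero]
    exact squeeze_zero (fun n => norm_nonneg _) (fun n => (hZc n τ hτ).2)
      tendsto_one_div_add_atTop_nhds_zero_nat
  have hball : ∀ n, ∀ τ ∈ Icc s t, ball (Z n τ) R ⊆ ball (X τ) (R + 1) := by
    intro n τ hτ x hx
    rw [mem_ball] at hx ⊢
    have h2 := (hZc n τ hτ).1.trans (h1n n)
    have h3 := dist_triangle x (Z n τ) (X τ)
    rw [← dist_eq_norm] at h2
    linarith
  have hZ'B : ∀ n, ∀ τ ∈ Icc s t, ‖Z' n τ‖ ≤ B + 1 := by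
    intro n τ hτ
    have h2 := (hZc n τ hτ).2.trans (h1n n)
    have h3 := hB τ hτ
    have h4 := norm_sub_norm_le (Z' n τ) (Y τ)
    linarith
  -- the inequality for the approximations
  have hΦ : ∀ n, ContDiffOn ℝ ∞ (fun z : ℝ × V => mv Ψ (Z n) z.1 z.2) (Ioo α β ×ˢ univ) := by
    intro n
    have h2 : ContDiff ℝ ∞ (fun z : ℝ × V => ((z.1, z.2 - Z n z.1) : ℝ × V)) :=
      contDiff_fst.prodMk (contDiff_snd.sub ((hZs n).comp contDiff_fst))
    exact hΨ.comp h2.contDiffOn fun z hz => ⟨hz.1, mem_univ _⟩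
  have hRn : ∀ n, ∃ ρ : ℝ, 0 < ρ ∧ ∀ τ ∈ Ioo α β, ∀ z ∉ ball (0 : V) ρ, mv Ψ (Z n) τ z = 0 := by
    intro n
    obtain ⟨m, hm⟩ := (isCompact_Icc (a := α) (b := β)).exists_bound_of_continuousOn
      (hZs n).continuous.continuousOn
    refine ⟨|m| + R, by positivity, fun τ hτ z hz => hs τ hτ _ fun h' => hz ?_⟩
    rw [mem_ball, dist_zero_right] at h' ⊢
    have h3 := hm τ (Ioo_subset_Icc_self hτ)
    have h4 := norm_sub_norm_le z (Z n τ)
    have h5 := le_abs_self m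
    linarith
  choose ρ hρ0 hρ using hRn
  have hlei : ∀ n, IntegrableOn (DD 1 u p (mv Ψ (Z n))) (Ioo s t) ∧
      (∫ z, nsq (u t) z * mv Ψ (Z n) t z) - (∫ z, nsq (u s) z * mv Ψ (Z n) s z) ≤
        ∫ τ in Ioo s t, DD 1 u p (mv Ψ (Z n)) τ := fun n =>
    lei hT h (hΦ n) (hρ0 n) (hρ n) hsG htG hαs hst htβ fun τ hτ z => pos τ hτ _
  have hae : ∀ᵐ τ ∂(volume.restrict (Ioo s t)), τ ∈ G ∧ τ ∈ Ioo s t := by
    filter_upwards [aeT h hsT.1.le htT.2.le, ae_restrict_mem measurableSet_Ioo] with τ h1 h2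
    exact ⟨h1, h2⟩
  obtain ⟨Rφ, hRφ, hsφ⟩ := test_rad hφ
  have hφI : IntegrableOn (DD 1 u p φ) (Ioo s t) :=
    ((dd_int h hφ).mono_set inter_subset_right).congr_set_ae (aeG h hsG htG).symm
  have hnew : ∀ n : ℕ, 1 / ((n : ℝ) + 1) ≤ δ →
      (∫ z, nsq (u t) z * mv Ψ (Z n) t z) - (∫ z, nsq (u s) z * mv Ψ (Z n) s z) ≤
        (∫ τ in Ioo s t, DD 1 u p (mv Ψ (Z n)) τ) - LL G u p φ := by
    intro n hn
    have hc : ContDiffOn ℝ ∞ (fun z : ℝ × V => mv Ψ (Z n) z.1 z.2 + (-1) * φ z.1 z.2)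
        (Ioo α β ×ˢ univ) := (hΦ n).add (contDiffOn_const.mul hφ.smooth.contDiffOn)
    have hk1 : ∀ t ∈ Ioo α β, ∀ z ∉ ball (0 : V) (max (ρ n) Rφ), mv Ψ (Z n) t z = 0 :=
      fun t ht z hz => hρ n t ht z fun h' => hz (ball_subset_ball (le_max_left _ _) h')
    have hk2 : ∀ t ∈ Ioo α β, ∀ z ∉ ball (0 : V) (max (ρ n) Rφ), φ t z = 0 :=
      fun t _ z hz => hsφ t z fun h' => hz (ball_subset_ball (le_max_right _ _) h')
    have hR' : 0 < max (ρ n) Rφ := lt_max_of_lt_left (hρ0 n)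
    have h1 := (lei (Φ := fun τ x => mv Ψ (Z n) τ x + (-1) * φ τ x) hT h hc hR'
      (fun t ht z hz => by rw [hk1 t ht z hz, hk2 t ht z hz]; ring) hsG htG hαs hst htβ
      (fun τ hτ z => by
        have h2 : ‖(z - Z n τ + X τ) - z‖ ≤ δ := by
          have h3 : (z - Z n τ + X τ) - z = X τ - Z n τ := by abel
          rw [h3, norm_sub_rev]
          exact ((hZc n τ hτ).1).trans hn
        have h4 := hφd τ hτ z (z - Z n τ + X τ) h2
        rw [add_sub_cancel_right] at h4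
        unfold mv
        linarith)).2
    have e1 : ∀ z, φ t z = 0 := fun z => test_time hφs (fun h' => lt_irrefl t h'.2) z
    have e2 : ∀ z, φ s z = 0 := fun z => test_time hφs (fun h' => lt_irrefl s h'.1) z
    simp only [e1, e2, mul_zero, add_zero] at h1
    refine h1.trans (le_of_eq ?_)
    rw [LL_eq h hsG htG hφs]
    have e3 : (∫ τ in Ioo s t, DD 1 u p (mv Ψ (Z n)) τ) - (∫ τ in Ioo s t, DD 1 u p φ τ) =
        ∫ τ in Ioo s t, (DD 1 u p (mv Ψ (Z n)) τ + (-1) * DD 1 u p φ τ) := by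
      rw [integral_add (hlei n).1 (hφI.const_mul (-1)), integral_const_mul]
      ring
    rw [e3]
    refine integral_congr_ae ?_
    filter_upwards [hae] with τ hτ
    have hJ : IsOpen (G ∩ Ioo α β) := h.openG.inter isOpen_Ioo
    exact DD_lin hJ (h.smooth_u.mono (prod_mono inter_subset_left subset_rfl))
      (h.smooth_p.mono (prod_mono inter_subset_left subset_rfl))
      ((hΦ n).mono (prod_mono inter_subset_right subset_rfl)) hφ.smooth.contDiffOn hR'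
      (fun t ht => hk1 t ht.2) (fun t ht => hk2 t ht.2) (-1)
      ⟨hτ.1, hIab (Ioo_subset_Icc_self hτ.2)⟩
  -- the density
  have hDn : ∀ n, ∀ τ ∈ G, τ ∈ Ioo s t →
      DD 1 u p (mv Ψ (Z n)) τ = ∫ x, edx u p Ψ τ (Z n τ) (Z' n τ) x := by
    intro n τ hτG hτ
    have hτ' := Ioo_subset_Icc_self hτ
    have hJ : IsOpen (G ∩ Ioo α β) := h.openG.inter isOpen_Ioo
    have e1 := DD_eq (u := u) (p := p) 1 hJ (h.smooth_u.mono (prod_mono inter_subset_left subset_rfl))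
      (h.smooth_p.mono (prod_mono inter_subset_left subset_rfl))
      ((hΦ n).mono (prod_mono inter_subset_right subset_rfl)) (hρ0 n)
      (fun t ht => hρ n t ht.2) (t := τ) ⟨hτG, hIab hτ'⟩
    rw [e1]
    congr 1
    funext x
    exact ed_mv hΨ (hIab hτ') (hZd n τ) x
  have hbdx : ∀ τ ∈ Icc s t, ∀ a y x : V, ‖y‖ ≤ B + 1 →
      |edx u p Ψ τ a y x| ≤ C1 * MM (u τ) (p τ) x := by
    intro τ hτ a y x hy
    obtain ⟨m0, m1, m2, m3⟩ := hM τ hτ (x - a)
    exact edx_abs hM0 (by linarith) hy m0 m1 m2 m3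
  have hMint : ∀ τ ∈ G, Integrable ((ball (X τ) (R + 1)).indicator
      (fun x => C1 * MM (u τ) (p τ) x)) := fun τ hτ =>
    (integrable_indicator_iff measurableSet_ball).2
      (ballint (continuous_const.mul (MM_cont (h.spv hτ).1 (h.sp hτ).smooth.continuous)) _ _)
  have hind : ∀ n, ∀ τ ∈ Icc s t, ∀ x, ‖edx u p Ψ τ (Z n τ) (Z' n τ) x‖ ≤
      (ball (X τ) (R + 1)).indicator (fun x => C1 * MM (u τ) (p τ) x) x := by
    intro n τ hτ x
    by_cases hx : x ∈ ball (X τ) (R + 1)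
    · rw [indicator_of_mem hx, Real.norm_eq_abs]
      exact hbdx τ hτ (Z n τ) (Z' n τ) x (hZ'B n τ hτ)
    · rw [indicator_of_notMem hx, edx_zero (hIab hτ) hR hΨ hs fun h' => hx (hball n τ hτ h'),
        norm_zero]
  have hlim : ∀ τ ∈ G, τ ∈ Icc s t → Tendsto (fun n => ∫ x, edx u p Ψ τ (Z n τ) (Z' n τ) x) atTop
      (𝓝 (∫ x, edx u p Ψ τ (X τ) (Y τ) x)) := by
    intro τ hτG hτ
    refine tendsto_integral_of_dominated_convergence _ (fun n => ?_) (hMint τ hτG)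
      (fun n => ae_of_all _ (hind n τ hτ)) (ae_of_all _ fun x => ?_)
    · exact (edx_contx (hIab hτ) hΨ (h.spv hτG).1 (h.sp hτG).smooth).aestronglyMeasurable
    · have hp2 : Tendsto (fun n => ((Z n τ, Z' n τ) : V × V)) atTop (𝓝 (X τ, Y τ)) :=
        (hZX τ hτ).prodMk_nhds (hZY τ hτ)
      have hc2 : Continuous fun z : V × V => edx u p Ψ τ z.1 z.2 x := edx_cont (hIab hτ) hΨ
      have hc3 := (hc2.tendsto (X τ, Y τ)).comp hp2
      simp only [Function.comp_def] at hc3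
      exact hc3
  have hkb : Integrable (fun τ => C1 * (C' * K1 G u p τ)) :=
    ((K1_int h).const_mul C').const_mul C1
  have hbt : ∀ n, ∀ᵐ τ ∂(volume.restrict (Ioo s t)), ‖DD 1 u p (mv Ψ (Z n)) τ‖ ≤
      C1 * (C' * K1 G u p τ) := by
    intro n
    filter_upwards [hae] with τ hτ
    have hτ' := Ioo_subset_Icc_self hτ.2
    rw [hDn n τ hτ.1 hτ.2, K1_in hτ.1]
    calc ‖∫ x, edx u p Ψ τ (Z n τ) (Z' n τ) x‖ ≤
          ∫ x, (ball (X τ) (R + 1)).indicator (fun x => C1 * MM (u τ) (p τ) x) x :=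
          norm_integral_le_of_norm_le (hMint τ hτ.1) (ae_of_all _ (hind n τ hτ'))
      _ = C1 * ∫ x in ball (X τ) (R + 1), MM (u τ) (p τ) x := by
          rw [integral_indicator measurableSet_ball, integral_const_mul]
      _ ≤ _ := mul_le_mul_of_nonneg_left (hm (u τ) (p τ) (h.spv hτ.1) (h.sp hτ.1)
          (h.energy_le τ hτ.1) (X τ)) hC10
  have hlimt : ∀ᵐ τ ∂(volume.restrict (Ioo s t)), Tendsto (fun n => DD 1 u p (mv Ψ (Z n)) τ) atTop
      (𝓝 (∫ x, edx u p Ψ τ (X τ) (Y τ) x)) := by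
    filter_upwards [hae] with τ hτ
    simp only [hDn _ τ hτ.1 hτ.2]
    exact hlim τ hτ.1 (Ioo_subset_Icc_self hτ.2)
  have hmeas : ∀ n, AEStronglyMeasurable (DD 1 u p (mv Ψ (Z n))) (volume.restrict (Ioo s t)) :=
    fun n => (hlei n).1.aestronglyMeasurable
  have hT1 := tendsto_integral_of_dominated_convergence _ hmeas hkb.integrableOn hbt hlimt
  have hends : ∀ σ ∈ G, σ ∈ Icc s t → Tendsto (fun n => ∫ z, nsq (u σ) z * mv Ψ (Z n) σ z) atTop
      (𝓝 (∫ z, nsq (u σ) z * mv Ψ X σ z)) := by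
    intro σ hσG hσ
    have hc := (nsq_sm (h.spv hσG).1).continuous
    have hΨc : Continuous (Ψ σ) := (sl_sm hΨ (hIab hσ)).continuous
    refine tendsto_integral_of_dominated_convergence
      ((ball (X σ) (R + 1)).indicator (fun x => nsq (u σ) x * M)) (fun n => ?_) ?_
      (fun n => ae_of_all _ fun x => ?_) (ae_of_all _ fun x => ?_)
    · exact (hc.mul (hΨc.comp (by fun_prop : Continuous fun x => x - Z n σ))).aestronglyMeasurable
    · exact (integrable_indicator_iff measurableSet_ball).2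
        (ballint (hc.mul continuous_const) _ _)
    · by_cases hx : x ∈ ball (X σ) (R + 1)
      · rw [indicator_of_mem hx, norm_mul, Real.norm_eq_abs, Real.norm_eq_abs,
          abs_of_nonneg (nsq_nn _ _)]
        exact mul_le_mul_of_nonneg_left (hM σ hσ _).1 (nsq_nn _ _)
      · have hz : mv Ψ (Z n) σ x = 0 := by
          refine hs σ (hIab hσ) _ fun h' => hx (hball n σ hσ ?_)
          rw [mem_ball, dist_eq_norm]
          rwa [mem_ball, dist_zero_right] at h'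
        rw [indicator_of_notMem hx, hz, mul_zero, norm_zero]
    · refine Tendsto.const_mul _ ?_
      exact (hΨc.tendsto (x - X σ)).comp (tendsto_const_nhds.sub (hZX σ hσ))
  have hδn : ∀ᶠ n : ℕ in atTop, 1 / ((n : ℝ) + 1) ≤ δ :=
    (tendsto_one_div_add_atTop_nhds_zero_nat (𝕜 := ℝ)).eventually_le_const hδ
  exact le_of_tendsto_of_tendsto ((hends t htG ⟨hst, le_rfl⟩).sub (hends s hsG ⟨le_rfl, hst⟩))
    (hT1.sub_const _) (hδn.mono fun n hn => hnew n hn)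

end Pool.Agent.N976.EQ
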