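import Pool.Agent.N976.TL.Stm
import Pool.Agent.N976.TL.A1a
import Pool.Agent.Y496.NS.Mov3

/-!
Statements of the parts of the project EQ (helper976): the energy equality for suitable weak
periodic solutions of the Navier-Stokes equations whose dissipation density grows slower than
`log² (1 / r)` at every singular point.
-/

set_option autoImplicit false

open MeasureTheory Set Metric
open scoped ContDiff ENNReal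

namespace Pool.Agent.N976.EQ

open H459R3.NS W221.NS Pool.Agent.Y8 Pool.Agent.N977.H Pool.Agent.N976.TL

/-! ### The defect -/

/-- The defect of the local energy equality, tested with `φ`. -/
noncomputable def LL (G : Set ℝ) (u : ℝ → V → V) (p : ℝ → V → ℝ) (φ : ℝ → V → ℝ) : ℝ :=
  ∫ t in G, DD 1 u p φ t

/-- The defect is linear. -/
def S_L0 : Prop := ∀ (T E D : ℝ) (G : Set ℝ) (u : ℝ → V → V) (p : ℝ → V → ℝ),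
  Turb 1 T E D G u p → ∀ φ : ℝ → V → ℝ, Test T φ → IntegrableOn (DD 1 u p φ) G ∧
    (∀ c : ℝ, LL G u p (fun t x => c * φ t x) = c * LL G u p φ) ∧
    ∀ ψ : ℝ → V → ℝ, Test T ψ → Test T (fun t x => φ t x + ψ t x) ∧
      LL G u p (fun t x => φ t x + ψ t x) = LL G u p φ + LL G u p ψ

/-- The test function `φ` is dominated by the moving function. -/
def Dom (φ : ℝ → V → ℝ) (Ψ : ℝ → V → ℝ) (X : ℝ → V) (s t : ℝ) : Prop :=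
  (∀ τ x, 0 ≤ φ τ x) ∧ tsupport (fun z : ℝ × V => φ z.1 z.2) ⊆ Ioo s t ×ˢ univ ∧
    ∃ δ > 0, ∀ τ ∈ Icc s t, ∀ x x' : V, ‖x' - x‖ ≤ δ → φ τ x ≤ Ψ τ (x' - X τ)

/-- The energy inequality with a moving test function and the defect. -/
def S_K1 : Prop := ∀ (T E D : ℝ) (G : Set ℝ) (u : ℝ → V → V) (p : ℝ → V → ℝ),
  Turb 1 T E D G u p → ∀ (α β : ℝ) (Ψ : ℝ → V → ℝ),
  ContDiffOn ℝ ∞ (fun z : ℝ × V => Ψ z.1 z.2) (Ioo α β ×ˢ univ) → ∀ R : ℝ, 0 < R →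
  (∀ t ∈ Ioo α β, ∀ z ∉ ball (0 : V) R, Ψ t z = 0) → ∀ (X Y : ℝ → V) (s t : ℝ), s ∈ G → t ∈ G →
  α < s → s ≤ t → t < β → (∀ τ ∈ Icc s t, HasDerivAt X (Y τ) τ) → ContinuousOn Y (Icc s t) →
  ∀ φ : ℝ → V → ℝ, Test T φ → Dom φ Ψ X s t →
    IntegrableOn (fun τ => ∫ x, edx u p Ψ τ (X τ) (Y τ) x) (Ioo s t) ∧
      (∫ x, nsq (u t) x * mv Ψ X t x) - (∫ x, nsq (u s) x * mv Ψ X s x)
        ≤ (∫ τ in Ioo s t, ∫ x, edx u p Ψ τ (X τ) (Y τ) x) - LL G u p φ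

/-- The energy inequality with the defect in the moving frame. -/
def S_K2 : Prop := ∀ (T E D : ℝ) (G : Set ℝ) (u : ℝ → V → V) (p : ℝ → V → ℝ),
  Turb 1 T E D G u p → ∀ r s : ℝ, 0 < r → r ^ 2 < s → s < T → ∀ (X Y : ℝ → V) (B C : ℝ),
    FPath T r B C G u p X Y → ∀ (α β ρ : ℝ) (Ψ : ℝ → V → ℝ),
    MT {t | t ∈ Ioo (-1 : ℝ) 0 ∧ s + r ^ 2 * t ∈ G} α β Ψ (fun _ => 0) (fun _ => 0) ρ →
    ∀ s' t' : ℝ, s' ∈ Ioo (-1 : ℝ) 0 → s + r ^ 2 * s' ∈ G → t' ∈ Ioo (-1 : ℝ) 0 →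
    s + r ^ 2 * t' ∈ G → α < s' → s' ≤ t' → t' < β → (∀ τ ∈ Icc s' t', ∀ z, 0 ≤ Ψ τ z) →
    ∀ φ : ℝ → V → ℝ, Test T φ → (∀ τ x, 0 ≤ φ τ x) →
    tsupport (fun z : ℝ × V => φ z.1 z.2) ⊆ Ioo (s + r ^ 2 * s') (s + r ^ 2 * t') ×ˢ univ →
    (∃ δ > 0, ∀ τ ∈ Icc s' t', ∀ x x' : V, ‖x' - x‖ ≤ δ →
      φ (s + r ^ 2 * τ) x ≤ Ψ τ (r⁻¹ • (x' - X (s + r ^ 2 * τ)))) →
      EW (frv r s X u) Ψ (fun _ => 0) t' - EW (frv r s X u) Ψ (fun _ => 0) s'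
        ≤ (∫ τ in Ioo s' t', deriv (EW (frv r s X u) Ψ (fun _ => 0)) τ) - r⁻¹ * LL G u p φ

/-- From `v` to `W`. -/
def S_K3 : Prop := ∀ (H : Set ℝ) (v W F : ℝ → V → V) (q : ℝ → V → ℝ) (k : ℝ → ℝ),
  WL2 H v q k → Fld H F k → ContDiffOn ℝ ∞ (fun z : ℝ × V => W z.1 z.2) (H ×ˢ univ) →
    (∀ t ∈ H, ∀ x ∈ ball (0 : V) 1, ∀ i, F t x i = v t x i - W t x i) →
    ∀ (α β ρ : ℝ) (Ψ : ℝ → V → ℝ) (y y' : ℝ → V), MT H α β Ψ y y' ρ → ∀ s ∈ H, ∀ t ∈ H, α < s →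
    s ≤ t → t < β → (∀ τ ∈ Icc s t, ∀ z, 0 ≤ Ψ τ z) → ∀ κ : ℝ,
    EW v Ψ y t - EW v Ψ y s ≤ (∫ τ in Ioo s t, deriv (EW v Ψ y) τ) - κ →
      EW W Ψ y t - EW W Ψ y s ≤ (∫ τ in Ioo s t, deriv (EW W Ψ y) τ) - κ

/-- The bound of the defect on a short window of the frame. -/
def S_K4 : Prop := ∃ C : ℝ, 0 < C ∧ ∀ (H : Set ℝ) (v : ℝ → V → V) (q : ℝ → V → ℝ) (k : ℝ → ℝ),
  WL2 H v q k → ∀ h ε : ℝ, 0 < h → h ≤ 1 → 0 < ε →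
    IntegrableOn (fun t => √(L4 0 4 (v t))) (Ioo (-h) 0) →
    ∫ t in Ioo (-h) 0, √(L4 0 4 (v t)) ≤ ε → ∀ t' ∈ H, ∀ t ∈ H, -h < t' → t' < -(3 / 4 * h) →
    t' < t → ∀ κ : ℝ,
    EW v (A1a.PHh h) (fun _ => 0) t - EW v (A1a.PHh h) (fun _ => 0) t'
        ≤ (∫ τ in Ioo t' t, deriv (EW v (A1a.PHh h) (fun _ => 0)) τ) - κ →
      κ ≤ C * (ε / h + ε ^ 2)

/-- One window. -/
def S_K5 : Prop := ∃ C c : ℝ, 0 < C ∧ 0 < c ∧ c ≤ 1 / 2 ∧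
  ∀ (T E D : ℝ) (G : Set ℝ) (u : ℝ → V → V) (p : ℝ → V → ℝ), Turb 1 T E D G u p →
  ∀ (t₀ : ℝ) (x₀ y : V) (i : ℕ) (a e : ℝ), LvD T G u t₀ x₀ y i e → 0 ≤ a →
  (∀ t ∈ Wi t₀ i ∩ G, rr i * ‖mo (rr i) (u t) x₀‖ ≤ a) →
  ∀ h : ℝ, 0 < h → h * (1 + a + e) ≤ c → ∀ s e₁ : ℝ, t₀ - rr i ^ 2 ≤ s - h * rr i ^ 2 →
  s < t₀ + rr i ^ 2 → 0 < e₁ →
  ∫⁻ τ in Ioo (s - h * rr i ^ 2) s, Y7.FtG 16 G u (τ, y) ≤ ENNReal.ofReal (e₁ / rr i ^ 2) →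
  ∀ φ : ℝ → V → ℝ, Test T φ → (∀ t x, 0 ≤ φ t x) → (∀ t x, φ t x ≤ 1) →
    tsupport (fun z : ℝ × V => φ z.1 z.2)
      ⊆ Ioo (s - 9 / 16 * h * rr i ^ 2) s ×ˢ ball x₀ (rr (i + 1)) →
    LL G u p φ ≤ C * rr i * (e₁ / h + e₁ ^ 2)

/-- The bound of the defect at the level `i`. -/
def S_K6 : Prop := ∃ C : ℝ, 0 < C ∧
  ∀ (T E D : ℝ) (G : Set ℝ) (u : ℝ → V → V) (p : ℝ → V → ℝ), Turb 1 T E D G u p →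
  ∀ (t₀ : ℝ) (x₀ y : V) (i : ℕ) (a e : ℝ), LvD T G u t₀ x₀ y i e → 0 ≤ a →
  (∀ t ∈ Wi t₀ i ∩ G, rr i * ‖mo (rr i) (u t) x₀‖ ≤ a) →
  ∀ φ : ℝ → V → ℝ, Test T φ → (∀ t x, 0 ≤ φ t x) → (∀ t x, φ t x ≤ 1) →
    tsupport (fun z : ℝ × V => φ z.1 z.2) ⊆ Cy (i + 1) (t₀, x₀) →
    LL G u p φ ≤ C * rr i * ((1 + a) * e + e ^ 2)

/-! ### Regular points -/

/-- The energy identity of the mollified field. -/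
def S_E3a : Prop := ∀ (T E D : ℝ) (G : Set ℝ) (u : ℝ → V → V) (p : ℝ → V → ℝ),
  Turb 1 T E D G u p → ∀ r : ℝ, 0 < r → r ≤ 1 → ∀ φ : ℝ → V → ℝ, Test T φ →
  (∀ t ∈ G, ∀ x, DifferentiableAt ℝ (fun s => mo r (u s) x) t) ∧
  ∫ t in G, ∫ x, ((∑ i, 2 * mo r (u t) x i * deriv (fun s => mo r (u s) x i) t) * φ t x
    + (∑ i, mo r (u t) x i ^ 2) * deriv (fun s => φ s x) t) = 0

/-- The local energy equality near regular points. -/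
def S_E3 : Prop := ∀ (T E D : ℝ) (G : Set ℝ) (u : ℝ → V → V) (p : ℝ → V → ℝ),
  Turb 1 T E D G u p → ∀ φ : ℝ → V → ℝ, Test T φ →
  (∀ z ∈ tsupport (fun z : ℝ × V => φ z.1 z.2), ¬SingPt G u z.1 z.2) → LL G u p φ = 0

/-! ### Covers -/

/-- From covers to the local energy equality. -/
def S_EC : Prop := ∀ (T E D : ℝ) (G : Set ℝ) (u : ℝ → V → V) (p : ℝ → V → ℝ),
  Turb 1 T E D G u p → ∀ φ : ℝ → V → ℝ, Test T φ → (∀ t x, 0 ≤ φ t x) →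
  (∀ ε : ℝ, 0 < ε → ∃ (ι : Type) (_ : Countable ι) (U : ι → Set (ℝ × V)) (c : ι → ℝ),
    (∀ i, IsOpen (U i)) ∧ (∀ i, 0 ≤ c i) ∧ ∑' i, ENNReal.ofReal (c i) ≤ ENNReal.ofReal ε ∧
    (∀ z ∈ tsupport (fun z : ℝ × V => φ z.1 z.2), SingPt G u z.1 z.2 → ∃ i, z ∈ U i) ∧
    ∀ i, ∀ ψ : ℝ → V → ℝ, Test T ψ → (∀ t x, 0 ≤ ψ t x) → (∀ t x, ψ t x ≤ 1) →
      tsupport (fun z : ℝ × V => ψ z.1 z.2) ⊆ U i → LL G u p ψ ≤ c i) →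
    LL G u p φ = 0

/-- The covers by good cylinders. -/
def S_QT : Prop := ∀ (m : ℕ) (C θ : ℝ), 1 ≤ m → 0 < C → 0 < θ → ∃ P : ℝ, 1 ≤ P ∧
  ∀ F : ℝ × V → ℝ≥0∞, Measurable F → ∀ (K : Set (ℝ × V)) (B D Λ : ℝ) (k₀ J : ℕ)
  (e X : ℝ × V → ℕ → ℝ), 1 ≤ B → 0 ≤ D → 1 ≤ Λ → (∀ z ∈ K, PtD F m C θ B k₀ z (e z) (X z)) →
  (∀ z ∈ K, ∀ i, k₀ ≤ i → i ≤ J → ∫⁻ q in Cy i z, F q ≤ ENNReal.ofReal (Λ * rr i)) →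
  ∫⁻ q in Nb K k₀, F q ≤ ENNReal.ofReal D →
  P * (k₀ + 1 + Real.log B + Real.log Λ) ≤ J →
    ∃ (U : Set (ℝ × V)) (l : ℝ × V → ℕ), U.Countable ∧ U ⊆ K ∧ (∀ z ∈ U, k₀ ≤ l z) ∧
      K ⊆ ⋃ z ∈ U, Cy (l z + 3) z ∧
      ∑' z : U, ENNReal.ofReal (rr (l z) * ((1 + √(X z (l z))) * e z (l z) + e z (l z) ^ 2))
        ≤ ENNReal.ofReal (P * Λ ^ P * D * Real.exp
          (-(J - P * (k₀ + 1 + Real.log B + Real.log Λ)) / (P * √Λ * (1 + Real.log Λ) ^ 2)))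

/-- The properties of the singular points, with the defect. -/
def S_Q9 : Prop := ∃ (m : ℕ) (C θ : ℝ), 3 ≤ m ∧ 0 < C ∧ 0 < θ ∧
  ∀ (T E D : ℝ) (G : Set ℝ) (u : ℝ → V → V) (p : ℝ → V → ℝ), Turb 1 T E D G u p →
  ∃ B : ℝ, 1 ≤ B ∧ ∀ (i₀ : ℕ) (z : ℝ × V), 3 ≤ i₀ → 2 * rr i₀ ^ 2 < z.1 → z.1 + rr i₀ ^ 2 < T →
    SingPt G u z.1 z.2 → ∃ e X : ℕ → ℝ, PtD (Y7.FtG 16 G u) m C θ B i₀ z e X ∧
      ∀ i ≥ i₀, ∀ φ : ℝ → V → ℝ, Test T φ → (∀ t x, 0 ≤ φ t x) → (∀ t x, φ t x ≤ 1) →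
        tsupport (fun z : ℝ × V => φ z.1 z.2) ⊆ Cy (i + 3) z →
        LL G u p φ ≤ C * rr i * ((1 + √(X i)) * e i + e i ^ 2)

/-- The growth of the dissipation density at the singular point `z`. -/
def Gr (G : Set ℝ) (u : ℝ → V → V) (γ M : ℝ) (z : ℝ × V) : Prop :=
  ∀ i : ℕ, ∫⁻ q in Cy i z, gG G u q ≤ ENNReal.ofReal (M * (1 + i) ^ γ * rr i)

/-- The choice of the level. -/
def S_QC : Prop := ∀ (P B D M γ δ : ℝ) (k₀ : ℕ), 1 ≤ P → 1 ≤ B → 0 ≤ D → 1 ≤ M → 0 ≤ γ →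
  γ < 2 → 0 < δ → ∃ J : ℕ, k₀ ≤ J ∧
    P * (k₀ + 1 + Real.log B + Real.log (M * (1 + J) ^ γ)) ≤ J ∧
    P * (M * (1 + J) ^ γ) ^ P * D * Real.exp
      (-(J - P * (k₀ + 1 + Real.log B + Real.log (M * (1 + J) ^ γ))) /
        (P * √(M * (1 + J) ^ γ) * (1 + Real.log (M * (1 + J) ^ γ)) ^ 2)) ≤ δ

/-- The local energy equality. -/
def S_EQ0 : Prop := ∀ (T E D : ℝ) (G : Set ℝ) (u : ℝ → V → V) (p : ℝ → V → ℝ),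
  Turb 1 T E D G u p → ∀ γ : ℝ, 0 ≤ γ → γ < 2 → ∀ φ : ℝ → V → ℝ, Test T φ →
  (∀ t x, 0 ≤ φ t x) →
  (∀ z ∈ tsupport (fun z : ℝ × V => φ z.1 z.2), SingPt G u z.1 z.2 → ∃ M : ℝ, Gr G u γ M z) →
    LL G u p φ = 0

/-- From the local energy equality to the energy equality. -/
def S_E4 : Prop := ∀ (T E D : ℝ) (G : Set ℝ) (u : ℝ → V → V) (p : ℝ → V → ℝ),
  Turb 1 T E D G u p → (∀ φ : ℝ → V → ℝ, Test T φ → (∀ t x, 0 ≤ φ t x) → LL G u p φ = 0) →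
    ∀ s ∈ G, ∀ t ∈ G, s ≤ t → energy (u t) - energy (u s) = -2 * ∫ τ in Ioo s t, enstrophy (u τ)

end Pool.Agent.N976.EQ
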